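import Mathlib.Combinatorics.SimpleGraph.Coloring.Vertex
import Mathlib.Combinatorics.SimpleGraph.Clique
import Mathlib.Data.Set.Card

/-! The closure of a class of graphs under substitution and gluing along few vertices. -/

set_option autoImplicit false

namespace Pool.Agent.MP_da1f04_co

/-- A class of graphs; only its finite members matter. -/
abbrev GClass : Type 1 := ∀ V : Type, SimpleGraph V → Prop

/-- The chromatic number of the induced subgraphs of the finite members of the class is bounded
by a function of the clique number. -/
def ChiBounded (C : GClass) : Prop :=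
  ∃ f : ℕ → ℕ, ∀ (V : Type) (G : SimpleGraph V), Finite V → C V G → ∀ (s : Set V) (m : ℕ),
    (G.induce s).CliqueFree (m + 1) → (G.induce s).Colorable (f m)

/-- The closure of the finite members of `C` under isomorphism, substitution and gluing along at
most `k` vertices. -/
inductive Cl (C : GClass) (k : ℕ) : ∀ V : Type, SimpleGraph V → Prop
  | base (V : Type) (G : SimpleGraph V) : Finite V → C V G → Cl C k V G
  | iso (V W : Type) (G : SimpleGraph V) (H : SimpleGraph W) :
      Cl C k V G → Nonempty (G ≃g H) → Cl C k W H
  | subst (V : Type) (G : SimpleGraph V) (s : Set V) (v : V) : v ∈ s →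
      (∀ x ∉ s, ∀ y ∈ s, G.Adj x y ↔ G.Adj x v) →
      Cl C k (insert v sᶜ : Set V) (G.induce (insert v sᶜ)) → Cl C k s (G.induce s) → Cl C k V G
  | glue (V : Type) (G : SimpleGraph V) (a b : Set V) : a ∪ b = Set.univ → (a ∩ b).ncard ≤ k →
      (∀ x ∉ b, ∀ y ∉ a, ¬ G.Adj x y) →
      Cl C k a (G.induce a) → Cl C k b (G.induce b) → Cl C k V G

/-- The graphs with at most two vertices. -/
def Tiny : GClass := fun V _ => Nat.card V ≤ 2

end Pool.Agent.MP_da1f04_co
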