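import Mathlib

/-!
Graphs with no short odd closed walk and small independence ratio: the cube, two points being
adjacent when they are almost antipodal.
-/

set_option autoImplicit false

namespace Pool.Agent.MP_da1f04_co.F91

/-- The discrete cube as an iterated product. -/
def Cube : ℕ → Type
  | 0 => Unit
  | n + 1 => Bool × Cube n

instance Cube.instFintype : ∀ n, Fintype (Cube n)
  | 0 => inferInstanceAs (Fintype Unit)
  | n + 1 => @instFintypeProd Bool (Cube n) inferInstance (Cube.instFintype n)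

theorem Cube.card : ∀ n, Fintype.card (Cube n) = 2 ^ n
  | 0 => rfl
  | n + 1 => by
    have : Fintype.card (Cube (n + 1)) = Fintype.card Bool * Fintype.card (Cube n) :=
      Fintype.card_prod Bool (Cube n)
    rw [this, Cube.card n, Fintype.card_bool, pow_succ, mul_comm]

/-- Hamming distance. -/
def hd : ∀ {n : ℕ}, Cube n → Cube n → ℕ
  | 0, _, _ => 0
  | _ + 1, (a, x), (b, y) => (if a = b then 0 else 1) + hd x y

/-- The antipode. -/
def anti : ∀ {n : ℕ}, Cube n → Cube n
  | 0, x => x
  | _ + 1, (a, x) => (!a, anti x)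

theorem hd_self : ∀ {n : ℕ} (x : Cube n), hd x x = 0
  | 0, _ => rfl
  | _ + 1, (a, x) => by simp [hd, hd_self x]

theorem hd_comm : ∀ {n : ℕ} (x y : Cube n), hd x y = hd y x
  | 0, _, _ => rfl
  | _ + 1, (a, x), (b, y) => by simp [hd, hd_comm x y, eq_comm]

theorem hd_tri : ∀ {n : ℕ} (x y z : Cube n), hd x z ≤ hd x y + hd y z
  | 0, _, _, _ => le_rfl
  | _ + 1, (a, x), (b, y), (c, z) => by
    have := hd_tri x y z
    cases a <;> cases b <;> cases c <;> simp [hd] <;> omega

theorem hd_anti : ∀ {n : ℕ} (x y : Cube n), hd x (anti y) + hd x y = n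
  | 0, _, _ => rfl
  | _ + 1, (a, x), (b, y) => by
    have := hd_anti x y
    cases a <;> cases b <;> simp [hd, anti] <;> omega

theorem anti_anti : ∀ {n : ℕ} (x : Cube n), anti (anti x) = x
  | 0, _ => rfl
  | _ + 1, (a, x) => by simp [anti, anti_anti x]

theorem poincare : ∀ (n : ℕ) (f : Cube n → ℝ), (∀ x y, f x - f y ≤ hd x y) →
    ∃ m : ℝ, ∑ x, (f x - m) ^ 2 ≤ 2 ^ n * n / 4
  | 0, f, _ => ⟨f (), by
      have : ∑ x : Cube 0, (f x - f ()) ^ 2 = (f () - f ()) ^ 2 :=
        Fintype.sum_unique (ι := Unit) _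
      rw [this]
      simp⟩
  | n + 1, f, hf => by
    obtain ⟨m, hm⟩ := poincare n (fun x => (f (true, x) + f (false, x)) / 2) (by
      intro x y
      have h1 := hf (true, x) (true, y)
      have h2 := hf (false, x) (false, y)
      simp only [hd, if_true, zero_add] at h1 h2
      linarith)
    refine ⟨m, ?_⟩
    have e : ∑ x : Cube (n + 1), (f x - m) ^ 2 =
        ∑ x : Cube n, ((f (true, x) - m) ^ 2 + (f (false, x) - m) ^ 2) := by
      have := Fintype.sum_prod_type_right (fun x : Bool × Cube n => (f x - m) ^ 2)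
      simp only [Fintype.sum_bool] at this
      exact this
    rw [e]
    have b : ∀ x : Cube n, (f (true, x) - m) ^ 2 + (f (false, x) - m) ^ 2 ≤
        2 * ((f (true, x) + f (false, x)) / 2 - m) ^ 2 + 1 / 2 := by
      intro x
      have h1 := hf (true, x) (false, x)
      have h2 := hf (false, x) (true, x)
      simp [hd, hd_self] at h1 h2
      nlinarith
    refine (Finset.sum_le_sum fun x _ => b x).trans ?_
    rw [Finset.sum_add_distrib, ← Finset.mul_sum]
    simp only [Finset.sum_const, Finset.card_univ, Cube.card, nsmul_eq_mul]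
    push_cast
    rw [pow_succ]
    linarith

/-- Two points are adjacent when they differ in at least `n - t` places. -/
def cubeGraph (n t : ℕ) : SimpleGraph (Cube n) where
  Adj x y := x ≠ y ∧ n ≤ hd x y + t
  symm := ⟨fun x y h => ⟨h.1.symm, by rw [hd_comm]; exact h.2⟩⟩
  loopless := ⟨fun _ h => h.1 rfl⟩

theorem cube_walk {n t : ℕ} {x y : Cube n} (p : (cubeGraph n t).Walk x y) :
    (Even p.length → hd x y ≤ p.length * t) ∧ (Odd p.length → hd x (anti y) ≤ p.length * t) := by
  induction p with
  | nil => simp [hd_self]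
  | @cons x z y h p ih =>
    have h1 := hd_anti x z
    have h2 := h.2
    simp only [SimpleGraph.Walk.length_cons, Nat.even_add_one, Nat.odd_add_one, add_mul, one_mul,
      Nat.not_even_iff_odd, Nat.not_odd_iff_even]
    constructor
    · intro ho
      have h3 := ih.2 ho
      have h4 := hd_tri x (anti z) y
      have h5 := hd_anti y z
      have h6 := hd_anti z y
      rw [hd_comm y z] at h5
      rw [hd_comm (anti z) y] at h4
      omega
    · intro he
      have h3 := ih.1 he
      have h4 := hd_tri x (anti z) (anti y)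
      have h5 := hd_anti (anti z) y
      have h6 := hd_anti y z
      rw [hd_comm (anti z) y] at h5
      rw [hd_comm y z] at h6
      omega

theorem cube_odd {n t g : ℕ} (h : g * t < n) (x : Cube n) (p : (cubeGraph n t).Walk x x)
    (ho : Odd p.length) : g < p.length := by
  have h1 := (cube_walk p).2 ho
  have h2 := hd_anti x x
  rw [hd_self] at h2
  by_contra hc
  have : p.length * t ≤ g * t := Nat.mul_le_mul_right t (not_lt.1 hc)
  omega

theorem cube_indep {n t : ℕ} (htn : t ≤ n) (A : Finset (Cube n))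
    (hA : (cubeGraph n t).IsIndepSet (A : Set (Cube n))) :
    (A.card : ℝ) * t ^ 2 ≤ 2 ^ n * n := by
  classical
  rcases A.eq_empty_or_nonempty with rfl | hne
  · simp
  let f : Cube n → ℕ := fun z => A.inf' hne fun x => hd x z
  have fle : ∀ z, ∀ x ∈ A, f z ≤ hd x z := fun z x hx => Finset.inf'_le _ hx
  have fex : ∀ z, ∃ x ∈ A, f z = hd x z := fun z => Finset.exists_mem_eq_inf' hne _
  obtain ⟨m, hm⟩ := poincare n (fun z => (f z : ℝ)) (by
    intro y z
    obtain ⟨x, hx, e⟩ := fex z
    have h1 := fle y x hx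
    have h2 := hd_tri x z y
    rw [hd_comm z y] at h2
    have : f y ≤ f z + hd y z := by omega
    have : (f y : ℝ) ≤ f z + hd y z := by exact_mod_cast this
    linarith)
  have e : ∑ z : Cube n, ((f (anti z) : ℝ) - m) ^ 2 = ∑ z : Cube n, ((f z : ℝ) - m) ^ 2 :=
    Fintype.sum_equiv ⟨anti, anti, anti_anti, anti_anti⟩ _ _ fun _ => rfl
  have b : ∀ z ∈ A, (t : ℝ) ^ 2 / 2 ≤ ((f z : ℝ) - m) ^ 2 + ((f (anti z) : ℝ) - m) ^ 2 := by
    intro z hz
    have h0 : f z = 0 := by
      have := fle z z hz
      rw [hd_self] at this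
      omega
    have h1 : t ≤ f (anti z) := by
      obtain ⟨x, hx, e⟩ := fex (anti z)
      have h2 := hd_anti x z
      by_cases hxz : x = z
      · subst hxz
        rw [hd_self] at h2
        omega
      · have h3 : ¬ (x ≠ z ∧ n ≤ hd x z + t) := hA hx hz hxz
        have h4 : ¬ n ≤ hd x z + t := fun h => h3 ⟨hxz, h⟩
        omega
    have h1' : (t : ℝ) ≤ f (anti z) := by exact_mod_cast h1
    have h2 : (0 : ℝ) ≤ t := Nat.cast_nonneg t
    rw [h0]
    nlinarith [sq_nonneg ((f (anti z) : ℝ) - 2 * m)]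
  have s1 : (A.card : ℝ) * ((t : ℝ) ^ 2 / 2) ≤
      ∑ z : Cube n, (((f z : ℝ) - m) ^ 2 + ((f (anti z) : ℝ) - m) ^ 2) := by
    calc _ = ∑ _z ∈ A, (t : ℝ) ^ 2 / 2 := by simp
      _ ≤ _ := Finset.sum_le_sum b
      _ ≤ _ := Finset.sum_le_sum_of_subset_of_nonneg (Finset.subset_univ _)
          fun _ _ _ => by positivity
  rw [Finset.sum_add_distrib, e] at s1
  linarith

/-- A finite nonempty graph with no odd closed walk of length at most `g` and independence ratio
at most `1 / c`. -/
theorem exists_cube (g c : ℕ) : ∃ (V : Type) (_ : Fintype V) (D : SimpleGraph V), Nonempty V ∧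
    (∀ (x : V) (p : D.Walk x x), Odd p.length → g < p.length) ∧
      c * D.indepNum ≤ Fintype.card V := by
  set t := (c + 1) * (g + 2) with ht
  set n := (g + 1) * t + 1 with hn
  have htn : t ≤ n := by
    rw [hn]
    nlinarith
  refine ⟨Cube n, inferInstance, cubeGraph n t, ?_, ?_, ?_⟩
  · refine Fintype.card_pos_iff.1 ?_
    rw [Cube.card]
    positivity
  · intro x p ho
    refine cube_odd ?_ x p ho
    rw [hn]
    nlinarith
  · obtain ⟨A, hA⟩ := (cubeGraph n t).exists_isNIndepSet_indepNum
    have h := cube_indep htn A hA.1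
    rw [hA.2] at h
    have h' : (cubeGraph n t).indepNum * t ^ 2 ≤ 2 ^ n * n := by exact_mod_cast h
    have t1 : 1 ≤ t := by
      rw [ht]
      nlinarith
    have hn' : n ≤ (g + 2) * t := by
      rw [hn]
      nlinarith
    rw [Cube.card]
    have h2 : (c + 1) * (cubeGraph n t).indepNum * ((g + 2) * t) ≤ 2 ^ n * ((g + 2) * t) := by
      calc _ = (cubeGraph n t).indepNum * (((c + 1) * (g + 2)) * t) := by ring
        _ = (cubeGraph n t).indepNum * t ^ 2 := by rw [← ht, sq]
        _ ≤ 2 ^ n * n := h'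
        _ ≤ _ := Nat.mul_le_mul_left _ hn'
    have h3 := Nat.le_of_mul_le_mul_right h2 (by positivity)
    nlinarith [Nat.zero_le (cubeGraph n t).indepNum]

end Pool.Agent.MP_da1f04_co.F91
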