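import Mathlib
import Pool.Agent.MP_da1f04_co.Defs

/-! Every graph is a homomorphic image of a member of the closure with the same small images. -/

set_option autoImplicit false

namespace Pool.Agent.MP_da1f04_co

open SimpleGraph Set Sum

variable {C : GClass} {k : ℕ} {V W U : Type} {G : SimpleGraph V} {H : SimpleGraph W}
  {J : SimpleGraph U}

theorem Cl.finite (h : Cl C k V G) : Finite V := by
  induction h with
  | base _ _ h _ => exact h
  | iso _ _ _ _ _ e ih => exact .of_equiv _ e.some.toEquiv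
  | subst V G s v _ _ _ _ h1 h2 =>
    refine Set.finite_univ_iff.1 (((toFinite (insert v sᶜ)).union (toFinite s)).subset fun x _ => ?_)
    by_cases hx : x ∈ s
    exacts [.inr hx, .inl (.inr hx)]
  | glue V G a b e _ _ _ _ h1 h2 =>
    exact Set.finite_univ_iff.1 (e ▸ (toFinite a).union (toFinite b))

theorem Cl.mono {k' : ℕ} (h : Cl C k V G) (hk : k ≤ k') : Cl C k' V G := by
  induction h with
  | base V G h1 h2 => exact .base V G h1 h2
  | iso V W G H _ e ih => exact .iso V W G H ih e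
  | subst V G s v h1 h2 _ _ h3 h4 => exact .subst V G s v h1 h2 h3 h4
  | glue V G a b h1 h2 h3 _ _ h4 h5 => exact .glue V G a b h1 (h2.trans hk) h3 h4 h5

theorem Cl.emb (h : Cl C k V G) (f : G ↪g H) {s : Set W} (hs : range f = s) :
    Cl C k s (H.induce s) := hs ▸ .iso _ _ _ _ h ⟨f.isoInduceRange⟩

theorem Cl.glue' (h : Cl C k V G) (h' : Cl C k W H) (f : G ↪g J) (g : H ↪g J)
    (cov : ∀ x, x ∈ range f ∨ x ∈ range g) (hk : (range f ∩ range g).ncard ≤ k)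
    (no : ∀ x ∉ range g, ∀ y ∉ range f, ¬ J.Adj x y) : Cl C k U J :=
  .glue U J _ _ (eq_univ_of_forall cov) hk no (h.emb f rfl) (h'.emb g rfl)

/-- The disjoint union with all edges between `D` and `N`. -/
def att (G : SimpleGraph V) (H : SimpleGraph W) (D : Set V) (N : Set W) : SimpleGraph (V ⊕ W) where
  Adj
    | inl x, inl y => G.Adj x y
    | inr x, inr y => H.Adj x y
    | inl x, inr y => x ∈ D ∧ y ∈ N
    | inr x, inl y => y ∈ D ∧ x ∈ N
  symm := ⟨by rintro (x | x) (y | y) h; exacts [h.symm, h, h, h.symm]⟩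
  loopless := ⟨by rintro (x | x) h; exacts [h.ne rfl, h.ne rfl]⟩

/-- New twins with neighbourhood `N`. -/
abbrev cone (ρ : Type) (G : SimpleGraph V) (N : Set V) : SimpleGraph (ρ ⊕ V) := att ⊥ G univ N

theorem tiny {ρ : Type} [Finite ρ] (h : Nat.card ρ ≤ 2) (G : SimpleGraph ρ) : Cl Tiny 2 ρ G :=
  .base _ _ inferInstance h

theorem card_one (ρ : Type) [Subsingleton ρ] : Nat.card ρ ≤ 1 :=
  Finite.card_le_one_iff_subsingleton.2 inferInstance

theorem two {N : Set V} (h : ∀ (ρ : Type) [Subsingleton ρ], Cl Tiny 2 _ (cone ρ G N)) (ρ : Type)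
    [Finite ρ] (h2 : Nat.card ρ ≤ 2) : Cl Tiny 2 _ (cone ρ G N) := by
  rcases isEmpty_or_nonempty ρ with _ | ⟨⟨r⟩⟩
  · exact h ρ
  refine .subst _ _ (range inl) (inl r) ⟨r, rfl⟩ ?_
    ((h Unit).emb ⟨⟨Sum.map (fun _ => r) id, Sum.map_injective.2
      ⟨fun _ _ _ => rfl, Function.injective_id⟩⟩, ?_⟩ ?_)
    ((tiny h2 ⊥).emb ⟨⟨inl, inl_injective⟩, Iff.rfl⟩ rfl)
  · rintro (x | x) hx _ ⟨y, rfl⟩ <;> exact Iff.rfl
  · rintro (x | x) (y | y) <;> exact Iff.rfl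
  · ext (x | x) <;> simp [eq_comm]

variable {A B : Type} (R : SimpleGraph A)

/-- A graph over `R` with a set of vertices that may be joined to new twins. -/
structure Pc where
  /-- vertices -/
  V : Type
  /-- the graph -/
  G : SimpleGraph V
  /-- the map to `R` -/
  π : G →g R
  /-- the future neighbours -/
  N : Set V
  ok : ∀ (ρ : Type) [Subsingleton ρ], Cl Tiny 2 _ (cone ρ G N)
  tf : ∀ x y z, G.Adj x y → G.Adj y z → ¬ G.Adj x z
  st : ∀ x ∈ N, ∀ y ∈ N, ¬ G.Adj x y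

variable {R}

theorem Pc.cl (X : Pc R) : Cl Tiny 2 _ X.G :=
  .iso _ _ _ _ (X.ok Empty) ⟨⟨Equiv.emptySum _ _, by
    rintro (x | x) (y | y)
    exacts [x.elim, x.elim, y.elim, Iff.rfl]⟩⟩

instance (X : Pc R) : Finite X.V := X.cl.finite

/-- The same graph without marked vertices. -/
def Pc.forget (X : Pc R) : Pc R where
  V := X.V
  G := X.G
  π := X.π
  N := ∅
  ok ρ _ := (tiny ((card_one ρ).trans one_le_two) ⊥).glue' X.cl ⟨⟨inl, inl_injective⟩, Iff.rfl⟩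
    ⟨⟨inr, inr_injective⟩, Iff.rfl⟩ (by rintro (x | x) <;> simp)
    (by simp [Set.range_inl_inter_range_inr]) (by rintro (x | x) hx (y | y) hy <;> simp_all [att])
  tf := X.tf
  st _ h := h.elim

theorem attach (X K : Pc R) (D : Set X.V) (hD : D.Subsingleton) (hN : ∀ d ∈ D, d ∉ X.N)
    (hA : ∀ d ∈ D, ∀ y ∈ K.N, R.Adj (X.π d) (K.π y)) :
    ∃ (Y : Pc R) (e : X.G →g Y.G) (e' : K.G →g Y.G), (∀ x, Y.π (e x) = X.π x) ∧
      (∀ y, Y.π (e' y) = K.π y) ∧ Y.N = e '' X.N ∪ e' '' K.N ∧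
      ∀ d ∈ D, ∀ y ∈ K.N, Y.G.Adj (e d) (e' y) := by
  have hD' : Subsingleton D := hD.coe_sort
  refine ⟨⟨X.V ⊕ K.V, att X.G K.G D K.N, ⟨Sum.elim X.π K.π, ?_⟩, inl '' X.N ∪ inr '' K.N,
    fun ρ _ => ?_, ?_, ?_⟩, ⟨inl, id⟩, ⟨inr, id⟩, fun _ => rfl, fun _ => rfl, rfl,
    fun d hd y hy => ⟨hd, hy⟩⟩
  · rintro (x | x) (y | y) h
    exacts [X.π.map_adj h, hA x h.1 y h.2, (hA y h.1 x h.2).symm, K.π.map_adj h]
  · refine (X.ok ρ).glue' (two K.ok (ρ ⊕ D) ?_)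
      ⟨⟨Sum.map id inl, Sum.map_injective.2 ⟨Function.injective_id, inl_injective⟩⟩, ?_⟩
      ⟨⟨Sum.elim (Sum.map id (inl ∘ Subtype.val)) (inr ∘ inr), ?_⟩, ?_⟩ ?_ ?_ ?_
    · rw [Nat.card_sum]
      exact add_le_add (card_one ρ) (card_one D)
    · rintro (x | x) (y | y) <;> simp [att]
    · rintro ((x | x) | x) ((y | y) | y) h <;> simp_all [Subtype.val_inj]
    · rintro ((x | x) | x) ((y | y) | y) <;> simp [att, hN]
      rw [Subsingleton.elim x y]
      exact X.G.irrefl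
    · rintro (x | x | x) <;> simp
    · refine (ncard_le_ncard (t := range inl ∪ range (inr ∘ inl ∘ Subtype.val : D → _)) ?_).trans
        ((ncard_union_le _ _).trans (add_le_add (b := 1) (d := 1) ?_ ?_))
      · rintro (x | x | x) <;> simp
      · exact (ncard_le_one (finite_range _)).2 (subsingleton_range _)
      · exact (ncard_le_one (finite_range _)).2 (subsingleton_range _)
    · rintro (x | x | x) hx y hy h
      · exact hx ⟨inl (inl x), rfl⟩
      · rcases y with y | y | y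
        exacts [hy ⟨inl y, rfl⟩, hy ⟨inr y, rfl⟩, hx ⟨inl (inr ⟨x, h.1⟩), rfl⟩]
      · exact hx ⟨inr x, rfl⟩
  · rintro (x | x) (y | y) (z | z) h1 h2 h3
    · exact X.tf x y z h1 h2 h3
    · exact h1.ne (congrArg _ (hD h3.1 h2.1))
    · exact h3.ne (congrArg _ (hD h1.1 h2.1))
    · exact K.st y h1.2 z h3.2 h2
    · exact h2.ne (congrArg _ (hD h1.1 h3.1))
    · exact K.st x h1.2 z h2.2 h3
    · exact K.st x h3.2 y h2.2 h1
    · exact K.tf x y z h1 h2 h3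
  · rintro _ (⟨x, hx, rfl⟩ | ⟨x, hx, rfl⟩) _ (⟨y, hy, rfl⟩ | ⟨y, hy, rfl⟩) h
    exacts [X.st x hx y hy h, hN x h.1 hx, hN y h.1 hy, K.st x hx y hy h]

/-- At most one vertex. -/
def Pc.one {ι : Type} [Subsingleton ι] (p : ι → A) : Pc R where
  V := ι
  G := ⊥
  π := ⟨p, False.elim⟩
  N := univ
  ok ρ _ := tiny (by rw [Nat.card_sum]; exact add_le_add (card_one ρ) (card_one ι)) _
  tf _ _ _ h := h.elim
  st _ _ _ _ := id

theorem union {ι : Type} [Finite ι] (X : ι → Pc R) :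
    ∃ Y : Pc R, ∀ i, ∃ e : (X i).G →g Y.G, ∀ x, Y.π (e x) = (X i).π x := by
  classical
  have := Fintype.ofFinite ι
  have : ∀ s : Finset ι, ∃ Y : Pc R, ∀ i ∈ s, ∃ e : (X i).G →g Y.G, ∀ x,
      Y.π (e x) = (X i).π x := fun s => by
    induction s using Finset.induction_on with
    | empty => exact ⟨.one Empty.elim, by simp⟩
    | insert j s _ ih =>
      obtain ⟨Y, hY⟩ := ih
      obtain ⟨Z, e, e', h1, h2, -⟩ := attach Y (X j) ∅ subsingleton_empty (by simp) (by simp)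
      refine ⟨Z, Finset.forall_mem_insert _ _ _ |>.2 ⟨⟨e', h2⟩, fun i hi => ?_⟩⟩
      obtain ⟨f, hf⟩ := hY i hi
      exact ⟨e.comp f, fun x => (h1 _).trans (hf x)⟩
  obtain ⟨Y, hY⟩ := this Finset.univ
  exact ⟨Y, fun i => hY i (Finset.mem_univ i)⟩

theorem attachAll (X K : Pc R) {v : A} (hK : ∀ y ∈ K.N, K.π y = v) (s : Finset X.V)
    (hs : ∀ w ∈ s, R.Adj (X.π w) v) :
    ∃ (Y : Pc R) (e : X.G →g Y.G), (∀ x, Y.π (e x) = X.π x) ∧ (∀ y ∈ Y.N, Y.π y = v) ∧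
      ∀ w ∈ s, ∃ e' : K.G →g Y.G, (∀ y, Y.π (e' y) = K.π y) ∧
        ∀ y ∈ K.N, e' y ∈ Y.N ∧ Y.G.Adj (e w) (e' y) := by
  classical
  induction s using Finset.induction_on with
  | empty => exact ⟨X.forget, .id, fun _ => rfl, fun _ h => h.elim, by simp⟩
  | insert w s _ ih =>
    obtain ⟨Y, e, h1, h2, h3⟩ := ih fun x hx => hs x (Finset.mem_insert_of_mem hx)
    have hw := hs w (Finset.mem_insert_self _ _)
    obtain ⟨Z, f, f', g1, g2, g3, g4⟩ := attach Y K {e w} subsingleton_singleton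
      (by rintro _ rfl h; exact hw.ne ((h1 w).symm.trans (h2 _ h)))
      (by rintro _ rfl y hy; rwa [h1, hK y hy])
    refine ⟨Z, f.comp e, fun x => (g1 _).trans (h1 x), ?_, Finset.forall_mem_insert _ _ _ |>.2
      ⟨⟨f', g2, fun y hy => ⟨g3 ▸ .inr ⟨y, hy, rfl⟩, g4 _ rfl y hy⟩⟩, fun x hx => ?_⟩⟩
    · rw [g3]
      rintro _ (⟨y, hy, rfl⟩ | ⟨y, hy, rfl⟩)
      exacts [(g1 y).trans (h2 y hy), (g2 y).trans (hK y hy)]
    · obtain ⟨e', a1, a2⟩ := h3 x hx
      exact ⟨f.comp e', fun y => (g1 _).trans (a1 y), fun y hy =>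
        ⟨g3 ▸ .inl ⟨_, (a2 y hy).1, rfl⟩, f.map_adj (a2 y hy).2⟩⟩

theorem force [Finite A] (T : SimpleGraph B) (Λ : Finset (A × B))
    (h : ∀ φ : R →g T, ∃ a, (a, φ a) ∉ Λ) :
    ∃ X : Pc R, ∀ ψ : X.G →g T, ∃ x, (X.π x, ψ x) ∉ Λ := by
  classical
  induction Λ using Finset.strongInduction with | H Λ ih
  have star : ∀ (v : A) (L : Finset (A × B)), (∀ p ∈ L, p ∈ Λ ∧ R.Adj p.1 v) → ∃ K : Pc R,
      (∀ y ∈ K.N, K.π y = v) ∧ ∀ ψ : K.G →g T, (∀ x, (K.π x, ψ x) ∈ Λ) →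
        ∃ y ∈ K.N, ∀ p ∈ L, T.Adj p.2 (ψ y) := fun v L => by
    induction L using Finset.induction_on with
    | empty => exact fun _ => ⟨.one fun _ : Unit => v, fun _ _ => rfl, fun _ _ =>
        ⟨(), trivial, by simp⟩⟩
    | insert p L _ ihL =>
      intro hL
      obtain ⟨K, k1, k2⟩ := ihL fun q hq => hL q (Finset.mem_insert_of_mem hq)
      obtain ⟨p1, p2⟩ := hL p (Finset.mem_insert_self _ _)
      obtain ⟨X, hX⟩ := ih _ (Finset.erase_ssubset p1) fun φ =>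
        (h φ).imp fun a ha hb => ha (Finset.mem_of_mem_erase hb)
      have := Fintype.ofFinite X.V
      obtain ⟨Y, e, y1, y2, y3⟩ := attachAll X K k1 (Finset.univ.filter fun w => X.π w = p.1)
        fun w hw => by rwa [(Finset.mem_filter.1 hw).2]
      refine ⟨Y, y2, fun ψ hψ => ?_⟩
      obtain ⟨w, hw⟩ := hX (ψ.comp e)
      have ew : (X.π w, ψ (e w)) = p := by
        by_contra hn
        exact hw (Finset.mem_erase.2 ⟨hn, y1 w ▸ hψ (e w)⟩)
      obtain ⟨e', a1, a2⟩ := y3 w (by simp [← ew])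
      obtain ⟨y, hy, hy'⟩ := k2 (ψ.comp e') fun x => a1 x ▸ hψ (e' x)
      exact ⟨e' y, (a2 y hy).1, Finset.forall_mem_insert _ _ _ |>.2
        ⟨ew ▸ ψ.map_adj (a2 y hy).2, hy'⟩⟩
  choose K k1 k2 using fun v => star v (Λ.filter fun p => R.Adj p.1 v) fun p => Finset.mem_filter.1
  obtain ⟨Y, hY⟩ := union K
  choose e he using hY
  refine ⟨Y, fun ψ => by_contra fun hn => ?_⟩
  push Not at hn
  choose y y1 y2 using fun v => k2 v (ψ.comp (e v)) fun x => he v x ▸ hn (e v x)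
  have m : ∀ v, (v, ψ (e v (y v))) ∈ Λ := fun v => by
    have := hn (e v (y v))
    rwa [he, k1 v _ (y1 v)] at this
  obtain ⟨a, ha⟩ := h ⟨fun v => ψ (e v (y v)), fun {u v} huv =>
    y2 v _ (Finset.mem_filter.2 ⟨m u, huv⟩)⟩
  exact ha (m a)

theorem sparse [Finite A] (R : SimpleGraph A) (n : ℕ) : ∃ (V : Type) (G : SimpleGraph V),
    Cl Tiny 2 V G ∧ G.CliqueFree 3 ∧ Nonempty (G →g R) ∧
      ∀ (B : Type) (T : SimpleGraph B), Finite B → Nat.card B ≤ n →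
        Nonempty (G →g T) → Nonempty (R →g T) := by
  classical
  have := Fintype.ofFinite A
  choose X hX using fun i : (m : Fin (n + 1)) × {T : SimpleGraph (Fin m) // IsEmpty (R →g T)} =>
    force (R := R) i.2.1 Finset.univ fun φ => (i.2.2.false φ).elim
  obtain ⟨Y, hY⟩ := union X
  refine ⟨Y.V, Y.G, Y.cl, fun s hs => ?_, ⟨Y.π⟩, fun B T _ hB ⟨ψ⟩ => by_contra fun hn => ?_⟩
  · obtain ⟨x, y, z, h1, h2, h3, -⟩ := is3Clique_iff.1 hs
    exact Y.tf x y z h1 h3 h2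
  · let f := Finite.equivFin B
    let g : T ≃g T.map f.toEmbedding := Iso.map f T
    let i : (m : Fin (n + 1)) × {T : SimpleGraph (Fin m) // IsEmpty (R →g T)} :=
      ⟨⟨_, Nat.lt_succ_of_le hB⟩, T.map f.toEmbedding, ⟨fun φ => hn ⟨g.symm.toHom.comp φ⟩⟩⟩
    obtain ⟨e, -⟩ := hY i
    obtain ⟨x, hx⟩ := hX i (g.toHom.comp (ψ.comp e))
    exact hx (Finset.mem_univ _)

end Pool.Agent.MP_da1f04_co
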