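import Mathlib
import Pool.Agent.MP_da1f04_co.Hom

/-! Members of the closure without large complete bipartite subgraphs. -/

set_option autoImplicit false

namespace Pool.Agent.MP_da1f04_co

open SimpleGraph Set

variable {U : Type} (J : SimpleGraph U)

/-- Templates of cost at most `2 K ^ 2` extend to colourings of `X`. -/
def Ext (β : Type) (K : ℕ) (X : Set U) : Prop :=
  ∀ (P : Set U) (φ : U → β) (Q : Set (U × β)), P ⊆ X → K * P.ncard + Q.ncard ≤ 2 * K ^ 2 →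
    (∀ x ∈ P, ∀ y ∈ P, J.Adj x y → φ x ≠ φ y) → ∃ ψ : U → β,
      (∀ x ∈ X, ∀ y ∈ X, J.Adj x y → ψ x ≠ ψ y) ∧ (∀ x ∈ P, ψ x = φ x) ∧
        ∀ x ∈ X, x ∉ P → (x, ψ x) ∉ Q

variable {J} {β α : Type} {K : ℕ} [Finite U]

theorem ext_base [Finite α] (hK : 0 < K) {X : Set U} (c : U → α)
    (hc : ∀ x ∈ X, ∀ y ∈ X, J.Adj x y → c x ≠ c y) : Ext J (Fin (2 * K ^ 2 + 1) × α) K X := by
  classical
  intro P φ Q _ hn hφ
  obtain ⟨i, hi⟩ : ∃ i, i ∉ (fun x => (φ x).1) '' P ∪ (fun q => q.2.1) '' Q := by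
    by_contra h
    push Not at h
    have h1 := ncard_union_le ((fun x => (φ x).1) '' P) ((fun q => q.2.1) '' Q)
    have h2 := ncard_image_le (f := fun x => (φ x).1) (s := P)
    have h3 := ncard_image_le (f := fun q : U × Fin _ × α => q.2.1) (s := Q)
    have h4 := Nat.le_mul_of_pos_left P.ncard hK
    rw [eq_univ_of_forall h, ncard_univ, Nat.card_eq_fintype_card, Fintype.card_fin] at h1
    omega
  refine ⟨fun x => if x ∈ P then φ x else (i, c x), fun x hx y hy h => ?_, fun x hx => if_pos hx,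
    fun x _ hx h => hi (.inr ⟨_, h, by simp [hx]⟩)⟩
  dsimp only
  split_ifs with h1 h2 h2
  · exact hφ x h1 y h2 h
  · exact fun e => hi (.inl ⟨x, h1, congrArg Prod.fst e⟩)
  · exact fun e => hi (.inl ⟨y, h2, (congrArg Prod.fst e).symm⟩)
  · exact fun e => hc x hx y hy h (congrArg Prod.snd e)

theorem ext_glue [Finite β] {a b X : Set U} (ha : Ext J β K a) (hb : Ext J β K b) (e : X = a ∪ b)
    (hk : (a ∩ b).ncard ≤ K) (no : ∀ x ∈ a, x ∉ b → ∀ y ∈ b, y ∉ a → ¬ J.Adj x y) :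
    Ext J β K X := by
  classical
  intro P φ Q hP hn hφ
  wlog w : K * (P \ a).ncard + {q ∈ Q | q.1 ∈ X \ a}.ncard ≤ K ^ 2 generalizing a b
  · refine this hb ha (e.trans (union_comm _ _)) (inter_comm a b ▸ hk)
      (fun x h1 h2 y h3 h4 h => no y h3 h4 x h1 h2 h.symm) ?_
    have d : Disjoint (X \ a) (X \ b) := disjoint_left.2 fun x h1 h2 => (e ▸ h1.1).elim h1.2 h2.2
    have h1 : (P \ a).ncard + (P \ b).ncard ≤ P.ncard := by
      rw [← ncard_union_eq (d.mono (sdiff_subset_sdiff_left hP) (sdiff_subset_sdiff_left hP))]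
      exact ncard_le_ncard (union_subset sdiff_subset sdiff_subset)
    have h2 : {q ∈ Q | q.1 ∈ X \ a}.ncard + {q ∈ Q | q.1 ∈ X \ b}.ncard ≤ Q.ncard := by
      rw [← ncard_union_eq (disjoint_left.2 fun q h1 h2 => disjoint_left.1 d h1.2 h2.2)]
      exact ncard_le_ncard (union_subset (sep_subset _ _) (sep_subset _ _))
    have h3 := Nat.mul_le_mul_left K h1
    rw [mul_add] at h3
    omega
  have c1 : (P ∩ a).ncard + (P \ a).ncard = P.ncard := ncard_inter_add_ncard_sdiff_eq_ncard P a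
  obtain ⟨ψ, a1, a2, a3⟩ := ha (P ∩ a) φ (Q ∪ (a ∩ b) ×ˢ (φ '' (P \ a))) inter_subset_right (by
    have h1 := ncard_union_le Q ((a ∩ b) ×ˢ (φ '' (P \ a)))
    have h2 := Nat.mul_le_mul hk (ncard_image_le (f := φ) (s := P \ a))
    rw [ncard_prod] at h1
    rw [← c1, mul_add] at hn
    omega) fun x hx y hy => hφ x hx.1 y hy.1
  have key : ∀ x ∈ a ∩ b, ∀ y ∈ P \ a, J.Adj x y → ψ x ≠ φ y := fun x hx y hy h => by
    by_cases hp : x ∈ P
    · rw [a2 x ⟨hp, hx.1⟩]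
      exact hφ x hp y hy.1 h
    · exact fun e' => a3 x hx.1 (fun h' => hp h'.1) (.inr ⟨hx, y, hy, e'.symm⟩)
  obtain ⟨χ, b1, b2, b3⟩ := hb (a ∩ b ∪ P \ a) (fun x => if x ∈ a then ψ x else φ x)
    {q ∈ Q | q.1 ∈ X \ a}
    (union_subset inter_subset_right fun x hx => (e ▸ hP hx.1).resolve_left hx.2)
    (by
      have h1 := Nat.mul_le_mul_left K ((ncard_union_le (a ∩ b) (P \ a)).trans
        (Nat.add_le_add_right hk _))
      rw [mul_add, ← sq] at h1
      omega) (by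
      rintro x (hx | hx) y (hy | hy) h
      · rw [if_pos hx.1, if_pos hy.1]
        exact a1 x hx.1 y hy.1 h
      · rw [if_pos hx.1, if_neg hy.2]
        exact key x hx y hy h
      · rw [if_neg hx.2, if_pos hy.1]
        exact (key y hy x hx h.symm).symm
      · rw [if_neg hx.2, if_neg hy.2]
        exact hφ x hx.1 y hy.1 h)
  have eb : ∀ x ∈ b, (if x ∈ a then ψ x else χ x) = χ x := fun x hx => by
    split_ifs with h
    · rw [b2 x (.inl ⟨h, hx⟩), if_pos h]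
    · rfl
  have ab : ∀ x ∈ X, x ∉ a → x ∈ b := fun x hx => (e ▸ hx).resolve_left
  have half : ∀ x ∈ X, ∀ y ∈ X, y ∉ a → J.Adj x y →
      (if x ∈ a then ψ x else χ x) ≠ (if y ∈ a then ψ y else χ y) := fun x hx y hy hya h => by
    have hxb : x ∈ b := by_contra fun hxb =>
      no x (by_contra fun hxa => hxb (ab x hx hxa)) hxb y (ab y hy hya) hya h
    rw [eb x hxb, eb y (ab y hy hya)]
    exact b1 x hxb y (ab y hy hya) h
  refine ⟨fun x => if x ∈ a then ψ x else χ x, fun x hx y hy h => ?_, fun x hx => ?_,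
    fun x hx hp hq => ?_⟩
  · by_cases hya : y ∈ a
    · by_cases hxa : x ∈ a
      · simp only [if_pos hxa, if_pos hya]
        exact a1 x hxa y hya h
      · exact (half y hy x hx hxa h.symm).symm
    · exact half x hx y hy hya h
  · dsimp only
    split_ifs with h
    · exact a2 x ⟨hx, h⟩
    · rw [b2 x (.inr ⟨hx, h⟩), if_neg h]
  · dsimp only at hq
    split_ifs at hq with h
    · exact a3 x h (fun h' => hp h'.1) (.inl hq)
    · exact b3 x (ab x hx h) (by rintro (h' | h'); exacts [h h'.1, hp h'.1]) ⟨hq, hx, h⟩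

theorem idx {s : ℕ} {A : Set U} (h : A.ncard < s) : ∃ g : U → Fin s, InjOn g A := by
  have : Nonempty (Fin s) := ⟨⟨_, h⟩⟩
  obtain ⟨g, -, hg⟩ := (toFinite A).exists_injOn_of_encard_le (t := (univ : Set (Fin s))) (by
    rw [← (toFinite A).cast_ncard_eq, encard_univ, ENat.card_eq_coe_fintype_card, Fintype.card_fin]
    exact_mod_cast h.le)
  exact ⟨g, hg⟩

/-- A part of `J` is a blow-up of a part of `G` with small fibres, complete to the small set `Z`. -/
structure Rep (J : SimpleGraph U) (s : ℕ) {V : Type} (G : SimpleGraph V) (ρ : U → V → Prop)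
    (Z : Set U) : Prop where
  fn : ∀ x v w, ρ x v → ρ x w → v = w
  fib : ∀ v, {x | ρ x v}.ncard < s
  adj : ∀ x y v w, ρ x v → ρ y w → v ≠ w → (J.Adj x y ↔ G.Adj v w)
  z : Z.ncard < s
  cpl : ∀ x v, ρ x v → ∀ z ∈ Z, J.Adj x z

theorem Rep.sub {s : ℕ} {V : Type} {G : SimpleGraph V} {ρ : U → V → Prop} {Z Z' : Set U}
    (h : Rep J s G ρ Z) (a : Set V) (p : V → Prop) (z : Z'.ncard < s)
    (cpl : ∀ x v, v ∈ a → p v → ρ x v → ∀ z ∈ Z', J.Adj x z) :
    Rep J s (G.induce a) (fun x v => p v ∧ ρ x v) Z' :=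
  ⟨fun x v w h1 h2 => Subtype.ext (h.fn x v w h1.2 h2.2),
    fun v => (ncard_le_ncard fun _ hx => hx.2).trans_lt (h.fib v),
    fun x y v w h1 h2 h3 => h.adj x y v w h1.2 h2.2 fun e => h3 (Subtype.ext e), z,
    fun x v h1 => cpl x v v.2 h1.1 h1.2⟩

theorem main {C : GClass} {f : ℕ → ℕ} {k s : ℕ}
    (hf : ∀ (V : Type) (G : SimpleGraph V), Finite V → C V G → ∀ (s : Set V) (m : ℕ),
      (G.induce s).CliqueFree (m + 1) → (G.induce s).Colorable (f m))
    (kf : ∀ A B : Set U, s ≤ A.ncard → s ≤ B.ncard → ¬ ∀ x ∈ A, ∀ y ∈ B, J.Adj x y)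
    {V : Type} {G : SimpleGraph V} (h : Cl C k V G) : ∀ ρ Z, Rep J s G ρ Z →
      Ext J (Fin (2 * (k * s + s) ^ 2 + 1) × (Fin (f (2 * s)) × Fin s ⊕ Fin s)) (k * s + s)
        ({x | ∃ v, ρ x v} ∪ Z) := by
  classical
  induction h with
  | base V G h1 h2 =>
    intro ρ Z r
    choose σ hσ using fun v : {v | ∃ x, ρ x v} => v.2
    have inj : Function.Injective σ := fun v w e => Subtype.ext (r.fn _ _ _ (hσ v) (e ▸ hσ w))
    obtain ⟨col⟩ := hf V G h1 h2 {v | ∃ x, ρ x v} (2 * s) fun c hc => by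
      obtain ⟨d, hd, e⟩ := Finset.exists_subset_card_eq (s := c) (n := s) (by
        rw [hc.card_eq]; omega)
      refine kf (σ '' d) (σ '' (c \ d : Finset _)) ?_ ?_ ?_
      · rw [ncard_image_of_injective _ inj, ncard_coe_finset, e]
      · rw [ncard_image_of_injective _ inj, ncard_coe_finset, Finset.card_sdiff_of_subset hd, e,
          hc.card_eq]
        omega
      · rintro _ ⟨v, hv, rfl⟩ _ ⟨w, hw, rfl⟩
        obtain ⟨w1, w2⟩ := Finset.mem_sdiff.1 hw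
        have ne : v ≠ w := fun e => w2 (e ▸ hv)
        exact (r.adj _ _ _ _ (hσ v) (hσ w) fun e => ne (Subtype.ext e)).2 (hc.1 (hd hv) w1 ne)
    choose g hg using fun v => idx (r.fib v)
    obtain ⟨g', hg'⟩ := idx r.z
    refine ext_base (Nat.add_pos_right _ (Nat.zero_lt_of_lt r.z)) (fun x => if h : ∃ v, ρ x v then
      .inl (col ⟨h.choose, x, h.choose_spec⟩, g h.choose x) else .inr (g' x))
      fun x hx y hy h e => ?_
    split_ifs at e with a b b
    · obtain ⟨e1, e2⟩ := Prod.ext_iff.1 (Sum.inl_injective e)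
      by_cases hv : a.choose = b.choose
      · exact h.ne (hg b.choose (hv ▸ a.choose_spec) b.choose_spec
          ((congrArg (g · x) hv).symm.trans e2))
      · exact col.valid (v := ⟨_, _, a.choose_spec⟩) (w := ⟨_, _, b.choose_spec⟩)
          ((r.adj _ _ _ _ a.choose_spec b.choose_spec hv).1 h) e1
    · exact h.ne (hg' (hx.resolve_left a) (hy.resolve_left b) (Sum.inr_injective e))
  | iso V W G H _ e ih =>
    intro ρ Z r
    obtain ⟨e⟩ := e
    have := ih (fun x v => ρ x (e v)) Z ⟨fun x v w h1 h2 => e.injective (r.fn x _ _ h1 h2),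
      fun v => r.fib _, fun x y v w h1 h2 h3 =>
        (r.adj x y _ _ h1 h2 (e.injective.ne h3)).trans e.map_adj_iff, r.z, fun x v => r.cpl x _⟩
    rwa [show {x | ∃ v, ρ x (e v)} = {x | ∃ w, ρ x w} from
      Set.ext fun x => (e.surjective.exists (p := ρ x)).symm] at this
  | subst V G m v hv hm _ _ ih1 ih2 =>
    intro ρ Z r
    rcases lt_or_ge {x | ∃ u ∈ m, ρ x u}.ncard s with hs | hs
    · have only : ∀ w : (insert v mᶜ : Set V), w.1 ∈ m → w.1 = v := fun w hw =>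
        w.2.resolve_right fun h => h hw
      have := ih1 (fun x w => (w.1 ∉ m ∧ ρ x w) ∨ (w.1 ∈ m ∧ ∃ u ∈ m, ρ x u)) Z ⟨?_, fun w => ?_,
        ?_, r.z, ?_⟩
      · rwa [show {x | ∃ w : (insert v mᶜ : Set V), (w.1 ∉ m ∧ ρ x w) ∨ (w.1 ∈ m ∧ ∃ u ∈ m, ρ x u)} =
          {x | ∃ w, ρ x w} from Set.ext fun x => ⟨?_, fun ⟨w, hw⟩ => ?_⟩] at this
        · rintro ⟨w, h | ⟨-, u, -, h⟩⟩
          exacts [⟨_, h.2⟩, ⟨_, h⟩]
        · by_cases h : w ∈ m
          exacts [⟨⟨v, .inl rfl⟩, .inr ⟨hv, w, h, hw⟩⟩, ⟨⟨w, .inr h⟩, .inl ⟨h, hw⟩⟩]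
      · rintro x w w' (h | ⟨h, u, hu, h'⟩) (g | ⟨g, u', hu', g'⟩)
        · exact Subtype.ext (r.fn x _ _ h.2 g.2)
        · exact (h.1 (r.fn x _ _ h.2 g' ▸ hu')).elim
        · exact (g.1 (r.fn x _ _ g.2 h' ▸ hu)).elim
        · exact Subtype.ext ((only w h).trans (only w' g).symm)
      · by_cases h : w.1 ∈ m
        · simpa [h] using hs
        · simpa [h] using r.fib w
      · rintro x y w w' (h | ⟨h, u, hu, h'⟩) (g | ⟨g, u', hu', g'⟩) ne
        · exact r.adj x y _ _ h.2 g.2 fun e => ne (Subtype.ext e)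
        · rw [r.adj x y _ _ h.2 g' fun e => h.1 (e ▸ hu'), hm _ h.1 _ hu']
          exact (hm _ h.1 _ g).symm
        · rw [r.adj x y _ _ h' g.2 fun e => g.1 (e ▸ hu), G.adj_comm, hm _ g.1 _ hu]
          exact ((G.adj_comm _ _).trans (hm _ g.1 _ h)).symm
        · exact (ne (Subtype.ext ((only w h).trans (only w' g).symm))).elim
      · rintro x w (h | ⟨-, u, -, h⟩)
        exacts [r.cpl x _ h.2, r.cpl x _ h]
    · have cp : ∀ x u, u ∈ m → ρ x u → ∀ y ∈ {y | ∃ w ∉ m, ρ y w ∧ G.Adj w v} ∪ Z, J.Adj x y := by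
        rintro x u hu hx y (⟨w, w1, w2, w3⟩ | hy)
        · exact ((r.adj y x w u w2 hx fun e => w1 (e ▸ hu)).2 ((hm w w1 u hu).2 w3)).symm
        · exact r.cpl x u hx y hy
      have sm : ({y | ∃ w ∉ m, ρ y w ∧ G.Adj w v} ∪ Z).ncard < s :=
        not_le.1 fun h => kf _ _ hs h fun x ⟨u, hu, hx⟩ => cp x u hu hx
      refine ext_glue (ih1 _ _ (r.sub _ (· ∉ m) r.z fun x w _ _ => r.cpl x w))
        (ih2 _ _ (r.sub m (fun _ => True) sm fun x u hu _ => cp x u hu)) (Set.ext fun x => ⟨?_, ?_⟩)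
        ((ncard_le_ncard ?_).trans (sm.le.trans (Nat.le_add_left _ _))) ?_
      · rintro (⟨w, hw⟩ | hx)
        · by_cases h : w ∈ m
          exacts [.inr (.inl ⟨⟨w, h⟩, trivial, hw⟩), .inl (.inl ⟨⟨w, .inr h⟩, h, hw⟩)]
        · exact .inl (.inr hx)
      · rintro ((⟨w, hw⟩ | hx) | ⟨w, hw⟩ | ⟨w, hw⟩ | hx)
        exacts [.inl ⟨_, hw.2⟩, .inr hx, .inl ⟨_, hw.2⟩, .inl ⟨_, hw.2.1⟩, .inr hx]
      · rintro x ⟨⟨w, hw⟩ | hx, ⟨u, hu⟩ | hy⟩
        exacts [(hw.1 (r.fn x _ _ hw.2 hu.2 ▸ u.2)).elim, hy, .inr hx, hy]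
      · rintro x (⟨w, hw⟩ | hx) hx' y (⟨u, hu⟩ | ⟨u, hu⟩ | hy) hy' h
        · exact hx' (.inr (.inl ⟨w, hw.1, hw.2, (hm _ hw.1 _ u.2).1
            ((r.adj x y _ _ hw.2 hu.2 fun e => hw.1 (e ▸ u.2)).1 h)⟩))
        · exact hy' (.inl ⟨⟨u, .inr hu.1⟩, hu.1, hu.2.1⟩)
        · exact hy' (.inr hy)
        all_goals exact hx' (.inr (.inr hx))
  | glue V G a b e hk no ca _ ih1 ih2 =>
    intro ρ Z r
    have := ca.finite
    have fin : (a ∩ b).Finite := (toFinite a).subset inter_subset_left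
    refine ext_glue (ih1 _ _ (r.sub a (fun _ => True) r.z fun x w _ _ => r.cpl x w))
      (ih2 _ _ (r.sub b (fun _ => True) r.z fun x w _ _ => r.cpl x w)) (Set.ext fun x => ⟨?_, ?_⟩)
      ((ncard_le_ncard (t := (⋃ v ∈ fin.toFinset, {x | ρ x v}) ∪ Z) ?_).trans
        ((ncard_union_le _ _).trans (add_le_add ?_ r.z.le))) ?_
    · rintro (⟨w, hw⟩ | hx)
      · rcases e.ge (mem_univ w) with h | h
        exacts [.inl (.inl ⟨⟨w, h⟩, trivial, hw⟩), .inr (.inl ⟨⟨w, h⟩, trivial, hw⟩)]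
      · exact .inl (.inr hx)
    · rintro ((⟨w, hw⟩ | hx) | ⟨w, hw⟩ | hx)
      exacts [.inl ⟨_, hw.2⟩, .inr hx, .inl ⟨_, hw.2⟩, .inr hx]
    · rintro x ⟨⟨w, hw⟩ | hx, ⟨u, hu⟩ | hy⟩
      · exact .inl (mem_iUnion₂.2 ⟨w, fin.mem_toFinset.2 ⟨w.2, r.fn x _ _ hw.2 hu.2 ▸ u.2⟩, hw.2⟩)
      exacts [.inr hy, .inr hx, .inr hy]
    · refine (Finset.set_ncard_biUnion_le _ _).trans
        ((Finset.sum_le_card_nsmul _ _ s fun v _ => (r.fib v).le).trans ?_)
      rw [← ncard_eq_toFinset_card _ fin]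
      exact Nat.mul_le_mul_right s hk
    · rintro x (⟨w, hw⟩ | hx) hx' y (⟨u, hu⟩ | hy) hy' h
      · have wb : w.1 ∉ b := fun g => hx' (.inl ⟨⟨w, g⟩, trivial, hw.2⟩)
        exact no _ wb _ (fun g => hy' (.inl ⟨⟨u, g⟩, trivial, hu.2⟩))
          ((r.adj x y _ _ hw.2 hu.2 fun g => wb (g ▸ u.2)).1 h)
      · exact hy' (.inr hy)
      all_goals exact hx' (.inr hx)

theorem biclique {n : ℕ} {F : SimpleGraph (Fin n)} (hF : F.Colorable 2) {A B : Set U}
    (hA : n ≤ A.ncard) (hB : n ≤ B.ncard) (h : ∀ x ∈ A, ∀ y ∈ B, J.Adj x y) : F ⊑ J := by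
  have emb : ∀ {A : Set U}, n ≤ A.ncard → ∃ g : Fin n → U, Function.Injective g ∧ ∀ i, g i ∈ A :=
    fun {A} hA => by
      have := Fintype.ofFinite A
      obtain ⟨g⟩ := Function.Embedding.nonempty_of_card_le (α := Fin n) (β := A) (by
        rwa [Fintype.card_fin, ← Nat.card_eq_fintype_card])
      exact ⟨fun i => g i, Subtype.val_injective.comp g.injective, fun i => (g i).2⟩
  obtain ⟨p, p1, p2⟩ := emb hA
  obtain ⟨q, q1, q2⟩ := emb hB
  obtain ⟨c⟩ := hF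
  refine ⟨⟨⟨fun i => if c i = 0 then p i else q i, fun {i j} hij => ?_⟩, fun i j e => ?_⟩⟩
  · have := c.valid hij
    split_ifs with a b b
    · exact (this (a.trans b.symm)).elim
    · exact h _ (p2 i) _ (q2 j)
    · exact (h _ (p2 j) _ (q2 i)).symm
    · omega
  · change (if c i = 0 then p i else q i) = if c j = 0 then p j else q j at e
    split_ifs at e
    exacts [p1 e, ((h _ (p2 i) _ (q2 j)).ne e).elim, ((h _ (p2 j) _ (q2 i)).ne e.symm).elim, q1 e]

theorem pos {C : GClass} (hC : ChiBounded C) (k : ℕ) {n : ℕ} {F : SimpleGraph (Fin n)}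
    (hF : F.Colorable 2) : ∃ c, ∀ (U W : Type) (J : SimpleGraph U) (H : SimpleGraph W),
      Cl C k W H → Nonempty (J ↪g H) → F.Free J → J.Colorable c := by
  obtain ⟨f, hf⟩ := hC
  refine ⟨?_, fun U W J H hH ⟨e⟩ hJ => ?_⟩
  swap
  · have := hH.finite
    have : Finite U := .of_injective e e.injective
    obtain ⟨ψ, hψ, -⟩ := main (J := J) (s := n + 2) hf
      (fun A B hA hB h => hJ (biclique hF (by omega) (by omega) h)) hH (fun x w => e x = w) ∅
      ⟨fun _ _ _ h1 h2 => h1.symm.trans h2, fun w => lt_of_le_of_lt ((ncard_le_one (toFinite _)).2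
        fun x hx y hy => e.injective (hx.trans hy.symm)) (by omega),
        by rintro x y _ _ rfl rfl -; exact e.map_adj_iff.symm, by simp, by simp⟩
      ∅ (fun _ => (0, .inr 0)) ∅ (empty_subset _) (by simp) (by simp)
    exact (Coloring.mk ψ fun {x y} => hψ x (.inl ⟨_, rfl⟩) y (.inl ⟨_, rfl⟩)).colorable

end Pool.Agent.MP_da1f04_co
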