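import Pool.Agent.MP_da1f04_co.F91Main
import Pool.Agent.MP_da1f04_co.Pos

/-!
Stable sets of linear size in the members of the closure that avoid finitely many subgraphs.
-/

set_option autoImplicit false

namespace Pool.Agent.MP_da1f04_co.F91

open Function Set

theorem card_le_of_colorable {V : Type} [Finite V] {G : SimpleGraph V} {c : ℕ}
    (h : G.Colorable c) : Nat.card V ≤ c * G.indepNum := by
  classical
  have := Fintype.ofFinite V
  obtain ⟨col⟩ := h
  rw [Nat.card_eq_fintype_card, ← Finset.card_univ,
    Finset.card_eq_sum_card_fiberwise (f := col) (t := Finset.univ) (fun _ _ => by simp)]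
  calc _ ≤ ∑ _i : Fin c, G.indepNum := by
        refine Finset.sum_le_sum fun i _ => SimpleGraph.IsIndepSet.card_le_indepNum ?_
        intro x hx y hy _ hadj
        have hx' : col x = i := by simpa using hx
        have hy' : col y = i := by simpa using hy
        exact col.valid hadj (hx'.trans hy'.symm)
    _ = _ := by simp

/-- If no member of the finite family is bipartite, the members of the closure that contain none
of them have no stable set of linear size. -/
theorem free_stable {ι : Type} [Finite ι] (n : ι → ℕ) (F : ∀ i, SimpleGraph (Fin (n i)))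
    (hF : ∀ i, ¬ (F i).Colorable 2) (c : ℕ) :
    ∃ (V : Type) (G : SimpleGraph V), Cl Tiny 2 V G ∧ Nonempty V ∧ (∀ i, (F i).Free G) ∧
      c * G.indepNum ≤ Nat.card V := by
  classical
  have := Fintype.ofFinite ι
  have hw : ∀ i, ∃ (u : Fin (n i)) (w : (F i).Walk u u), Odd w.length := by
    intro i
    by_contra h
    push Not at h
    exact hF i (SimpleGraph.two_colorable_iff_forall_loop_even.2 fun u w =>
      Nat.not_odd_iff_even.1 (h u w))
  choose u w hw using hw
  obtain ⟨V, G, h1, h2, h3, h4⟩ := odd_stable (Finset.univ.sup fun i => (w i).length) c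
  refine ⟨V, G, h1, h2, fun i ⟨φ⟩ => ?_, h4⟩
  have := h3 _ ((w i).map φ.toHom) (by simpa using hw i)
  rw [SimpleGraph.Walk.length_map] at this
  exact absurd (Finset.le_sup (f := fun i => (w i).length) (Finset.mem_univ i)) (not_le.2 this)

end Pool.Agent.MP_da1f04_co.F91
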