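import Pool.Agent.MP_da1f04_co.F91Tree

/-!
The play lemma: for every finite graph `D` there is a member of the closure on `Λ × V` over `D`
in which two anticomplete sets meet few plays along any edge of `D`.
-/

set_option autoImplicit false

namespace Pool.Agent.MP_da1f04_co.F91

open Function Set

open Classical in
/-- Real indicator of a proposition. -/
noncomputable def ind (p : Prop) : ℝ := if p then 1 else 0

theorem ind_pos {p : Prop} (h : p) : ind p = 1 := by simp [ind, h]

theorem ind_neg {p : Prop} (h : ¬ p) : ind p = 0 := by simp [ind, h]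

theorem ind_nonneg (p : Prop) : 0 ≤ ind p := by
  by_cases h : p
  · simp [ind_pos h]
  · simp [ind_neg h]

theorem ind_le_one (p : Prop) : ind p ≤ 1 := by
  by_cases h : p
  · simp [ind_pos h]
  · simp [ind_neg h]

theorem ind_mono {p q : Prop} (h : p → q) : ind p ≤ ind q := by
  by_cases hp : p
  · simp [ind_pos hp, ind_pos (h hp)]
  · simp [ind_neg hp, ind_nonneg]

/-- No edge between `I` and `J`. -/
def Anti {W : Type} (G : SimpleGraph W) (I J : Set W) : Prop := ∀ a ∈ I, ∀ b ∈ J, ¬ G.Adj a b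

/-- The play property for the vertices of `D` in `s`. -/
def Good (P : ∀ n : ℕ, SimpleGraph (Fin n) → Prop) {V : Type} (D : SimpleGraph V) (δ : ℝ)
    (s : Set V) : Prop :=
  ∃ (Λ : Type) (_ : Fintype Λ) (G : SimpleGraph (Λ × V)), Nonempty Λ ∧ TF G ∧
    MemOn P G {x | x.2 ∈ s} ∧ (∀ a b, G.Adj a b → D.Adj a.2 b.2) ∧
    ∀ I J, Anti G I J → ∀ v ∈ s, ∀ v' ∈ s, D.Adj v v' →
      ∑ l : Λ, ind ((l, v) ∈ I ∧ (l, v') ∈ J) ≤ δ * Fintype.card Λ

/-- A rooted piece of depth `j` for the new vertex `w`. -/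
def Piece (P : ∀ n : ℕ, SimpleGraph (Fin n) → Prop) {V : Type} [Fintype V] (D : SimpleGraph V)
    (δ : ℝ) (s : Set V) (w : V) (j : ℕ) : Prop :=
  ∃ (Λ : Type) (_ : Fintype Λ) (a : ℕ) (H : SimpleGraph (Option (Λ × V))), 1 ≤ a ∧ TF H ∧
    Fintype.card Λ = j * a ∧ (∀ ρ : Prop, MemOn P H (oset ρ {z | z.2 ∈ insert w s})) ∧
    (∀ z, H.Adj none (some z) ↔ z.2 = w) ∧
    (∀ z z', H.Adj (some z) (some z') → D.Adj z.2 z'.2) ∧
    (∀ I J, Anti (H.comap some) I J → ∀ v ∈ s, ∀ v' ∈ s, D.Adj v v' →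
      ∑ l : Λ, ind ((l, v) ∈ I ∧ (l, v') ∈ J) ≤ δ * Fintype.card Λ) ∧
    (∀ I J, Anti (H.comap some) I J → ∀ v ∈ s, D.Adj w v →
      ∑ l : Λ, ind ((l, w) ∈ I ∧ (l, v) ∈ J) ≤ Fintype.card V * a)

/-- Projection of the blown-up level to the level of the tree. -/
def proj {Q A Λ V : Type} [DecidableEq V] (w : V) :
    Option (((Q × V) × (A ⊕ Λ)) × V) → T (Q × V) (Λ × V)
  | none => T.root
  | some ((x, Sum.inl _), v) => if v = w then T.b0 else T.cp (x.1, v)
  | some ((x, Sum.inr l), v) => T.ch x (l, v)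

variable {P : ∀ n : ℕ, SimpleGraph (Fin n) → Prop}

theorem piece_zero (hP : Closed P) {V : Type} [Fintype V] (D : SimpleGraph V) (δ : ℝ)
    (s : Set V) (w : V) : Piece P D δ s w 0 := by
  refine ⟨Empty, inferInstance, 1, ⊥, le_rfl, fun _ _ _ h => h.elim, by simp, ?_, ?_, ?_, ?_, ?_⟩
  · intro ρ
    refine memOn_small hP _ (toFinite _) ?_
    have : oset ρ {z : Empty × V | z.2 ∈ insert w s} ⊆ {none, none} := by
      intro o _
      cases o with
      | none => simp
      | some z => exact z.1.elim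
    exact (ncard_le_ncard this (toFinite _)).trans (pair_le _ _)
  · intro z
    exact z.1.elim
  · intro z
    exact z.1.elim
  · intros
    simp
  · intros
    simp

theorem piece_succ (hP : Closed P) {V : Type} [Fintype V] (D : SimpleGraph V) (δ : ℝ)
    (s : Set V) (w : V) (hw : w ∉ s) (hG : Good P D δ s) (j : ℕ) (h : Piece P D δ s w j) :
    Piece P D δ s w (j + 1) := by
  classical
  obtain ⟨Q, _, G, ⟨q₀⟩, gT, gM, gD, gB⟩ := hG
  obtain ⟨Λ, _, a, H, ha, hT, hc, hM, hR, hD, hO, hN⟩ := h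
  let M : Q × V → Prop := fun x => x.2 ∈ s ∧ D.Adj w x.2
  have ne : ∀ v ∈ s, v ≠ w := fun v hv e => hw (e ▸ hv)
  have a₀ : Fin a := ⟨0, ha⟩
  have hK : 1 ≤ Fintype.card (Q × V) := Fintype.card_pos_iff.2 ⟨(q₀, w)⟩
  refine ⟨(Q × V) × (Fin a ⊕ Λ), inferInstance, Fintype.card (Q × V) * a,
    (ugraph G M H).comap (proj w), Nat.mul_pos hK ha, (tf_ugraph M gT hT).comap _,
    ?_, ?_, ?_, ?_, ?_, ?_⟩
  · rw [Fintype.card_prod, Fintype.card_sum, Fintype.card_fin, hc]
    ring
  · intro ρ
    refine (attach hP G M H {x | x.2 ∈ s} {z | z.2 ∈ insert w s} gM (fun x hx => hx.1) hM ρ).blow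
      hP (proj w) (toFinite _) ?_ (fun _ _ _ _ => Iff.rfl)
    ext t
    constructor
    · rintro ⟨o, ho, rfl⟩
      rcases o with _ | ⟨⟨x, α | l⟩, v⟩
      · exact ho
      · by_cases hv : v = w
        · simp [proj, hv, tset, tpred]
        · have : v ∈ s := (mem_insert_iff.1 ho).resolve_left hv
          simp [proj, hv, tset, tpred, this]
      · exact ho
    · intro ht
      rcases t with _ | _ | ⟨q, v⟩ | ⟨x, l, v⟩
      · exact ⟨none, ht, rfl⟩
      · exact ⟨some (((q₀, w), Sum.inl a₀), w), mem_insert _ _, by simp [proj]⟩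
      · exact ⟨some (((q, v), Sum.inl a₀), v), mem_insert_of_mem _ ht, by simp [proj, ne v ht]⟩
      · exact ⟨some ((x, Sum.inr l), v), ht, rfl⟩
  · rintro ⟨⟨x, α | l⟩, v⟩
    · by_cases hv : v = w <;> simp [proj, hv, ugraph, uadj]
    · exact hR (l, v)
  · rintro ⟨⟨x, α | l⟩, v⟩ ⟨⟨x', α' | l'⟩, v'⟩ hadj
    · by_cases hv : v = w <;> by_cases hv' : v' = w <;>
        simp only [SimpleGraph.comap_adj, proj, hv, hv', if_true, if_false, ugraph, uadj] at hadj
      exact gD _ _ hadj
    · by_cases hv : v = w <;>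
        simp only [SimpleGraph.comap_adj, proj, hv, if_true, if_false, ugraph, uadj] at hadj
      have e : v' = w := (hR (l', v')).1 hadj.2.2
      exact e ▸ hadj.2.1.2.symm
    · by_cases hv : v' = w <;>
        simp only [SimpleGraph.comap_adj, proj, hv, if_true, if_false, ugraph, uadj] at hadj
      have e : v = w := (hR (l, v)).1 hadj.2.2
      exact e ▸ hadj.2.1.2
    · exact hD (l, v) (l', v') hadj.2
  · intro I J hIJ v hv v' hv' hvv
    have h1 : ∀ (y : V) (α : Fin a),
        ∑ q : Q, ind ((((q, y), Sum.inl α), v) ∈ I ∧ (((q, y), Sum.inl α), v') ∈ J) ≤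
          δ * Fintype.card Q := by
      intro y α
      have := gB {x | x.2 ≠ w ∧ (((x.1, y), Sum.inl α), x.2) ∈ I}
        {x | x.2 ≠ w ∧ (((x.1, y), Sum.inl α), x.2) ∈ J} (by
          rintro ⟨q, u⟩ ⟨hu, hI⟩ ⟨q', u'⟩ ⟨hu', hJ⟩ hadj
          refine hIJ _ hI _ hJ ?_
          simp only at hu hu'
          simpa only [SimpleGraph.comap_adj, proj, hu, hu', if_false, ugraph, uadj] using hadj)
        v hv v' hv' hvv
      refine le_trans (Finset.sum_le_sum fun q _ => ind_mono ?_) this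
      rintro ⟨h1, h2⟩
      exact ⟨⟨ne v hv, h1⟩, ⟨ne v' hv', h2⟩⟩
    have h2 : ∀ x : Q × V,
        ∑ l : Λ, ind (((x, Sum.inr l), v) ∈ I ∧ ((x, Sum.inr l), v') ∈ J) ≤
          δ * Fintype.card Λ := by
      intro x
      exact hO {z | ((x, Sum.inr z.1), z.2) ∈ I} {z | ((x, Sum.inr z.1), z.2) ∈ J}
        (fun z hI z' hJ hadj => hIJ _ hI _ hJ ⟨rfl, hadj⟩) v hv v' hv' hvv
    rw [Fintype.sum_prod_type]
    simp only [Fintype.sum_sum_type, Finset.sum_add_distrib]
    have h3 : ∑ x : Q × V, ∑ α : Fin a, ind (((x, Sum.inl α), v) ∈ I ∧ ((x, Sum.inl α), v') ∈ J) ≤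
        Fintype.card V * (a * (δ * Fintype.card Q)) := by
      rw [Fintype.sum_prod_type_right]
      calc _ ≤ ∑ _y : V, (a * (δ * Fintype.card Q) : ℝ) := by
            refine Finset.sum_le_sum fun y _ => ?_
            rw [Finset.sum_comm]
            calc _ ≤ ∑ _α : Fin a, (δ * Fintype.card Q : ℝ) := Finset.sum_le_sum fun α _ => h1 y α
              _ = _ := by simp
        _ = _ := by simp
    have h4 : ∑ x : Q × V, ∑ l : Λ, ind (((x, Sum.inr l), v) ∈ I ∧ ((x, Sum.inr l), v') ∈ J) ≤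
        Fintype.card Q * Fintype.card V * (δ * Fintype.card Λ) := by
      calc _ ≤ ∑ _x : Q × V, (δ * Fintype.card Λ : ℝ) := Finset.sum_le_sum fun x _ => h2 x
        _ = _ := by simp
    refine (add_le_add h3 h4).trans (le_of_eq ?_)
    simp only [Fintype.card_prod, Fintype.card_sum, Fintype.card_fin]
    push_cast
    ring
  · intro I J hIJ v hv hwv
    let Jb : Q → Prop := fun q => ∃ (y : V) (α : Fin a), (((q, y), Sum.inl α), v) ∈ J
    have h1 : ∀ (q : Q) (y : V),
        ∑ α : Fin a, ind ((((q, y), Sum.inl α), w) ∈ I ∧ (((q, y), Sum.inl α), v) ∈ J) ≤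
          a * ind (Jb q) := by
      intro q y
      calc _ ≤ ∑ _α : Fin a, ind (Jb q) :=
            Finset.sum_le_sum fun α _ => ind_mono fun h => ⟨y, α, h.2⟩
        _ = _ := by simp
    have h2 : ∀ (q : Q) (y : V),
        ∑ l : Λ, ind ((((q, y), Sum.inr l), w) ∈ I ∧ (((q, y), Sum.inr l), v) ∈ J) ≤
          Fintype.card V * a * (1 - ind (y = v ∧ Jb q)) := by
      intro q y
      by_cases hy : y = v ∧ Jb q
      · obtain ⟨rfl, y', α, hJ⟩ := id hy
        rw [ind_pos hy, sub_self, mul_zero]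
        refine le_of_eq (Finset.sum_eq_zero fun l _ => ind_neg fun h => hIJ _ h.1 _ hJ ?_)
        simp only [SimpleGraph.comap_adj, proj, ne y hv, if_false, ugraph, uadj, true_and]
        exact ⟨⟨hv, hwv⟩, (hR (l, w)).2 rfl⟩
      · rw [ind_neg hy, sub_zero, mul_one]
        exact hN {z | (((q, y), Sum.inr z.1), z.2) ∈ I} {z | (((q, y), Sum.inr z.1), z.2) ∈ J}
          (fun z hI z' hJ hadj => hIJ _ hI _ hJ ⟨rfl, hadj⟩) v hv hwv
    have h3 : ∀ q : Q, ∑ y : V, ind (y = v ∧ Jb q) = ind (Jb q) := by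
      intro q
      rw [Finset.sum_eq_single v]
      · simp
      · intro y _ hy
        exact ind_neg fun h => hy h.1
      · simp
    rw [Fintype.sum_prod_type, Fintype.sum_prod_type]
    simp only [Fintype.sum_sum_type]
    calc _ ≤ ∑ _q : Q, (Fintype.card V * (Fintype.card V * a) : ℝ) := by
          refine Finset.sum_le_sum fun q _ => ?_
          refine (Finset.sum_le_sum fun y _ => add_le_add (h1 q y) (h2 q y)).trans (le_of_eq ?_)
          rw [Finset.sum_add_distrib, ← Finset.mul_sum, ← Finset.mul_sum, Finset.sum_sub_distrib, h3]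
          simp only [Finset.sum_const, Finset.card_univ, nsmul_eq_mul]
          ring
      _ = _ := by
          simp only [Finset.sum_const, Finset.card_univ, nsmul_eq_mul, Fintype.card_prod]
          push_cast
          ring

theorem good_insert (hP : Closed P) {V : Type} [Fintype V] (D : SimpleGraph V) {δ : ℝ}
    (hδ : 0 < δ) (s : Set V) (w : V) (hw : w ∉ s) (hG : Good P D δ s) :
    Good P D δ (insert w s) := by
  have all : ∀ j, Piece P D δ s w j := by
    intro j
    induction j with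
    | zero => exact piece_zero hP D δ s w
    | succ j ih => exact piece_succ hP D δ s w hw hG j ih
  obtain ⟨j, hj⟩ := exists_nat_ge ((Fintype.card V : ℝ) / δ)
  obtain ⟨Λ, _, a, H, ha, hT, hc, hM, -, hD, hO, hN⟩ := all (j + 1)
  have hb : (Fintype.card V : ℝ) * a ≤ δ * Fintype.card Λ := by
    rw [hc]
    rw [div_le_iff₀ hδ] at hj
    have : (0 : ℝ) ≤ a := Nat.cast_nonneg a
    push_cast
    nlinarith [mul_nonneg hδ.le this]
  refine ⟨Λ, inferInstance, H.comap some, ?_, hT.comap _, ?_, hD, ?_⟩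
  · refine Fintype.card_pos_iff.1 ?_
    rw [hc]
    exact Nat.mul_pos (Nat.succ_pos j) ha
  · refine (hM False).blow hP some (toFinite _) ?_ (fun _ _ _ _ => Iff.rfl)
    ext o
    cases o <;> simp [oset, opred]
  · intro I J hIJ v hv v' hv' hvv
    rcases mem_insert_iff.1 hv with rfl | hv₁
    · rcases mem_insert_iff.1 hv' with rfl | hv₂
      · exact absurd hvv (D.irrefl)
      · exact (hN I J hIJ v' hv₂ hvv).trans hb
    · rcases mem_insert_iff.1 hv' with rfl | hv₂
      · refine le_trans (le_of_eq ?_)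
          ((hN J I (fun a ha b hb h => hIJ b hb a ha h.symm) v hv₁ hvv.symm).trans hb)
        simp only [and_comm]
      · exact hO I J hIJ v hv₁ v' hv₂ hvv

theorem good_univ (hP : Closed P) {V : Type} [Fintype V] (D : SimpleGraph V) {δ : ℝ}
    (hδ : 0 < δ) : Good P D δ univ := by
  classical
  have key : ∀ s : Finset V, Good P D δ (s : Set V) := by
    intro s
    induction s using Finset.induction_on with
    | empty =>
      refine ⟨Unit, inferInstance, ⊥, ⟨()⟩, fun _ _ _ h => h.elim,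
        memOn_small hP _ (toFinite _) (by simp), ?_, ?_⟩
      · simp
      · simp
    | insert w s hw ih =>
      rw [Finset.coe_insert]
      exact good_insert hP D hδ _ w (by simpa using hw) ih
  simpa using key Finset.univ

end Pool.Agent.MP_da1f04_co.F91
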