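import Pool.Agent.MP_da1f04_co.Hom
import Pool.Agent.MP_da1f04_co.F91Play
import Pool.Agent.MP_da1f04_co.F91Cube

/-!
Every finite graph is a homomorphic image of a triangle-free member of the closure with almost
the same independence ratio.
-/

set_option autoImplicit false

namespace Pool.Agent.MP_da1f04_co.F91

open Function Set

theorem closed_cl : Closed fun n G => Cl Tiny 2 (Fin n) G where
  base n G h := tiny (by simpa using h) G
  glue a b n₀ G₁ G₂ H f₁ f₂ h1 h2 i1 i2 e1 e2 cov hk no :=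
    h1.glue' h2 ⟨⟨f₁, i1⟩, fun {i j} => e1 i j⟩ ⟨⟨f₂, i2⟩, fun {i j} => e2 i j⟩ cov hk
      fun x hx y hy => no x y hx hy
  sub a b n₀ G₁ G₂ H v p q h1 h2 hq hp hv hinj hadj hq' := by
    choose σ hσ using hp
    have hσi : Injective σ := fun i j h => by rw [← hσ i, ← hσ j, h]
    refine Cl.subst _ H (range q) (σ v) ((hv _).1 (hσ v)) ?_
      (h1.emb ⟨⟨σ, hσi⟩, fun {i j} => ?_⟩ ?_) (h2.emb ⟨⟨q, hq⟩, fun {i j} => hq' i j⟩ rfl)
    · intro x hx y hy
      have hx' : p x ≠ v := fun h => hx ((hv x).1 h)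
      rw [hadj x y (Or.inl hx'), hadj x (σ v) (Or.inl hx'), (hv y).2 hy, hσ]
    · show H.Adj (σ i) (σ j) ↔ G₁.Adj i j
      by_cases h : i ≠ v ∨ j ≠ v
      · rw [hadj _ _ (by simpa only [hσ] using h), hσ, hσ]
      · push Not at h
        simp [h.1, h.2]
    · ext x
      show x ∈ range σ ↔ x ∈ insert (σ v) (range q)ᶜ
      constructor
      · rintro ⟨i, rfl⟩
        by_cases h : i = v
        · exact Or.inl (h ▸ rfl)
        · exact Or.inr fun h' => h ((hσ i).symm.trans ((hv _).2 h'))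
      · rintro (rfl | h)
        · exact ⟨v, rfl⟩
        · have hx : p x ≠ v := fun h' => h ((hv x).1 h')
          exact ⟨p x, hinj _ _ (hσ _) (by rwa [hσ])⟩

theorem cl_of_memOn {W : Type} {G : SimpleGraph W}
    (h : MemOn (fun n G => Cl Tiny 2 (Fin n) G) G univ) : Cl Tiny 2 W G := by
  obtain ⟨n, f, hf, hr, hp⟩ := h
  exact Cl.iso _ _ _ _ hp ⟨⟨Equiv.ofBijective f ⟨hf, range_eq_univ.1 hr⟩, Iff.rfl⟩⟩

theorem TF.cliqueFree {W : Type} {G : SimpleGraph W} (h : TF G) : G.CliqueFree 3 := by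
  classical
  intro s hs
  obtain ⟨a, b, c, h1, h2, h3, -⟩ := SimpleGraph.is3Clique_iff.1 hs
  exact h a b c h1 h3 h2

theorem card_eq_ind {W : Type} [Fintype W] (s : Finset W) :
    (s.card : ℝ) = ∑ x : W, ind (x ∈ s) := by
  classical
  rw [← Finset.sum_filter_add_sum_filter_not Finset.univ (· ∈ s)]
  rw [Finset.sum_eq_zero (s := Finset.univ.filter fun x => ¬ x ∈ s)
    (fun x hx => ind_neg (Finset.mem_filter.1 hx).2), add_zero,
    Finset.sum_congr rfl (g := fun _ => (1 : ℝ)) fun x hx => ind_pos (Finset.mem_filter.1 hx).2]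
  simp

theorem fractional {A : Type} [Finite A] [Nonempty A] (D : SimpleGraph A) {ε : ℝ} (hε : 0 < ε) :
    ∃ (V : Type) (G : SimpleGraph V), Cl Tiny 2 V G ∧ Nonempty V ∧ G.CliqueFree 3 ∧
      Nonempty (G →g D) ∧
      (G.indepNum : ℝ) / Nat.card V ≤ (D.indepNum : ℝ) / Nat.card A + ε := by
  classical
  have := Fintype.ofFinite A
  have ht : (0 : ℝ) < Fintype.card A := by exact_mod_cast Fintype.card_pos
  set t : ℝ := (Fintype.card A : ℝ) with htd
  obtain ⟨Λ, _, G, hne, hT, hM, hD, hB⟩ :=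
    good_univ closed_cl D (δ := ε / t ^ 2) (by positivity)
  have hL : (0 : ℝ) < Fintype.card Λ := by exact_mod_cast Fintype.card_pos
  refine ⟨Λ × A, G, cl_of_memOn (by simpa using hM), inferInstance, hT.cliqueFree,
    ⟨⟨Prod.snd, fun {a b} h => hD a b h⟩⟩, ?_⟩
  obtain ⟨I, hI⟩ := G.exists_isNIndepSet_indepNum
  have hanti : Anti G (I : Set (Λ × A)) I := by
    intro a ha b hb hab
    exact hI.1 ha hb hab.ne hab
  have h1 : ∀ l : Λ, ∑ v : A, ind ((l, v) ∈ I) ≤
      D.indepNum + t * ∑ v : A, ∑ v' : A, ind (D.Adj v v' ∧ (l, v) ∈ I ∧ (l, v') ∈ I) := by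
    intro l
    have hnn : 0 ≤ ∑ v : A, ∑ v' : A, ind (D.Adj v v' ∧ (l, v) ∈ I ∧ (l, v') ∈ I) :=
      Finset.sum_nonneg fun _ _ => Finset.sum_nonneg fun _ _ => ind_nonneg _
    by_cases h : ∃ v v', D.Adj v v' ∧ (l, v) ∈ I ∧ (l, v') ∈ I
    · obtain ⟨v, v', hv⟩ := h
      have a1 : (1 : ℝ) ≤ ∑ v : A, ∑ v' : A, ind (D.Adj v v' ∧ (l, v) ∈ I ∧ (l, v') ∈ I) := by
        refine le_trans ?_ (Finset.single_le_sum
          (f := fun v => ∑ v' : A, ind (D.Adj v v' ∧ (l, v) ∈ I ∧ (l, v') ∈ I))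
          (fun _ _ => Finset.sum_nonneg fun _ _ => ind_nonneg _) (Finset.mem_univ v))
        refine le_trans ?_ (Finset.single_le_sum
          (f := fun v' => ind (D.Adj v v' ∧ (l, v) ∈ I ∧ (l, v') ∈ I))
          (fun _ _ => ind_nonneg _) (Finset.mem_univ v'))
        exact (ind_pos hv).ge
      have a2 : ∑ v : A, ind ((l, v) ∈ I) ≤ t := by
        calc _ ≤ ∑ _v : A, (1 : ℝ) := Finset.sum_le_sum fun _ _ => ind_le_one _
          _ = t := by simp [htd]
      have a3 : (0 : ℝ) ≤ D.indepNum := Nat.cast_nonneg _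
      nlinarith
    · have a1 : D.IsIndepSet ((Finset.univ.filter fun v => (l, v) ∈ I : Finset A) : Set A) := by
        intro v hv v' hv' _ hadj
        exact h ⟨v, v', hadj, by simpa using hv, by simpa using hv'⟩
      have a2 := a1.card_le_indepNum
      have a3 : ((Finset.univ.filter fun v => (l, v) ∈ I : Finset A).card : ℝ) ≤ D.indepNum := by
        exact_mod_cast a2
      rw [card_eq_ind] at a3
      simp only [Finset.mem_filter, Finset.mem_univ, true_and] at a3
      nlinarith [mul_nonneg ht.le hnn]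
  have h2 : ∀ v v' : A, ∑ l : Λ, ind (D.Adj v v' ∧ (l, v) ∈ I ∧ (l, v') ∈ I) ≤
      ε / t ^ 2 * Fintype.card Λ := by
    intro v v'
    by_cases h : D.Adj v v'
    · refine le_trans (Finset.sum_le_sum fun l _ => ind_mono fun h => h.2) ?_
      exact hB I I hanti v trivial v' trivial h
    · rw [Finset.sum_eq_zero fun l _ => ind_neg fun h' => h h'.1]
      positivity
  have h3 : ∑ l : Λ, ∑ v : A, ∑ v' : A, ind (D.Adj v v' ∧ (l, v) ∈ I ∧ (l, v') ∈ I) ≤
      ε * Fintype.card Λ := by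
    rw [Finset.sum_comm]
    calc _ ≤ ∑ _v : A, ∑ _v' : A, ε / t ^ 2 * (Fintype.card Λ : ℝ) := by
          refine Finset.sum_le_sum fun v _ => ?_
          rw [Finset.sum_comm]
          exact Finset.sum_le_sum fun v' _ => h2 v v'
      _ = _ := by
          simp only [Finset.sum_const, Finset.card_univ, nsmul_eq_mul, ← htd]
          field_simp
  have h4 : (G.indepNum : ℝ) ≤ Fintype.card Λ * D.indepNum + t * (ε * Fintype.card Λ) := by
    rw [← hI.2, card_eq_ind, Fintype.sum_prod_type]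
    refine (Finset.sum_le_sum fun l _ => h1 l).trans ?_
    rw [Finset.sum_add_distrib, ← Finset.mul_sum]
    simp only [Finset.sum_const, Finset.card_univ, nsmul_eq_mul]
    nlinarith [mul_le_mul_of_nonneg_left h3 ht.le]
  rw [Nat.card_eq_fintype_card, Nat.card_eq_fintype_card, Fintype.card_prod, Nat.cast_mul, ← htd,
    div_le_iff₀ (by positivity)]
  refine h4.trans (le_of_eq ?_)
  field_simp

theorem odd_stable (g c : ℕ) : ∃ (V : Type) (G : SimpleGraph V), Cl Tiny 2 V G ∧ Nonempty V ∧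
    (∀ (x : V) (p : G.Walk x x), Odd p.length → g < p.length) ∧ c * G.indepNum ≤ Nat.card V := by
  obtain ⟨A, _, D, hne, hodd, hc⟩ := exists_cube g (2 * (c + 1))
  obtain ⟨V, G, h1, h2, -, ⟨φ⟩, h5⟩ := fractional D (ε := 1 / (2 * (c + 1))) (by positivity)
  refine ⟨V, G, h1, h2, fun x p hp => ?_, ?_⟩
  · have := hodd (φ x) (p.map φ) (by simpa using hp)
    simpa using this
  · have := h1.finite
    have hV : (0 : ℝ) < Nat.card V := by exact_mod_cast Nat.card_pos
    have hA : (0 : ℝ) < Nat.card A := by exact_mod_cast Nat.card_pos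
    have hc' : (2 * (c + 1) : ℝ) * D.indepNum ≤ Nat.card A := by
      rw [Nat.card_eq_fintype_card]
      exact_mod_cast hc
    have h6 : (D.indepNum : ℝ) / Nat.card A ≤ 1 / (2 * (c + 1)) := by
      rw [div_le_div_iff₀ hA (by positivity)]
      linarith
    have h7 : (G.indepNum : ℝ) / Nat.card V ≤ 1 / (c + 1) := by
      refine h5.trans ((add_le_add h6 le_rfl).trans (le_of_eq ?_))
      field_simp
      ring
    rw [div_le_div_iff₀ hV (by positivity)] at h7
    have h8 : (c : ℝ) * G.indepNum ≤ Nat.card V := by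
      nlinarith [(Nat.cast_nonneg G.indepNum : (0 : ℝ) ≤ G.indepNum)]
    exact_mod_cast h8

end Pool.Agent.MP_da1f04_co.F91
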