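import Mathlib

/-!
Closure under substitution and gluing along at most two vertices: working lemmas for induced
subgraphs on vertex sets of an arbitrary type.
-/

set_option autoImplicit false

namespace Pool.Agent.MP_da1f04_co.F91

open Function Set

/-- `P` contains the graphs on at most two vertices and is closed under substitution and under
gluing along at most two vertices. -/
structure Closed (P : ∀ n : ℕ, SimpleGraph (Fin n) → Prop) : Prop where
  base : ∀ (n : ℕ) (G : SimpleGraph (Fin n)), n ≤ 2 → P n G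
  sub : ∀ (a b n₀ : ℕ) (G₁ : SimpleGraph (Fin a)) (G₂ : SimpleGraph (Fin b))
      (H : SimpleGraph (Fin n₀)) (v : Fin a) (p : Fin n₀ → Fin a) (q : Fin b → Fin n₀),
      P a G₁ → P b G₂ → Function.Injective q → Function.Surjective p →
      (∀ x, p x = v ↔ x ∈ Set.range q) →
      (∀ x y, p x = p y → p x ≠ v → x = y) →
      (∀ x y, (p x ≠ v ∨ p y ≠ v) → (H.Adj x y ↔ G₁.Adj (p x) (p y))) →
      (∀ i j, H.Adj (q i) (q j) ↔ G₂.Adj i j) →
      P n₀ H
  glue : ∀ (a b n₀ : ℕ) (G₁ : SimpleGraph (Fin a)) (G₂ : SimpleGraph (Fin b))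
      (H : SimpleGraph (Fin n₀)) (f₁ : Fin a → Fin n₀) (f₂ : Fin b → Fin n₀),
      P a G₁ → P b G₂ → Function.Injective f₁ → Function.Injective f₂ →
      (∀ i j, H.Adj (f₁ i) (f₁ j) ↔ G₁.Adj i j) →
      (∀ i j, H.Adj (f₂ i) (f₂ j) ↔ G₂.Adj i j) →
      (∀ x, x ∈ Set.range f₁ ∨ x ∈ Set.range f₂) →
      (Set.range f₁ ∩ Set.range f₂).ncard ≤ 2 →
      (∀ x y, x ∉ Set.range f₂ → y ∉ Set.range f₁ → ¬ H.Adj x y) →
      P n₀ H

/-- The subgraph of `H` induced on `S` is, after numbering, a member of `P`. -/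
def MemOn (P : ∀ n : ℕ, SimpleGraph (Fin n) → Prop) {W : Type} (H : SimpleGraph W) (S : Set W) :
    Prop :=
  ∃ (n : ℕ) (f : Fin n → W), Injective f ∧ range f = S ∧ P n (H.comap f)

variable {P : ∀ n : ℕ, SimpleGraph (Fin n) → Prop}

theorem MemOn.finite {W : Type} {H : SimpleGraph W} {S : Set W} (h : MemOn P H S) : S.Finite := by
  obtain ⟨n, f, -, rfl, -⟩ := h
  exact finite_range f

theorem MemOn.transfer {W W' : Type} {H : SimpleGraph W} {H' : SimpleGraph W'} {S : Set W}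
    (h : MemOn P H S) (g : W → W') (hg : InjOn g S)
    (ha : ∀ a ∈ S, ∀ b ∈ S, H'.Adj (g a) (g b) ↔ H.Adj a b) : MemOn P H' (g '' S) := by
  obtain ⟨n, f, hf, rfl, hp⟩ := h
  refine ⟨n, g ∘ f, ?_, range_comp g f, ?_⟩
  · intro i j hij
    exact hf (hg ⟨i, rfl⟩ ⟨j, rfl⟩ hij)
  · have : H'.comap (g ∘ f) = H.comap f := by
      ext i j
      exact ha _ ⟨i, rfl⟩ _ ⟨j, rfl⟩
    rwa [this]

theorem memOn_small (hP : Closed P) {W : Type} (H : SimpleGraph W) {S : Set W} (hS : S.Finite)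
    (h2 : S.ncard ≤ 2) : MemOn P H S := by
  obtain ⟨n, f, hf, rfl⟩ := hS.fin_param
  refine ⟨n, f, hf, rfl, hP.base n _ ?_⟩
  rw [ncard_range_of_injective hf] at h2
  simpa using h2

theorem lift_param {W : Type} {a n : ℕ} {f : Fin n → W} {fA : Fin a → W} (hA : Injective fA)
    (h : range fA ⊆ range f) : ∃ g : Fin a → Fin n, Injective g ∧ ∀ i, f (g i) = fA i := by
  choose g hg using fun i => h (mem_range_self i)
  refine ⟨g, fun i j hij => hA ?_, hg⟩
  rw [← hg i, ← hg j, hij]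

theorem MemOn.union (hP : Closed P) {W : Type} {H : SimpleGraph W} {A B : Set W}
    (hA : MemOn P H A) (hB : MemOn P H B) (h2 : (A ∩ B).ncard ≤ 2)
    (hne : ∀ x ∈ A, x ∉ B → ∀ y ∈ B, y ∉ A → ¬ H.Adj x y) : MemOn P H (A ∪ B) := by
  obtain ⟨n, f, hf, hr⟩ := (hA.finite.union hB.finite).fin_param
  obtain ⟨a, fA, hfA, rfl, hpA⟩ := hA
  obtain ⟨b, fB, hfB, rfl, hpB⟩ := hB
  obtain ⟨g₁, hg₁, e₁⟩ := lift_param (f := f) hfA (by rw [hr]; exact subset_union_left)
  obtain ⟨g₂, hg₂, e₂⟩ := lift_param (f := f) hfB (by rw [hr]; exact subset_union_right)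
  have m₁ : ∀ x, x ∈ range g₁ ↔ f x ∈ range fA := by
    intro x
    constructor
    · rintro ⟨i, rfl⟩
      exact ⟨i, (e₁ i).symm⟩
    · rintro ⟨i, hi⟩
      exact ⟨i, hf (by rw [e₁, hi])⟩
  have m₂ : ∀ x, x ∈ range g₂ ↔ f x ∈ range fB := by
    intro x
    constructor
    · rintro ⟨i, rfl⟩
      exact ⟨i, (e₂ i).symm⟩
    · rintro ⟨i, hi⟩
      exact ⟨i, hf (by rw [e₂, hi])⟩
  refine ⟨n, f, hf, hr, hP.glue a b n _ _ _ g₁ g₂ hpA hpB hg₁ hg₂ ?_ ?_ ?_ ?_ ?_⟩
  · intro i j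
    simp only [SimpleGraph.comap_adj, e₁]
  · intro i j
    simp only [SimpleGraph.comap_adj, e₂]
  · intro x
    rw [m₁, m₂]
    have : f x ∈ range fA ∪ range fB := hr ▸ mem_range_self x
    exact this
  · have : f '' (range g₁ ∩ range g₂) ⊆ range fA ∩ range fB := by
      rintro _ ⟨x, ⟨h1, h2⟩, rfl⟩
      exact ⟨(m₁ x).1 h1, (m₂ x).1 h2⟩
    rw [← ncard_image_of_injective _ hf]
    exact (ncard_le_ncard this ((finite_range fA).inter_of_left _)).trans h2
  · intro x y hx hy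
    rw [m₂] at hx
    rw [m₁] at hy
    have hx' : f x ∈ range fA ∪ range fB := hr ▸ mem_range_self x
    have hy' : f y ∈ range fA ∪ range fB := hr ▸ mem_range_self y
    exact hne _ (hx'.resolve_right hx) hx _ (hy'.resolve_left hy) hy

theorem MemOn.twin (hP : Closed P) {W : Type} {H : SimpleGraph W} {A : Set W}
    (hA : MemOn P H A) {x x' : W} (hx : x ∈ A) (hx' : x' ∉ A)
    (ht : ∀ y ∈ A, y ≠ x → (H.Adj x' y ↔ H.Adj x y)) : MemOn P H (insert x' A) := by
  classical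
  obtain ⟨n, f, hf, hr⟩ := (hA.finite.insert x').fin_param
  obtain ⟨a, fA, hfA, rfl, hpA⟩ := hA
  obtain ⟨v, rfl⟩ := hx
  have hne : fA v ≠ x' := fun h => hx' ⟨v, h⟩
  have hq : Injective (![fA v, x'] : Fin 2 → W) := by
    intro i j hij
    fin_cases i <;> fin_cases j <;> simp_all [eq_comm]
  obtain ⟨q, hqi, eq⟩ := lift_param (f := f) hq (by
    rw [hr]
    rintro _ ⟨i, rfl⟩
    fin_cases i
    · exact Or.inr ⟨v, rfl⟩
    · exact Or.inl rfl)
  have hex : ∀ z : Fin n, ∃ i : Fin a, (f z = x' ∧ i = v) ∨ (f z ≠ x' ∧ fA i = f z) := by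
    intro z
    by_cases hz : f z = x'
    · exact ⟨v, Or.inl ⟨hz, rfl⟩⟩
    · have : f z ∈ insert x' (range fA) := hr ▸ mem_range_self z
      obtain ⟨i, hi⟩ := this.resolve_left hz
      exact ⟨i, Or.inr ⟨hz, hi⟩⟩
  choose p hp using hex
  have q0 : f (q 0) = fA v := eq 0
  have q1 : f (q 1) = x' := eq 1
  refine ⟨n, f, hf, hr, hP.sub a 2 n _ (H.comap (![fA v, x'] : Fin 2 → W)) _ v p q hpA
    (hP.base 2 _ le_rfl) hqi ?_ ?_ ?_ ?_ ?_⟩
  · intro i
    have : fA i ∈ range f := by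
      rw [hr]
      exact Or.inr ⟨i, rfl⟩
    obtain ⟨z, hz⟩ := this
    refine ⟨z, ?_⟩
    rcases hp z with ⟨h1, -⟩ | ⟨-, h2⟩
    · exact absurd ⟨i, hz.symm.trans h1⟩ hx'
    · exact hfA (h2.trans hz)
  · intro z
    constructor
    · intro hz
      rcases hp z with ⟨h1, -⟩ | ⟨-, h2⟩
      · exact ⟨1, hf (q1.trans h1.symm)⟩
      · exact ⟨0, hf (by rw [q0, ← h2, hz])⟩
    · rintro ⟨i, rfl⟩
      rcases hp (q i) with ⟨-, h1⟩ | ⟨h1, h2⟩
      · exact h1
      · fin_cases i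
        · exact hfA (h2.trans q0)
        · exact absurd q1 h1
  · intro y z hyz hy
    rcases hp y with ⟨-, h1⟩ | ⟨-, h2⟩
    · exact absurd h1 hy
    · rcases hp z with ⟨-, h3⟩ | ⟨-, h4⟩
      · exact absurd (hyz.trans h3) hy
      · exact hf (by rw [← h2, ← h4, hyz])
  · intro y z hyz
    simp only [SimpleGraph.comap_adj]
    rcases hp y with ⟨h1, h1'⟩ | ⟨-, h2⟩ <;> rcases hp z with ⟨h3, h3'⟩ | ⟨-, h4⟩
    · exact absurd hyz (by simp [h1', h3'])
    · rw [h1, h1', ← h4]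
      refine ht _ ⟨_, rfl⟩ fun h => ?_
      exact absurd hyz (by simp [h1', hfA h])
    · rw [h3, h3', ← h2, H.adj_comm, H.adj_comm (fA (p y))]
      refine ht _ ⟨_, rfl⟩ fun h => ?_
      exact absurd hyz (by simp [h3', hfA h])
    · rw [h2, h4]
  · intro i j
    simp only [SimpleGraph.comap_adj, eq]

theorem MemOn.blow (hP : Closed P) {W W' : Type} {H : SimpleGraph W} {H' : SimpleGraph W'}
    {A : Set W} (hA : MemOn P H A) (p : W' → W) {B : Set W'} (hB : B.Finite) (hp : p '' B = A)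
    (ha : ∀ x ∈ B, ∀ y ∈ B, H'.Adj x y ↔ H.Adj (p x) (p y)) : MemOn P H' B := by
  classical
  rcases B.eq_empty_or_nonempty with rfl | ⟨b₀, hb₀⟩
  · exact memOn_small hP _ finite_empty (by simp)
  have hex : ∀ a : W, ∃ b : W', b ∈ B ∧ (a ∈ A → p b = a) := by
    intro a
    by_cases h : a ∈ A
    · rw [← hp] at h
      obtain ⟨b, hb, rfl⟩ := h
      exact ⟨b, hb, fun _ => rfl⟩
    · exact ⟨b₀, hb₀, fun h' => absurd h' h⟩
  choose σ hσB hσ using hex
  have h0 : MemOn P H' (σ '' A) := by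
    refine hA.transfer σ ?_ ?_
    · intro a h1 b h2 hab
      rw [← hσ a h1, ← hσ b h2, hab]
    · intro a h1 b h2
      rw [ha _ (hσB a) _ (hσB b), hσ a h1, hσ b h2]
  have hsub : σ '' A ⊆ B := by
    rintro _ ⟨a, -, rfl⟩
    exact hσB a
  have key : ∀ s : Finset W', (s : Set W') ⊆ B → MemOn P H' (σ '' A ∪ s) := by
    intro s
    induction s using Finset.induction_on with
    | empty => simpa using h0
    | insert x s hxs ih =>
      intro hs
      have hxB : x ∈ B := hs (by simp)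
      have hsB : (s : Set W') ⊆ B := fun y hy => hs (by simp [Finset.mem_coe.1 hy])
      have ih' := ih hsB
      by_cases hx : x ∈ σ '' A ∪ (s : Set W')
      · have : σ '' A ∪ ((insert x s : Finset W') : Set W') = σ '' A ∪ s := by
          rw [Finset.coe_insert, union_insert, insert_eq_of_mem hx]
        rwa [this]
      · have hpx : p x ∈ A := hp ▸ mem_image_of_mem p hxB
        have : σ '' A ∪ ((insert x s : Finset W') : Set W') = insert x (σ '' A ∪ s) := by
          rw [Finset.coe_insert, union_insert]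
        rw [this]
        refine ih'.twin hP (x := σ (p x)) (Or.inl ⟨_, hpx, rfl⟩) hx ?_
        intro y hy _
        have hyB : y ∈ B := hy.elim (fun h => hsub h) (fun h => hsB h)
        rw [ha _ hxB _ hyB, ha _ (hσB _) _ hyB, hσ _ hpx]
  have := key hB.toFinset (by simp)
  rwa [hB.coe_toFinset, union_eq_self_of_subset_left hsub] at this

theorem MemOn.multi (hP : Closed P) {W ι : Type} {H : SimpleGraph W} {A : Set W}
    (hA : MemOn P H A) (B : ι → Set W) (hB : ∀ i, MemOn P H (B i))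
    (h2 : ∀ i, (A ∩ B i).ncard ≤ 2) (hd : ∀ i j, i ≠ j → B i ∩ B j ⊆ A)
    (hne : ∀ i, ∀ y ∈ B i, y ∉ A → ∀ x, (x ∈ A ∨ ∃ j, x ∈ B j) → x ∉ B i → ¬ H.Adj x y)
    (s : Finset ι) : MemOn P H (A ∪ ⋃ i ∈ s, B i) := by
  classical
  induction s using Finset.induction_on with
  | empty => simpa using hA
  | insert i s his ih =>
    have e : A ∪ ⋃ j ∈ insert i s, B j = (A ∪ ⋃ j ∈ s, B j) ∪ B i := by
      rw [Finset.set_biUnion_insert]
      ext x
      simp only [mem_union]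
      tauto
    rw [e]
    have hint : (A ∪ ⋃ j ∈ s, B j) ∩ B i = A ∩ B i := by
      ext x
      simp only [mem_inter_iff, mem_union, mem_iUnion]
      constructor
      · rintro ⟨h | ⟨j, hj, h⟩, h'⟩
        · exact ⟨h, h'⟩
        · exact ⟨hd j i (fun e => his (e ▸ hj)) ⟨h, h'⟩, h'⟩
      · rintro ⟨h, h'⟩
        exact ⟨Or.inl h, h'⟩
    refine ih.union hP (hB i) (hint ▸ h2 i) ?_
    intro x hx hxi y hy hyA
    refine hne i y hy (fun h => hyA (Or.inl h)) x ?_ hxi
    rcases hx with h | h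
    · exact Or.inl h
    · simp only [mem_iUnion] at h
      obtain ⟨j, -, h⟩ := h
      exact Or.inr ⟨j, h⟩

end Pool.Agent.MP_da1f04_co.F91
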