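import Pool.Agent.MP_da1f04_co.F91Mem

/-!
One level of the tree construction: a root, a new neighbour of the root, a copy of `G`, and below
every vertex of the copy a rooted piece whose root is played by the old root and by that vertex.
-/

set_option autoImplicit false

namespace Pool.Agent.MP_da1f04_co.F91

open Function Set

/-- Vertices of one level of the tree. -/
inductive T (X Z : Type) : Type
  | root : T X Z
  | b0 : T X Z
  | cp : X → T X Z
  | ch : X → Z → T X Z

/-- A surjection used only to show finiteness. -/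
def T.ofSum {X Z : Type} : Option (Option (X ⊕ X × Z)) → T X Z
  | none => T.root
  | some none => T.b0
  | some (some (Sum.inl x)) => T.cp x
  | some (some (Sum.inr (x, z))) => T.ch x z

instance T.instFinite {X Z : Type} [Finite X] [Finite Z] : Finite (T X Z) := by
  refine Finite.of_surjective (T.ofSum (X := X) (Z := Z)) ?_
  intro t
  cases t with
  | root => exact ⟨none, rfl⟩
  | b0 => exact ⟨some none, rfl⟩
  | cp x => exact ⟨some (some (Sum.inl x)), rfl⟩
  | ch x z => exact ⟨some (some (Sum.inr (x, z))), rfl⟩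

/-- Adjacency of one level of the tree. -/
def uadj {X Z : Type} (G : SimpleGraph X) (M : X → Prop) (H : SimpleGraph (Option Z)) :
    T X Z → T X Z → Prop
  | T.root, T.b0 => True
  | T.b0, T.root => True
  | T.root, T.ch _ z => H.Adj none (some z)
  | T.ch _ z, T.root => H.Adj none (some z)
  | T.cp x, T.cp y => G.Adj x y
  | T.cp x, T.ch y z => x = y ∧ M x ∧ H.Adj none (some z)
  | T.ch y z, T.cp x => x = y ∧ M x ∧ H.Adj none (some z)
  | T.ch x z, T.ch y z' => x = y ∧ H.Adj (some z) (some z')
  | _, _ => False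

/-- One level of the tree as a graph. -/
def ugraph {X Z : Type} (G : SimpleGraph X) (M : X → Prop) (H : SimpleGraph (Option Z)) :
    SimpleGraph (T X Z) where
  Adj := uadj G M H
  symm := ⟨by
    intro a b h
    cases a <;> cases b <;> simp only [uadj] at h ⊢ <;>
      first
        | exact h
        | exact h.symm
        | exact ⟨h.1.symm, h.2.symm⟩⟩
  loopless := ⟨by
    intro a h
    cases a <;> simp [uadj] at h⟩

/-- No triangle. -/
def TF {W : Type} (G : SimpleGraph W) : Prop := ∀ a b c, G.Adj a b → G.Adj b c → ¬ G.Adj a c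

theorem TF.comap {W W' : Type} {G : SimpleGraph W} (h : TF G) (p : W' → W) : TF (G.comap p) :=
  fun _ _ _ => h _ _ _

theorem tf_ugraph {X Z : Type} {G : SimpleGraph X} (M : X → Prop) {H : SimpleGraph (Option Z)}
    (hG : TF G) (hH : TF H) : TF (ugraph G M H) := by
  intro a b c h1 h2 h3
  cases a <;> cases b <;> simp only [ugraph, uadj] at h1 <;> cases c <;>
    simp only [ugraph, uadj] at h2 h3
  · exact hH _ _ _ h1 h2.2 h3
  · exact hG _ _ _ h1 h2 h3
  · exact h1.ne (h3.1.trans h2.1.symm)
  · exact h3.ne (h1.1.trans h2.1.symm)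
  · exact hH _ _ _ h1.2.2 h2.2 h3.2.2
  · exact hH _ _ _ h1 h3.2 h2
  · exact h2.ne (h1.1.trans h3.1.symm)
  · exact hH _ _ _ h1.2.2 h3.2 h2.2.2
  · exact hH _ _ _ h3 h1.2 h2
  · exact hH _ _ _ h3.2.2 h1.2 h2.2.2
  · exact hH _ _ _ h1.2 h2.2 h3.2

/-- The relevant vertices of a rooted piece; the root is included when `ρ` holds. -/
def opred {Z : Type} (ρ : Prop) (SZ : Set Z) : Option Z → Prop
  | none => ρ
  | some z => z ∈ SZ

/-- The set form of `opred`. -/
def oset {Z : Type} (ρ : Prop) (SZ : Set Z) : Set (Option Z) := {o | opred ρ SZ o}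

/-- The relevant vertices of one level of the tree. -/
def tpred {X Z : Type} (ρ : Prop) (SX : Set X) (SZ : Set Z) : T X Z → Prop
  | T.root => ρ
  | T.b0 => True
  | T.cp x => x ∈ SX
  | T.ch _ z => z ∈ SZ

/-- The set form of `tpred`. -/
def tset {X Z : Type} (ρ : Prop) (SX : Set X) (SZ : Set Z) : Set (T X Z) := {t | tpred ρ SX SZ t}

/-- The first part of one level. -/
def apred {X Z : Type} (ρ : Prop) (SX : Set X) : T X Z → Prop
  | T.root => ρ
  | T.b0 => True
  | T.cp x => x ∈ SX
  | T.ch _ _ => False

/-- The set form of `apred`. -/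
def aset {X Z : Type} (ρ : Prop) (SX : Set X) : Set (T X Z) := {t | apred ρ SX t}

/-- The piece below the vertex `i`. -/
def bpred {X Z : Type} (ρ : Prop) (M : X → Prop) (SZ : Set Z) (i : X) : T X Z → Prop
  | T.root => ρ
  | T.b0 => False
  | T.cp x => x = i ∧ M x
  | T.ch y z => y = i ∧ z ∈ SZ

/-- The set form of `bpred`. -/
def bset {X Z : Type} (ρ : Prop) (M : X → Prop) (SZ : Set Z) (i : X) : Set (T X Z) :=
  {t | bpred ρ M SZ i t}

/-- Projection of the piece below a vertex to the rooted piece. -/
def bproj {X Z : Type} : T X Z → Option Z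
  | T.ch _ z => some z
  | _ => none

theorem pair_le {W : Type} (a b : W) : ({a, b} : Set W).ncard ≤ 2 :=
  (ncard_insert_le _ _).trans (by simp)

variable {P : ∀ n : ℕ, SimpleGraph (Fin n) → Prop}

theorem attach (hP : Closed P) {X Z : Type} [Fintype X] [Finite Z] (G : SimpleGraph X)
    (M : X → Prop) (H : SimpleGraph (Option Z)) (SX : Set X) (SZ : Set Z)
    (hG : MemOn P G SX) (hM : ∀ x, M x → x ∈ SX) (hH : ∀ ρ : Prop, MemOn P H (oset ρ SZ))
    (ρ : Prop) : MemOn P (ugraph G M H) (tset ρ SX SZ) := by
  classical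
  have hA : MemOn P (ugraph G M H) (aset ρ SX : Set (T X Z)) := by
    have h1 : MemOn P (ugraph G M H) (aset ρ ∅ : Set (T X Z)) := by
      refine memOn_small hP _ (toFinite _) ?_
      have : (aset ρ ∅ : Set (T X Z)) ⊆ {T.root, T.b0} := by
        intro t ht
        cases t <;> simp_all [aset, apred]
      exact (ncard_le_ncard this (toFinite _)).trans (pair_le _ _)
    have h2 : MemOn P (ugraph G M H) (T.cp '' SX) := by
      refine hG.transfer T.cp (fun a _ b _ h => by injection h) ?_
      intro a _ b _
      rfl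
    have e : (aset ρ SX : Set (T X Z)) = aset ρ ∅ ∪ T.cp '' SX := by
      ext t
      cases t <;> simp [aset, apred]
    rw [e]
    refine h1.union hP h2 ?_ ?_
    · have : (aset ρ ∅ : Set (T X Z)) ∩ T.cp '' SX = ∅ := by
        ext t
        cases t <;> simp [aset, apred]
      simp [this]
    · rintro x hx - _ ⟨y, -, rfl⟩ -
      cases x <;> simp_all [aset, apred, ugraph, uadj]
  have hB : ∀ i, MemOn P (ugraph G M H) (bset ρ M SZ i) := by
    intro i
    refine (hH (ρ ∨ M i)).blow hP bproj (toFinite _) ?_ ?_
    · ext o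
      constructor
      · rintro ⟨t, ht, rfl⟩
        cases t with
        | root => exact Or.inl ht
        | b0 => exact ht.elim
        | cp x => exact Or.inr (ht.1 ▸ ht.2)
        | ch y z => exact ht.2
      · intro ho
        cases o with
        | none =>
          rcases ho with h | h
          · exact ⟨T.root, h, rfl⟩
          · exact ⟨T.cp i, ⟨rfl, h⟩, rfl⟩
        | some z => exact ⟨T.ch i z, ⟨rfl, ho⟩, rfl⟩
    · intro x hx y hy
      cases x <;> cases y <;>
        simp_all [bset, bpred, ugraph, uadj, bproj, H.adj_comm]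
      · exact fun _ => hx.1 ▸ hx.2
      · exact fun _ => hy.1 ▸ hy.2
  have key := hA.multi hP (bset ρ M SZ) hB ?_ ?_ ?_ Finset.univ
  · have e : tset ρ SX SZ = aset ρ SX ∪ ⋃ i ∈ (Finset.univ : Finset X), bset ρ M SZ i := by
      ext t
      simp only [mem_union, mem_iUnion, Finset.mem_univ, exists_prop, true_and]
      cases t with
      | root => exact ⟨fun h => Or.inl h, fun h => h.elim id fun ⟨_, h⟩ => h⟩
      | b0 => exact ⟨fun h => Or.inl h, fun _ => trivial⟩
      | cp x => exact ⟨fun h => Or.inl h, fun h => h.elim id fun ⟨_, h⟩ => hM _ h.2⟩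
      | ch y z => exact ⟨fun h => Or.inr ⟨y, rfl, h⟩, fun h => h.elim False.elim fun ⟨_, h⟩ => h.2⟩
    rwa [e]
  · intro i
    have : aset ρ SX ∩ bset ρ M SZ i ⊆ {T.root, T.cp i} := by
      rintro t ⟨h1, h2⟩
      cases t with
      | root => simp
      | b0 => exact h2.elim
      | cp x => simp [h2.1]
      | ch y z => exact h1.elim
    exact (ncard_le_ncard this (toFinite _)).trans (pair_le _ _)
  · rintro i j hij t ⟨h1, h2⟩
    cases t with
    | root => exact h1
    | b0 => trivial
    | cp x => exact hM _ h1.2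
    | ch y z => exact absurd (h1.1.symm.trans h2.1) hij
  · intro i y hy hyA x hx hxi
    cases y with
    | root => exact absurd hy hyA
    | b0 => exact hy.elim
    | cp y => exact absurd (hM _ hy.2) hyA
    | ch y z =>
      obtain ⟨rfl, hz⟩ := hy
      cases x with
      | root =>
        exfalso
        rcases hx with h | ⟨_, h⟩
        · exact hxi h
        · exact hxi h
      | b0 => exact fun h => h
      | cp x => exact fun h => hxi ⟨h.1, h.2.1⟩
      | ch x z' =>
        intro h
        rcases hx with h' | ⟨_, h'⟩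
        · exact h'
        · exact hxi ⟨h.1, h'.2⟩

end Pool.Agent.MP_da1f04_co.F91
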