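import Pool.Agent.MP_da1f04_co.G91Drop

/-!
The decomposition lemma at a cut with two heavy sides, and at an arbitrary cut.
-/

set_option autoImplicit false

namespace Pool.Agent.MP_da1f04_co.G91

open Function Set

variable {U V : Type} {J : SimpleGraph U} {q k c τ : ℕ} {Wt : Set U}

theorem branch [Finite U] {π : U → V} {D F T : Set U} (ctx : Ctx J q π D) (A Bs : Set U)
    (hA : ∀ u w, π u = π w → u ∈ A → w ∈ A) (hB : ∀ u w, π u = π w → u ∈ Bs → w ∈ Bs)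
    (cov : ∀ u ∈ D, u ∉ A → u ∈ Bs) (C : Set V) (hCf : C.Finite) (hC : C.ncard ≤ k)
    (hAB : ∀ u ∈ D, (u ∈ A ∧ u ∈ Bs) ↔ π u ∈ C)
    (cut : ∀ u ∈ D, u ∉ Bs → ∀ w ∈ D, w ∉ A → ¬ J.Adj u w) (hF : F ⊆ D)
    (hT : ∀ u ∈ T, u ∈ D ∧ u ∉ F)
    (h1 : τ < (((D \ F) \ A) ∩ Wt).ncard) (h2 : τ < (((D \ F) \ Bs) ∩ Wt).ncard)
    (ih1 : ∀ T' : Set U, (∀ u ∈ T', u ∈ D ∩ A ∧ u ∉ F ∩ A) →
      Out J q k c τ Wt π (D ∩ A) (F ∩ A) T')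
    (ih2 : ∀ T' : Set U, (∀ u ∈ T', u ∈ D ∩ Bs ∧ u ∉ (F \ A) ∪ (D ∩ A ∩ Bs)) →
      Out J q k c τ Wt π (D ∩ Bs) ((F \ A) ∪ (D ∩ A ∩ Bs)) T') : Out J q k c τ Wt π D F T := by
  classical
  obtain ⟨R₁, B₁, ψ₁, ex₁, d⟩ := ih1 ((T ∩ A) ∪ {u | u ∈ D ∧ u ∈ A ∧ u ∉ F ∧ π u ∈ C}) (by
    rintro u (h | h)
    · exact ⟨⟨(hT u h.1).1, h.2⟩, fun h' => (hT u h.1).2 h'.1⟩
    · exact ⟨⟨h.1, h.2.1⟩, fun h' => h.2.2.1 h'.1⟩)
  obtain ⟨R₂, B₂, ψ₂, ex₂, e⟩ := ih2 (T \ A) (by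
    intro u h
    exact ⟨⟨(hT u h.1).1, cov u (hT u h.1).1 h.2⟩,
      fun h' => h'.elim (fun h' => (hT u h.1).2 h'.1) fun h' => h.2 h'.1.2⟩)
  have cov' : ∀ u ∈ D, u ∉ Bs → u ∈ A := fun u hu h => by_contra fun h' => h (cov u hu h')
  have inA : ∀ u, u ∈ D ∩ A ∧ u ∉ F ∩ A → u ∈ D ∧ u ∈ A ∧ u ∉ F := fun u h =>
    ⟨h.1.1, h.1.2, fun h' => h.2 ⟨h', h.1.2⟩⟩
  have inB : ∀ u, u ∈ D ∩ Bs ∧ u ∉ (F \ A) ∪ (D ∩ A ∩ Bs) → u ∈ D ∧ u ∉ A ∧ u ∉ F := fun u h =>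
    have hu : u ∉ A := fun h' => h.2 (Or.inr ⟨⟨h.1.1, h'⟩, h.1.2⟩)
    ⟨h.1.1, hu, fun h' => h.2 (Or.inl ⟨h', hu⟩)⟩
  have nBs : ∀ u ∈ D, u ∈ A → u ∉ F → u ∉ B₁ → u ∉ Bs := fun u hu h1 h2 h3 h4 =>
    h3 (d.tB (Or.inr ⟨hu, h1, h2, (hAB u hu).1 ⟨h1, h4⟩⟩))
  have r1 : ∀ u ∈ R₁, u ∈ D ∧ u ∈ A ∧ u ∉ F := fun u hu => inA u (d.rD u hu)
  have b1 : ∀ u ∈ B₁, u ∈ D ∧ u ∈ A ∧ u ∉ F := fun u hu => inA u (d.bD u hu)
  have r2 : ∀ u ∈ R₂, u ∈ D ∧ u ∉ A ∧ u ∉ F := fun u hu => inB u (e.rD u hu)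
  have b2 : ∀ u ∈ B₂, u ∈ D ∧ u ∉ A ∧ u ∉ F := fun u hu => inB u (e.bD u hu)
  have r1B : ∀ u ∈ R₁, u ∉ Bs := fun u hu =>
    nBs u (r1 u hu).1 (r1 u hu).2.1 (r1 u hu).2.2 (d.dis u hu)
  have x1 : ∀ u w, ex₁ u w → u ∈ A ∧ w ∈ A := fun u w h =>
    ⟨(d.eD u w h).2, (d.eD w u (d.sy u w h)).2⟩
  have x2 : ∀ u w, ex₂ u w → u ∈ Bs ∧ w ∈ Bs := fun u w h =>
    ⟨(e.eD u w h).2, (e.eD w u (e.sy u w h)).2⟩
  have inF : ∀ w ∈ D, w ∈ Bs → w ∈ F ∨ w ∈ A → w ∈ (F \ A) ∪ (D ∩ A ∩ Bs) := by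
    intro w hw hwB h
    by_cases hwA : w ∈ A
    · exact Or.inr ⟨⟨hw, hwA⟩, hwB⟩
    · exact Or.inl ⟨h.resolve_right hwA, hwA⟩
  let ex : U → U → Prop := fun u w => (ex₁ u w ∨ ex₂ u w) ∧ ¬ (π u ∈ C ∧ π w ∈ C)
  let ψ : U → ℕ := fun u => if u ∈ A then ψ₁ u else ψ₂ u
  have ψ1 : ∀ u ∈ R₁, ψ u = ψ₁ u := fun u hu => if_pos (r1 u hu).2.1
  have ψ2 : ∀ u ∈ R₂, ψ u = ψ₂ u := fun u hu => if_neg (r2 u hu).2.1
  have l1 : ∀ u ∈ Lf D F (R₁ ∪ R₂) (B₁ ∪ B₂), u ∈ A → u ∈ Lf (D ∩ A) (F ∩ A) R₁ B₁ :=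
    fun u hu huA => ⟨⟨hu.1, huA⟩, fun h => hu.2.1 h.1, fun h => hu.2.2.1 (Or.inl h),
      fun h => hu.2.2.2 (Or.inl h)⟩
  have l1B : ∀ u ∈ Lf D F (R₁ ∪ R₂) (B₁ ∪ B₂), u ∈ A → u ∉ Bs := fun u hu huA =>
    nBs u hu.1 huA hu.2.1 fun h => hu.2.2.2 (Or.inl h)
  have l1' : ∀ u ∈ Lf (D ∩ A) (F ∩ A) R₁ B₁, u ∈ Lf D F (R₁ ∪ R₂) (B₁ ∪ B₂) :=
    fun u hu => ⟨hu.1.1, fun h => hu.2.1 ⟨h, hu.1.2⟩,
      fun h => h.elim hu.2.2.1 fun h => (r2 u h).2.1 hu.1.2,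
      fun h => h.elim hu.2.2.2 fun h => (b2 u h).2.1 hu.1.2⟩
  have l2 : ∀ u ∈ Lf D F (R₁ ∪ R₂) (B₁ ∪ B₂), u ∉ A →
      u ∈ Lf (D ∩ Bs) ((F \ A) ∪ (D ∩ A ∩ Bs)) R₂ B₂ :=
    fun u hu huA => ⟨⟨hu.1, cov u hu.1 huA⟩,
      fun h => h.elim (fun h => hu.2.1 h.1) fun h => huA h.1.2, fun h => hu.2.2.1 (Or.inr h),
      fun h => hu.2.2.2 (Or.inr h)⟩
  have l2' : ∀ u ∈ Lf (D ∩ Bs) ((F \ A) ∪ (D ∩ A ∩ Bs)) R₂ B₂,
      u ∈ Lf D F (R₁ ∪ R₂) (B₁ ∪ B₂) ∧ u ∉ A := fun u hu =>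
    have h := inB u ⟨hu.1, hu.2.1⟩
    ⟨⟨h.1, h.2.2, fun h' => h'.elim (fun h' => h.2.1 (r1 u h').2.1) hu.2.2.1,
      fun h' => h'.elim (fun h' => h.2.1 (b1 u h').2.1) hu.2.2.2⟩, h.2.1⟩
  have eu : ∀ u u' w, u' ∈ D → π u = π u' → π w ≠ π u → ex u w → ex u' w := by
    rintro u u' w hu' h h' ⟨h3 | h3, h4⟩
    · exact ⟨Or.inl (d.eu u u' w ⟨hu', hA u u' h (x1 _ _ h3).1⟩ h h' h3), h ▸ h4⟩
    · exact ⟨Or.inr (e.eu u u' w ⟨hu', hB u u' h (x2 _ _ h3).1⟩ h h' h3), h ▸ h4⟩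
  refine ⟨R₁ ∪ R₂, B₁ ∪ B₂, ψ, ex, ?_, ?_, ?_, ?_, ?_, ?_, ?_,
    fun u w h => ⟨h.1.imp (d.sy u w) (e.sy u w), fun h' => h.2 h'.symm⟩,
    fun u w h => h.1.elim (fun h => (d.eD u w h).1) fun h => (e.eD u w h).1,
    eu, ?_, ?_, ?_, ?_, ?_, ?_⟩
  · rintro u (h | h)
    exacts [⟨(r1 u h).1, (r1 u h).2.2⟩, ⟨(r2 u h).1, (r2 u h).2.2⟩]
  · rintro u (h | h)
    exacts [⟨(b1 u h).1, (b1 u h).2.2⟩, ⟨(b2 u h).1, (b2 u h).2.2⟩]
  · intro u hu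
    by_cases h : u ∈ A
    · exact Or.inl (d.tB (Or.inl ⟨hu, h⟩))
    · exact Or.inr (e.tB ⟨hu, h⟩)
  · rintro u (h | h) (h' | h')
    exacts [d.dis u h h', (b2 u h').2.1 (r1 u h).2.1, (r2 u h).2.1 (b1 u h').2.1, e.dis u h h']
  · rintro u (h | h)
    · rw [ψ1 u h]
      exact d.lt u h
    · rw [ψ2 u h]
      exact e.lt u h
  · intro i K hK hq
    by_cases h3 : ∀ u ∈ K, u ∈ R₁
    · exact d.oc i (fun u hu => ⟨h3 u hu, (ψ1 u (h3 u hu)).symm.trans (hK hu).2⟩) hq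
    push Not at h3
    obtain ⟨u, hu, huR⟩ := h3
    have hu2 : u ∈ R₂ := (hK hu).1.resolve_left huR
    have hall : ∀ w ∈ K, w ∈ R₂ := by
      intro w hw
      rcases (hK hw).1 with h | h
      · have hwu : w ≠ u := fun e => huR (e ▸ h)
        exact absurd (hq.1 hw hu hwu) (cut w (r1 w h).1 (r1B w h) u (r2 u hu2).1 (r2 u hu2).2.1)
      · exact h
    exact e.oc i (fun w hw => ⟨hall w hw, (ψ2 w (hall w hw)).symm.trans (hK hw).2⟩) hq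
  · rintro u (h | h) w (h' | h') h3
    · rw [ψ1 u h, ψ1 w h']
      exact d.fc u h w h' h3
    · exact absurd (hA u w h3 (r1 u h).2.1) (r2 w h').2.1
    · exact absurd (hA w u h3.symm (r1 w h').2.1) (r2 u h).2.1
    · rw [ψ2 u h, ψ2 w h']
      exact e.fc u h w h' h3
  · intro K hK hp hq
    by_cases h3 : ∀ u ∈ K, u ∈ A
    · refine d.ec K (fun u hu => ⟨hK hu, h3 u hu⟩) (fun u hu w hw => ?_) hq
      rcases hp u hu w hw with h | ⟨h | h, h'⟩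
      · exact Or.inl h
      · exact Or.inr h
      · exact (h' ⟨(hAB u (hK hu)).1 ⟨h3 u hu, (x2 _ _ h).1⟩,
          (hAB w (hK hw)).1 ⟨h3 w hw, (x2 _ _ h).2⟩⟩).elim
    push Not at h3
    obtain ⟨z, hz, hzA⟩ := h3
    have h4 : ∀ u ∈ K, u ∈ Bs := by
      intro u hu
      by_contra h
      have hne : u ≠ z := fun e => hzA (e ▸ cov' u (hK hu) h)
      exact cut u (hK hu) h z (hK hz) hzA (hq.1 hu hz hne)
    refine e.ec K (fun u hu => ⟨hK hu, h4 u hu⟩) (fun u hu w hw => ?_) hq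
    rcases hp u hu w hw with h | ⟨h | h, h'⟩
    · exact Or.inl h
    · exact (h' ⟨(hAB u (hK hu)).1 ⟨(x1 _ _ h).1, h4 u hu⟩,
        (hAB w (hK hw)).1 ⟨(x1 _ _ h).2, h4 w hw⟩⟩).elim
    · exact Or.inr h
  · intro u hu w hw
    by_cases huA : u ∈ A
    · by_cases hwA : w ∈ A
      · exact d.nF u (l1 u hu huA) w ⟨hw, hwA⟩
      · exact cut u hu.1 (l1B u hu huA) w (hF hw) hwA
    · by_cases hwB : w ∈ Bs
      · exact e.nF u (l2 u hu huA) w (inF w (hF hw) hwB (Or.inl hw))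
      · exact fun h => cut w (hF hw) hwB u hu.1 huA h.symm
  · intro u hu w hw
    have hwD : w ∈ D := by
      rcases hw with (h | h) | h
      exacts [(b1 w h).1, (b2 w h).1, hF h]
    by_cases huA : u ∈ A
    · have huB := l1B u hu huA
      by_cases hwA : w ∈ A
      · have := d.nB u (l1 u hu huA) w (by
          rcases hw with (h | h) | h
          exacts [Or.inl h, absurd hwA (b2 w h).2.1, Or.inr ⟨h, hwA⟩])
        exact ⟨this.1, fun h => h.1.elim this.2 fun h => huB (x2 _ _ h).1⟩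
      · exact ⟨fun h => hwA (hA u w h huA),
          fun h => h.1.elim (fun h => hwA (x1 _ _ h).2) fun h => huB (x2 _ _ h).1⟩
    · by_cases hwB : w ∈ Bs
      · have := e.nB u (l2 u hu huA) w (by
          rcases hw with (h | h) | h
          exacts [Or.inr (inF w hwD hwB (Or.inr (b1 w h).2.1)), Or.inl h,
            Or.inr (inF w hwD hwB (Or.inl h))])
        exact ⟨this.1, fun h => h.1.elim (fun h => huA (x1 _ _ h).1) this.2⟩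
      · exact ⟨fun h => hwB (hB u w h (cov u hu.1 huA)),
          fun h => h.1.elim (fun h => huA (x1 _ _ h).1) fun h => hwB (x2 _ _ h).2⟩
  · intro u hu
    by_cases huA : u ∈ A
    · obtain ⟨P, h3, h4, h5, h6⟩ := d.pt u (l1 u hu huA)
      refine ⟨P, h3, fun x hx => l1' x (h4 hx), fun x hx y hy hadj => ?_, h6⟩
      by_cases hyA : y ∈ A
      · exact h5 x hx y (l1 y hy hyA) hadj
      · exact absurd hadj (cut x (h4 hx).1.1 (l1B x (l1' x (h4 hx)) (h4 hx).1.2) y hy.1 hyA)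
    · obtain ⟨P, h3, h4, h5, h6⟩ := e.pt u (l2 u hu huA)
      refine ⟨P, h3, fun x hx => (l2' x (h4 hx)).1, fun x hx y hy hadj => ?_, h6⟩
      by_cases hyA : y ∈ A
      · exact absurd hadj.symm (cut y hy.1 (l1B y hy hyA) x (h4 hx).1.1 (l2' x (h4 hx)).2)
      · exact h5 x hx y (l2 y hy hyA) hadj
  · intro h0 u hu w hw hwF hwW
    by_cases huA : u ∈ A
    · by_cases hwA : w ∈ A
      · exact d.hv h0 u (l1 u hu huA) w ⟨hw, hwA⟩ (fun h => hwF h.1) hwW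
      · exact cut u hu.1 (l1B u hu huA) w hw hwA
    · by_cases hwB : w ∈ Bs
      · by_cases hwA : w ∈ A
        · exact e.nF u (l2 u hu huA) w (inF w hw hwB (Or.inr hwA))
        · exact e.hv h0 u (l2 u hu huA) w ⟨hw, hwB⟩
            (fun h => h.elim (fun h => hwF h.1) fun h => hwA h.1.2) hwW
      · exact fun h => cut w hw hwB u hu.1 huA h.symm
  · have t1 := d.ty
    have t2 := e.ty
    set w₁ := (((D ∩ A) \ (F ∩ A)) ∩ Wt).ncard with hw₁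
    set w₂ := (((D ∩ Bs) \ ((F \ A) ∪ (D ∩ A ∩ Bs))) ∩ Wt).ncard with hw₂
    have a1 : τ + 1 ≤ w₁ := le_trans h2 (ncard_le_ncard (fun x hx =>
      ⟨⟨⟨hx.1.1.1, cov' x hx.1.1.1 hx.1.2⟩, fun h => hx.1.1.2 h.1⟩, hx.2⟩) (toFinite _))
    have a2 : τ + 1 ≤ w₂ := le_trans h1 (ncard_le_ncard (fun x hx =>
      ⟨⟨⟨hx.1.1.1, cov x hx.1.1.1 hx.1.2⟩,
        fun h => h.elim (fun h => hx.1.1.2 h.1) fun h => hx.1.2 h.1.2⟩, hx.2⟩) (toFinite _))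
    have a3 : w₁ + w₂ ≤ ((D \ F) ∩ Wt).ncard := by
      rw [hw₁, hw₂, ← ncard_union_eq _ (toFinite _) (toFinite _)]
      · refine ncard_le_ncard ?_ (toFinite _)
        rintro x (hx | hx)
        · exact ⟨⟨hx.1.1.1, (inA x hx.1).2.2⟩, hx.2⟩
        · exact ⟨⟨hx.1.1.1, (inB x hx.1).2.2⟩, hx.2⟩
      · rw [Set.disjoint_left]
        exact fun x hx hx' => (inB x hx'.1).2.1 hx.1.1.2
    have a4 : max (w₁ / (τ + 1)) 1 + max (w₂ / (τ + 1)) 1 ≤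
        max (((D \ F) ∩ Wt).ncard / (τ + 1)) 1 := by
      rw [max_eq_left ((Nat.one_le_div_iff (Nat.succ_pos τ)).2 a1),
        max_eq_left ((Nat.one_le_div_iff (Nat.succ_pos τ)).2 a2)]
      exact (Nat.div_add_div_le_add_div.trans (Nat.div_le_div_right a3)).trans
        (le_max_left _ _)
    have a5 := Nat.mul_le_mul_left (kap k) a4
    have sT := Nat.mul_le_mul_left (k + 1) (img_split π hA T)
    have sF := Nat.mul_le_mul_left (lam k) (img_split π hA F)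
    have c1 : (π '' ((T ∩ A) ∪ {u | u ∈ D ∧ u ∈ A ∧ u ∉ F ∧ π u ∈ C})).ncard ≤
        (π '' (T ∩ A)).ncard + k := by
      rw [image_union]
      exact (ncard_union_le _ _).trans (add_le_add le_rfl
        ((img_le π hCf fun u hu => hu.2.2.2).trans hC))
    have c2 : (π '' ((F \ A) ∪ (D ∩ A ∩ Bs))).ncard ≤ (π '' (F \ A)).ncard + k := by
      rw [image_union]
      exact (ncard_union_le _ _).trans (add_le_add le_rfl
        ((img_le π hCf fun u hu => (hAB u hu.1.1).1 ⟨hu.1.2, hu.2⟩).trans hC))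
    have c1' := Nat.mul_le_mul_left (k + 1) c1
    have c2' := Nat.mul_le_mul_left (lam k) c2
    have uni := nb_uni (R := R₁ ∪ R₂) ctx eu
    have s1 : Nb J π D (R₁ ∪ R₂) ex '' (B₁ ∪ B₂) ⊆ (Nb J π (D ∩ A) R₁ ex₁ '' B₁ ∪
        Nb J π D (R₁ ∪ R₂) ex '' {u | u ∈ D ∧ π u ∈ C}) ∪ Nb J π (D ∩ Bs) R₂ ex₂ '' B₂ := by
      rintro _ ⟨u, hu | hu, rfl⟩
      · by_cases h : π u ∈ C
        · exact Or.inl (Or.inr ⟨u, ⟨(b1 u hu).1, h⟩, rfl⟩)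
        · refine Or.inl (Or.inl ⟨u, hu, ?_⟩)
          have huB : u ∉ Bs := fun h' => h ((hAB u (b1 u hu).1).1 ⟨(b1 u hu).2.1, h'⟩)
          ext w
          constructor
          · rintro ⟨h3, h4, h5, h6, h7⟩
            exact ⟨h3.1, fun h' => h'.elim h4 fun h' => (r2 w h').2.1 h3.2, h5, h6,
              fun h' => h'.1.elim h7 fun h' => huB (x2 _ _ h').1⟩
          · rintro ⟨h3, h4, h5, h6, h7⟩
            exact ⟨⟨h3, by_contra fun hw => cut u (b1 u hu).1 huB w h3 hw h5⟩,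
              fun h' => h4 (Or.inl h'), h5, h6, fun h' => h7 ⟨Or.inl h', fun h' => h h'.1⟩⟩
      · refine Or.inr ⟨u, hu, ?_⟩
        have h : π u ∉ C := fun h' => (b2 u hu).2.1 ((hAB u (b2 u hu).1).2 h').1
        ext w
        constructor
        · rintro ⟨h3, h4, h5, h6, h7⟩
          exact ⟨h3.1, fun h' => h'.elim (fun h' => r1B w h' h3.2) h4, h5, h6,
            fun h' => h'.1.elim (fun h' => (b2 u hu).2.1 (x1 _ _ h').1) h7⟩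
        · rintro ⟨h3, h4, h5, h6, h7⟩
          exact ⟨⟨h3, by_contra fun hw => cut w h3 hw u (b2 u hu).1 (b2 u hu).2.1 h5.symm⟩,
            fun h' => h4 (Or.inr h'), h5, h6, fun h' => h7 ⟨Or.inr h', fun h' => h h'.1⟩⟩
    have s2 : (Nb J π D (R₁ ∪ R₂) ex '' {u | u ∈ D ∧ π u ∈ C}).ncard ≤ k :=
      (factor_le _ _ π fun u hu w hw => uni u hu.1 w hw.1).trans
        ((img_le π hCf fun u hu => hu.2).trans hC)
    have s3 := (ncard_le_ncard s1 (toFinite _)).trans ((ncard_union_le _ _).trans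
      (add_le_add ((ncard_union_le _ _).trans (add_le_add le_rfl s2)) le_rfl))
    have hk : kap k = k + (k + 1) * k + lam k * k := rfl
    rw [mul_add] at a5 sT sF c1' c2'
    omega

theorem split [Finite U] {π : U → V} {D F T : Set U} (ctx : Ctx J q π D) (A Bs : Set U)
    (hA : ∀ u w, π u = π w → u ∈ A → w ∈ A) (hB : ∀ u w, π u = π w → u ∈ Bs → w ∈ Bs)
    (cov : ∀ u ∈ D, u ∉ A → u ∈ Bs) (C : Set V) (hCf : C.Finite) (hC : C.ncard ≤ k)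
    (hAB : ∀ u ∈ D, (u ∈ A ∧ u ∈ Bs) ↔ π u ∈ C)
    (cut : ∀ u ∈ D, u ∉ Bs → ∀ w ∈ D, w ∉ A → ¬ J.Adj u w) (hF : F ⊆ D)
    (hT : ∀ u ∈ T, u ∈ D ∧ u ∉ F) (hn : (π '' F).ncard ≤ 2 * k) (hc : 6 * k ≤ c)
    (ih1 : ∀ F' T' : Set U, F' ⊆ D ∩ A → (π '' F').ncard ≤ 2 * k →
      (∀ u ∈ T', u ∈ D ∩ A ∧ u ∉ F') → Out J q k c τ Wt π (D ∩ A) F' T')
    (ih2 : ∀ F' T' : Set U, F' ⊆ D ∩ Bs → (π '' F').ncard ≤ 2 * k →
      (∀ u ∈ T', u ∈ D ∩ Bs ∧ u ∉ F') → Out J q k c τ Wt π (D ∩ Bs) F' T') :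
    Out J q k c τ Wt π D F T := by
  have cov' : ∀ u ∈ D, u ∉ Bs → u ∈ A := fun u hu h => by_contra fun h' => h (cov u hu h')
  have sub : ∀ X : Set U, (π '' (F ∩ X)).ncard ≤ 2 * k := fun X =>
    (ncard_le_ncard (image_mono inter_subset_left) (toFinite _)).trans hn
  have new : ∀ X Y : Set U, (π '' (F \ X)).ncard ≤ k → (∀ u ∈ D ∩ X ∩ Y, π u ∈ C) →
      (π '' ((F \ X) ∪ (D ∩ X ∩ Y))).ncard ≤ 2 * k := by
    intro X Y h1 h2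
    rw [image_union]
    have := (img_le π hCf h2).trans hC
    exact (ncard_union_le _ _).trans (by omega)
  by_cases h1 : (((D \ F) \ A) ∩ Wt).ncard ≤ τ
  · refine drop ctx A hA C hCf hC (fun u hu huA w hw hwA h => (hAB u hu).1 ⟨huA, ?_⟩) hF hT hn h1
      hc fun T' => ih1 _ T' (fun u hu => ⟨hF hu.1, hu.2⟩) (sub A)
    exact by_contra fun h' => cut u hu h' w hw hwA h
  by_cases h2 : (((D \ F) \ Bs) ∩ Wt).ncard ≤ τ
  · refine drop ctx Bs hB C hCf hC (fun u hu huB w hw hwB h => (hAB u hu).1 ⟨?_, huB⟩) hF hT hn h2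
      hc fun T' => ih2 _ T' (fun u hu => ⟨hF hu.1, hu.2⟩) (sub Bs)
    exact by_contra fun h' => cut w hw hwB u hu h' h.symm
  by_cases h3 : (π '' (F \ A)).ncard ≤ k
  · exact branch ctx A Bs hA hB cov C hCf hC hAB cut hF hT (by omega) (by omega)
      (fun T' => ih1 _ T' (fun u hu => ⟨hF hu.1, hu.2⟩) (sub A))
      fun T' => ih2 _ T' (fun u hu => hu.elim (fun h => ⟨hF h.1, cov u (hF h.1) h.2⟩)
        fun h => ⟨h.1.1, h.2⟩) (new A Bs h3 fun u hu => (hAB u hu.1.1).1 ⟨hu.1.2, hu.2⟩)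
  · have h4 : (π '' (F \ Bs)).ncard ≤ k := by
      have h5 := img_split π hA F
      have h6 : (π '' (F \ Bs)).ncard ≤ (π '' (F ∩ A)).ncard :=
        ncard_le_ncard (image_mono fun u hu => ⟨hu.1, cov' u (hF hu.1) hu.2⟩) (toFinite _)
      omega
    exact branch ctx Bs A hB hA cov' C hCf hC (fun u hu => and_comm.trans (hAB u hu))
      (fun u hu huA w hw hwB h => cut w hw hwB u hu huA h.symm) hF hT (by omega) (by omega)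
      (fun T' => ih2 _ T' (fun u hu => ⟨hF hu.1, hu.2⟩) (sub Bs))
      fun T' => ih1 _ T' (fun u hu => hu.elim (fun h => ⟨hF h.1, cov' u (hF h.1) h.2⟩)
        fun h => ⟨h.1.1, h.2⟩) (new Bs A h4 fun u hu => (hAB u hu.1.1).1 ⟨hu.2, hu.1.2⟩)

end Pool.Agent.MP_da1f04_co.G91
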