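import Pool.Agent.MP_da1f04_co.G91Ind

/-!
The decomposition lemma in its final form, and tools for colourings whose classes have smaller
clique number.
-/

set_option autoImplicit false

namespace Pool.Agent.MP_da1f04_co.G91

open Function Set

variable {U : Type}

/-- Vertices of `B` of the same type are interchangeable in the cliques of size `q`. -/
def Typ {α : Type} (J : SimpleGraph U) (q : ℕ) (B : Set U) (ν : U → α) : Prop :=
  ∀ K : Finset U, (K : Set U) ⊆ B → J.IsNClique q K → ∃ u ∈ K, ∃ w ∈ K, ∀ u' ∈ B, ∀ w' ∈ B,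
    ν u' = ν u → ν w' = ν w → J.Adj u' w'

/-- The decomposition lemma for the induced subgraphs of `J`. -/
def Dec (J : SimpleGraph U) (q c K : ℕ) : Prop :=
  ∀ (D T Wt : Set U) (τ : ℕ), J.CliqueFreeOn D (q + 1) → T ⊆ D →
    ∃ (R B : Set U) (ψ : U → ℕ) (ν : U → Set U), R ⊆ D ∧ B ⊆ D ∧ T ⊆ B ∧ (∀ u ∈ R, u ∉ B) ∧
      (∀ u ∈ R, ψ u < c) ∧ (∀ i, J.CliqueFreeOn {u | u ∈ R ∧ ψ u = i} q) ∧
      (ν '' B).ncard ≤ K * (T.ncard + (D ∩ Wt).ncard / (τ + 1) + 1) ∧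
      (∀ u ∈ B, ∀ u' ∈ B, ν u = ν u' → ∀ w ∈ (D \ R) \ B, J.Adj u w → J.Adj u' w) ∧
      Typ J q B ν ∧
      (∀ u ∈ (D \ R) \ B, ∃ P : Set U, u ∈ P ∧ P ⊆ (D \ R) \ B ∧
        (∀ x ∈ P, ∀ y ∈ (D \ R) \ B, J.Adj x y → y ∈ P) ∧ (P ∩ Wt).ncard ≤ τ) ∧
      (τ = 0 → ∀ u ∈ (D \ R) \ B, ∀ w ∈ D, w ∈ Wt → ¬ J.Adj u w)

theorem dec [Finite U] {C : GClass} {f : ℕ → ℕ} {q k : ℕ}
    (hf : ∀ (V : Type) (G : SimpleGraph V), Finite V → C V G → ∀ (s : Set V) (m : ℕ),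
      (G.induce s).CliqueFree (m + 1) → (G.induce s).Colorable (f m))
    (hq : 2 ≤ q) {W : Type} {H : SimpleGraph W} (h : Cl C k W H) {J : SimpleGraph U}
    (e : J ↪g H) : Dec J q (6 * k + f q) (k + 1 + kap k) := by
  intro D T Wt τ cf hT
  obtain ⟨R, B, ψ, ex, d⟩ := good (J := J) (q := q) (c := 6 * k + f q) (τ := τ) (Wt := Wt) hf
    (by omega) (by omega) (by omega) h e D ∅ T (fun u _ w _ _ => e.map_adj_iff.symm)
    (fun x K hK hc => by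
      obtain ⟨u, hu, w, hw, hne⟩ := Finset.one_lt_card.1 (show 1 < K.card by rw [hc.2]; omega)
      exact hne (e.injective ((hK hu).2.trans (hK hw).2.symm)))
    cf (empty_subset _) (by simp) fun u hu => ⟨hT hu, id⟩
  have hL : Lf D ∅ R B = (D \ R) \ B := by
    ext u
    exact ⟨fun h => ⟨⟨h.1, h.2.2.1⟩, h.2.2.2⟩, fun h => ⟨h.1.1, id, h.1.2, h.2⟩⟩
  refine ⟨R, B, ψ, Nb J e D R ex, fun u hu => (d.rD u hu).1, fun u hu => (d.bD u hu).1, d.tB,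
    d.dis, d.lt, d.oc, ?_, ?_, ?_, hL ▸ d.pt, fun h0 u hu w hw => d.hv h0 u (hL ▸ hu) w hw id⟩
  · have h1 := d.ty
    have h2 : (e '' T).ncard ≤ T.ncard := ncard_image_le (toFinite _)
    simp only [image_empty, ncard_empty, sdiff_empty, mul_zero, add_zero] at h1
    have h3 : max ((D ∩ Wt).ncard / (τ + 1)) 1 ≤ (D ∩ Wt).ncard / (τ + 1) + 1 :=
      max_le (Nat.le_succ _) (Nat.le_add_left _ _)
    have h4 := Nat.mul_le_mul_left (kap k) h3
    have h5 := Nat.mul_le_mul_left (k + 1) h2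
    nlinarith [Nat.zero_le (kap k * T.ncard), Nat.zero_le ((k + 1) * ((D ∩ Wt).ncard / (τ + 1)))]
  · intro u hu u' _ h1 w hw ha
    have h2 := d.nB w (hL ▸ hw) u (Or.inl hu)
    have h3 : w ∈ Nb J e D R ex u := ⟨hw.1.1, hw.1.2, ha, h2.1, fun h => h2.2 (d.sy _ _ h)⟩
    exact (h1 ▸ h3 : w ∈ Nb J e D R ex u').2.2.1
  · intro K hK hc
    by_contra hn
    refine d.ec K (fun u hu => (d.bD u (hK hu)).1) (fun u hu w hw => ?_) hc
    by_contra h1
    push Not at h1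
    refine hn ⟨u, hu, w, hw, fun u' hu' w' _ e1 e2 => ?_⟩
    have h2 : w ∈ Nb J e D R ex u := ⟨(d.bD w (hK hw)).1, fun h => d.dis w h (hK hw),
      hc.1 hu hw fun h => h1.1 (by rw [h]), h1.1.symm, h1.2⟩
    have h3 : w ∈ Nb J e D R ex u' := e1 ▸ h2
    have h4 : u' ∈ Nb J e D R ex w := ⟨(d.bD u' hu').1, fun h => d.dis u' h hu', h3.2.2.1.symm,
      h3.2.2.2.1.symm, fun h => h3.2.2.2.2 (d.sy _ _ h)⟩
    exact (e2 ▸ h4 : u' ∈ Nb J e D R ex w').2.2.1.symm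

/-- A colouring of `D` with `a` colours whose classes have no clique of size `q`. -/
structure Col (J : SimpleGraph U) (q a : ℕ) (D : Set U) (φ : U → ℕ) : Prop where
  lt : ∀ u ∈ D, φ u < a
  oc : ∀ i, J.CliqueFreeOn {u | u ∈ D ∧ φ u = i} q

/-- No neighbour of `x` in `D` has the colour of `x`. -/
def Iso (J : SimpleGraph U) (D : Set U) (φ : U → ℕ) (x : U) : Prop :=
  ∀ y ∈ D, J.Adj x y → φ y ≠ φ x

/-- Small sets without a clique of size `q` have proper colourings with `r` colours. -/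
def Fm (J : SimpleGraph U) (q n r : ℕ) : Prop :=
  ∀ D : Set U, J.CliqueFreeOn D q → D.ncard ≤ n →
    ∃ g : U → ℕ, ∀ u ∈ D, g u < r ∧ Iso J D g u

variable {J : SimpleGraph U} {q a b n r : ℕ}

theorem Fm.mono {n' r' : ℕ} (h : Fm J q n r) (hn : n' ≤ n) (hr : r ≤ r') : Fm J q n' r' := by
  intro D h1 h2
  obtain ⟨g, hg⟩ := h D h1 (h2.trans hn)
  exact ⟨g, fun u hu => ⟨(hg u hu).1.trans_le hr, (hg u hu).2⟩⟩

theorem Col.mono {D : Set U} {φ : U → ℕ} (h : Col J q a D φ) (hab : a ≤ b) : Col J q b D φ :=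
  ⟨fun u hu => (h.lt u hu).trans_le hab, h.oc⟩

theorem two_of_clique (hq : 2 ≤ q) {K : Finset U} (h : J.IsNClique q K) {u : U} (hu : u ∈ K) :
    ∃ w ∈ K, J.Adj u w := by
  obtain ⟨w, hw, hne⟩ := Finset.exists_mem_ne (show 1 < K.card by rw [h.2]; omega) u
  exact ⟨w, hw, h.1 hu hw hne.symm⟩

theorem Col.of_iso (hq : 2 ≤ q) {D : Set U} {φ : U → ℕ} (h : ∀ u ∈ D, φ u < a ∧ Iso J D φ u) :
    Col J q a D φ := by
  refine ⟨fun u hu => (h u hu).1, fun i K hK hc => ?_⟩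
  obtain ⟨u, hu⟩ := nonempty_of_clique (by omega) hc
  obtain ⟨w, hw, ha⟩ := two_of_clique hq hc hu
  exact (h u (hK hu).1).2 w (hK hw).1 ha ((hK hw).2.trans (hK hu).2.symm)

theorem Col.map (hq : 0 < q) {D : Set U} {φ : U → ℕ} (h : Col J q a D φ) {σ : ℕ → ℕ}
    (hi : Injective σ) (hσ : ∀ i < a, σ i < b) : Col J q b D fun u => σ (φ u) := by
  refine ⟨fun u hu => hσ _ (h.lt u hu), fun i K hK hc => ?_⟩
  obtain ⟨u, hu⟩ := nonempty_of_clique hq hc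
  exact h.oc (φ u) (fun w hw => ⟨(hK hw).1, hi ((hK hw).2.trans (hK hu).2.symm)⟩) hc

theorem stack {L S : Set U} {φ χ : U → ℕ} (h1 : Col J q a L φ) (h2 : Col J q b S χ) :
    ∃ φ' : U → ℕ, Col J q (a + b) (L ∪ S) φ' ∧ (∀ u ∈ S, a ≤ φ' u) ∧ (∀ u, u ∉ S → φ' u = φ u) ∧
      (∀ x ∈ S, Iso J S χ x → Iso J (L ∪ S) φ' x) ∧
      ∀ x ∈ L, x ∉ S → Iso J L φ x → Iso J (L ∪ S) φ' x := by
  classical
  let φ' : U → ℕ := fun u => if u ∈ S then a + χ u else φ u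
  have e1 : ∀ u ∈ S, φ' u = a + χ u := fun u hu => if_pos hu
  have e2 : ∀ u, u ∉ S → φ' u = φ u := fun u hu => if_neg hu
  have e3 : ∀ u ∈ L ∪ S, u ∉ S → φ' u < a := fun u hu h => by
    rw [e2 u h]
    exact h1.lt u (hu.resolve_right h)
  refine ⟨φ', ⟨fun u hu => ?_, fun i K hK hc => ?_⟩, fun u hu => by rw [e1 u hu]; omega, e2,
    fun x hx hi y hy ha => ?_, fun x hx hxS hi y hy ha => ?_⟩
  · by_cases h : u ∈ S
    · have := h2.lt u h
      rw [e1 u h]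
      omega
    · have := e3 u hu h
      omega
  · by_cases hi : i < a
    · have hS : ∀ u ∈ K, u ∉ S := fun u hu h => by
        have := (hK hu).2
        rw [e1 u h] at this
        omega
      exact h1.oc i (fun u hu => ⟨(hK hu).1.resolve_right (hS u hu),
        (e2 u (hS u hu)).symm.trans (hK hu).2⟩) hc
    · have hS : ∀ u ∈ K, u ∈ S := fun u hu => by_contra fun h =>
        hi ((hK hu).2 ▸ e3 u (hK hu).1 h)
      refine h2.oc (i - a) (fun u hu => ⟨hS u hu, ?_⟩) hc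
      have := (hK hu).2
      rw [e1 u (hS u hu)] at this
      omega
  · by_cases h : y ∈ S
    · have := hi y h ha
      rw [e1 y h, e1 x hx]
      omega
    · have := e3 y hy h
      rw [e1 x hx]
      omega
  · by_cases h : y ∈ S
    · have := e3 x (Or.inl hx) hxS
      rw [e1 y h]
      omega
    · rw [e2 y h, e2 x hxS]
      exact hi y (hy.resolve_right h) ha

theorem finer [Finite U] (hq : 0 < q) {S X : Set U} {χ : U → ℕ} (h : Col J q b S χ)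
    (hX : X.ncard ≤ n) (hr : Fm J q n r) :
    ∃ φ : U → ℕ, Col J q (b * (r + 1)) S φ ∧ ∀ x ∈ S, x ∈ X → Iso J S φ x := by
  classical
  have h1 : ∀ i, ∃ g : U → ℕ, ∀ u ∈ {u | (u ∈ S ∧ χ u = i) ∧ u ∈ X}, g u < r ∧
      Iso J {u | (u ∈ S ∧ χ u = i) ∧ u ∈ X} g u := fun i =>
    hr _ (cfs (h.oc i) fun _ hu => hu.1)
      ((ncard_le_ncard (fun _ hu => hu.2) (toFinite _)).trans hX)
  choose g hg using h1
  let j : U → ℕ := fun u => if u ∈ X then g (χ u) u + 1 else 0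
  have hj : ∀ u ∈ S, j u < r + 1 := by
    intro u hu
    by_cases hx : u ∈ X
    · have := (hg (χ u) u ⟨⟨hu, rfl⟩, hx⟩).1
      simp only [j, if_pos hx]
      omega
    · simp only [j, if_neg hx]
      omega
  have key : ∀ u ∈ S, ∀ w ∈ S, j u + (r + 1) * χ u = j w + (r + 1) * χ w →
      χ u = χ w ∧ j u = j w := by
    intro u hu w hw e
    have e1 := congrArg (· / (r + 1)) e
    simp only [Nat.add_mul_div_left _ _ (Nat.succ_pos r), Nat.div_eq_of_lt (hj u hu),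
      Nat.div_eq_of_lt (hj w hw), zero_add] at e1
    rw [e1] at e
    exact ⟨e1, by omega⟩
  refine ⟨fun u => j u + (r + 1) * χ u, ⟨fun u hu => ?_, fun i K hK hc => ?_⟩,
    fun x hx hX y hy ha e => ?_⟩
  · have h2 := hj u hu
    have h3 := Nat.mul_le_mul_left (r + 1) (h.lt u hu)
    rw [mul_comm b]
    rw [Nat.mul_succ] at h3
    omega
  · obtain ⟨u, hu⟩ := nonempty_of_clique hq hc
    exact h.oc (χ u) (fun w hw => ⟨(hK hw).1,
      (key w (hK hw).1 u (hK hu).1 ((hK hw).2.trans (hK hu).2.symm)).1⟩) hc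
  · obtain ⟨e1, e2⟩ := key y hy x hx e
    by_cases hY : y ∈ X
    · simp only [j, if_pos hX, if_pos hY, e1] at e2
      exact (hg (χ x) x ⟨⟨hx, rfl⟩, hX⟩).2 y ⟨⟨hy, e1⟩, hY⟩ ha (by omega)
    · simp only [j, if_pos hX, if_neg hY] at e2
      omega

theorem pieces (hq : 0 < q) (L X : Set U) (Y : U → ℕ → Prop)
    (h : ∀ u ∈ L, ∃ P : Set U, u ∈ P ∧ P ⊆ L ∧ (∀ x ∈ P, ∀ y ∈ L, J.Adj x y → y ∈ P) ∧
      ∀ Q ⊆ P, ∃ φ : U → ℕ, Col J q a Q φ ∧ ∀ x ∈ Q, Y x (φ x) ∧ (x ∈ X → Iso J Q φ x)) :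
    ∃ φ : U → ℕ, Col J q a L φ ∧ ∀ x ∈ L, Y x (φ x) ∧ (x ∈ X → Iso J L φ x) := by
  classical
  let cp : U → Set U := fun u =>
    {w | ∀ P : Set U, (∀ x ∈ P, ∀ y ∈ L, J.Adj x y → y ∈ P) → u ∈ P → w ∈ P}
  have c1 : ∀ u, u ∈ cp u := fun u _ _ h => h
  have c2 : ∀ u ∈ L, ∀ w ∈ L, J.Adj u w → cp u = cp w := by
    intro u hu w hw ha
    ext z
    exact ⟨fun hz P hP h => hz P hP (hP w h u hu ha.symm), fun hz P hP h => hz P hP (hP u h w hw ha)⟩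
  let Φ : Set U → (U → ℕ) → Prop := fun Q φ =>
    Col J q a Q φ ∧ ∀ x ∈ Q, Y x (φ x) ∧ (x ∈ X → Iso J Q φ x)
  let ch : Set U → U → ℕ := fun Q => if h : ∃ φ, Φ Q φ then h.choose else fun _ => 0
  have c3 : ∀ u ∈ L, Φ (cp u) (ch (cp u)) := by
    intro u hu
    obtain ⟨P, h1, -, h3, h4⟩ := h u hu
    have h5 : ∃ φ, Φ (cp u) φ := h4 _ fun w hw => hw P h3 h1
    simp only [ch, dif_pos h5]
    exact h5.choose_spec
  refine ⟨fun u => ch (cp u) u, ⟨fun u hu => (c3 u hu).1.lt u (c1 u), fun i K hK hc => ?_⟩,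
    fun x hx => ⟨((c3 x hx).2 x (c1 x)).1, fun hX y hy ha => ?_⟩⟩
  · obtain ⟨u, hu⟩ := nonempty_of_clique hq hc
    refine (c3 u (hK hu).1).1.oc i (fun w hw => ?_) hc
    have e : cp w = cp u := by
      by_cases h : w = u
      · rw [h]
      · exact c2 w (hK hw).1 u (hK hu).1 (hc.1 hw hu h)
    exact ⟨e ▸ c1 w, e ▸ (hK hw).2⟩
  · have e := c2 x hx y hy ha
    have := ((c3 x hx).2 x (c1 x)).2 hX y (e ▸ c1 y) ha
    simp only [← e]
    exact this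

theorem reps [Finite U] {α : Type} (S : Set U) (ν : U → α) :
    ∃ ρ : U → U, (∀ u ∈ S, ρ u ∈ S ∧ ν (ρ u) = ν u) ∧ (ρ '' S).ncard ≤ (ν '' S).ncard := by
  classical
  let ρ : U → U := fun u => if h : ∃ w ∈ S, ν w = ν u then h.choose else u
  refine ⟨ρ, fun u hu => ?_, factor_le S ρ ν fun u hu w hw e => ?_⟩
  · have h : ∃ w ∈ S, ν w = ν u := ⟨u, hu, rfl⟩
    simp only [ρ, dif_pos h]
    exact h.choose_spec
  · have h : ∃ z ∈ S, ν z = ν w := ⟨w, hw, rfl⟩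
    simp only [ρ, e, dif_pos h]

end Pool.Agent.MP_da1f04_co.G91
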