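import Pool.Agent.MP_da1f04_co.G91Out

/-!
The decomposition lemma at a cut with a light side.
-/

set_option autoImplicit false

namespace Pool.Agent.MP_da1f04_co.G91

open Function Set

variable {U V : Type} {J : SimpleGraph U} {q k c τ : ℕ} {Wt : Set U}

theorem drop [Finite U] {π : U → V} {D F T : Set U} (ctx : Ctx J q π D) (A : Set U)
    (hA : ∀ u w, π u = π w → u ∈ A → w ∈ A) (C : Set V) (hCf : C.Finite) (hC : C.ncard ≤ k)
    (cut : ∀ u ∈ D, u ∈ A → ∀ w ∈ D, w ∉ A → J.Adj u w → π u ∈ C) (hF : F ⊆ D)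
    (hT : ∀ u ∈ T, u ∈ D ∧ u ∉ F) (hn : (π '' F).ncard ≤ 2 * k)
    (light : (((D \ F) \ A) ∩ Wt).ncard ≤ τ) (hc : 6 * k ≤ c)
    (ih : ∀ T' : Set U, (∀ u ∈ T', u ∈ D ∩ A ∧ u ∉ F ∩ A) →
      Out J q k c τ Wt π (D ∩ A) (F ∩ A) T') : Out J q k c τ Wt π D F T := by
  classical
  obtain ⟨R₁, B₁, ψ₁, ex, d⟩ := ih
    ((T ∩ A) ∪ {u | (F \ A).Nonempty ∧ u ∈ D ∧ u ∈ A ∧ u ∉ F ∧ π u ∈ C}) (by
      rintro u (h | h)
      · exact ⟨⟨(hT u h.1).1, h.2⟩, fun h' => (hT u h.1).2 h'.1⟩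
      · exact ⟨⟨h.2.1, h.2.2.1⟩, fun h' => h.2.2.2.1 h'.1⟩)
  have rA : ∀ u ∈ R₁, u ∈ D ∧ u ∈ A ∧ u ∉ F := fun u hu =>
    ⟨(d.rD u hu).1.1, (d.rD u hu).1.2, fun h => (d.rD u hu).2 ⟨h, (d.rD u hu).1.2⟩⟩
  have bA : ∀ u ∈ B₁, u ∈ D ∧ u ∈ A ∧ u ∉ F := fun u hu =>
    ⟨(d.bD u hu).1.1, (d.bD u hu).1.2, fun h => (d.bD u hu).2 ⟨h, (d.bD u hu).1.2⟩⟩
  have exA : ∀ u w, ex u w → u ∈ A ∧ w ∈ A := fun u w h =>
    ⟨(d.eD u w h).2, (d.eD w u (d.sy u w h)).2⟩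
  have hΦ : (ψ₁ '' {u | u ∈ R₁ ∧ π u ∈ C}).ncard ≤ k :=
    (factor_le _ ψ₁ π fun u hu w hw => d.fc u hu.1 w hw.1).trans
      ((img_le π hCf fun u hu => hu.2).trans hC)
  set Φ := ψ₁ '' {u | u ∈ R₁ ∧ π u ∈ C} with hΦd
  have hSf : (C ∪ π '' F).Finite := hCf.union (toFinite _)
  have hS : (C ∪ π '' F).ncard ≤ 3 * k := (ncard_union_le _ _).trans (by omega)
  obtain ⟨γ₁, i₁, p₁⟩ := inj_avoid hSf (toFinite Φ) (c := c) (by omega)
  obtain ⟨γ₂, i₂, p₂⟩ := inj_avoid (toFinite (π '' F)) ((toFinite Φ).union (hSf.image γ₁))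
    (c := c) (by
      have h1 := ncard_union_le Φ (γ₁ '' (C ∪ π '' F))
      have h2 := ncard_image_le (f := γ₁) hSf
      omega)
  let Pn : V → V → Prop := fun y x => x ∈ C ∪ π '' F ∧ x ≠ y ∧
    ∃ u ∈ D, ∃ w ∈ D, π u = y ∧ π w = x ∧ J.Adj u w
  let an : V → V := fun y => if h : ∃ x, Pn y x then h.choose else y
  have han : ∀ y, (∃ x, Pn y x) → Pn y (an y) := by
    intro y h
    simp only [an, dif_pos h]
    exact h.choose_spec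
  let RQ : Set U := {u | u ∈ D ∧ u ∉ F ∧ u ∉ A ∧ π u ∉ π '' (T \ A) ∧
    (π u ∈ π '' F ∨ ∃ x, Pn (π u) x)}
  let BQ : Set U := {u | u ∈ D ∧ u ∉ F ∧ u ∉ A ∧ π u ∈ π '' (T \ A)}
  let ψ : U → ℕ := fun u => if u ∈ A then ψ₁ u else if π u ∈ π '' F then γ₂ (π u)
    else γ₁ (an (π u))
  have ψA : ∀ u ∈ A, ψ u = ψ₁ u := fun u hu => if_pos hu
  have ψF : ∀ u, u ∉ A → π u ∈ π '' F → ψ u = γ₂ (π u) := fun u h1 h2 => by
    simp only [ψ, if_neg h1, if_pos h2]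
  have ψN : ∀ u, u ∉ A → π u ∉ π '' F → ψ u = γ₁ (an (π u)) := fun u h1 h2 => by
    simp only [ψ, if_neg h1, if_neg h2]
  have ψQ : ∀ u ∈ RQ, ψ u < c ∧ ψ u ∉ Φ := by
    intro u hu
    by_cases h : π u ∈ π '' F
    · rw [ψF u hu.2.2.1 h]
      exact ⟨(p₂ _ h).1, fun h' => (p₂ _ h).2 (Or.inl h')⟩
    · rw [ψN u hu.2.2.1 h]
      exact p₁ _ (han _ (hu.2.2.2.2.resolve_left h)).1
  have neA : ∀ u w, u ∈ A → w ∉ A → π u ≠ π w := fun u w hu hw e => hw (hA u w e hu)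
  -- a vertex of the light side that is left over has no neighbour on the other side
  have lq : ∀ u ∈ Lf D F (R₁ ∪ RQ) (B₁ ∪ BQ), u ∉ A →
      π u ∉ π '' (T \ A) ∧ π u ∉ π '' F ∧ ¬ ∃ x, Pn (π u) x := by
    intro u hu huA
    have h1 : π u ∉ π '' (T \ A) := fun h => hu.2.2.2 (Or.inr ⟨hu.1, hu.2.1, huA, h⟩)
    exact ⟨h1, fun h => hu.2.2.1 (Or.inr ⟨hu.1, hu.2.1, huA, h1, Or.inl h⟩),
      fun h => hu.2.2.1 (Or.inr ⟨hu.1, hu.2.1, huA, h1, Or.inr h⟩)⟩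
  have lqA : ∀ u ∈ Lf D F (R₁ ∪ RQ) (B₁ ∪ BQ), u ∉ A → ∀ w ∈ D, w ∈ A → ¬ J.Adj u w := by
    intro u hu huA w hw hwA h
    exact (lq u hu huA).2.2 ⟨π w, Or.inl (cut w hw hwA u hu.1 huA h.symm), neA w u hwA huA,
      u, hu.1, w, hw, rfl, rfl, h⟩
  have l1 : ∀ u ∈ Lf D F (R₁ ∪ RQ) (B₁ ∪ BQ), u ∈ A → u ∈ Lf (D ∩ A) (F ∩ A) R₁ B₁ :=
    fun u hu huA => ⟨⟨hu.1, huA⟩, fun h => hu.2.1 h.1, fun h => hu.2.2.1 (Or.inl h),
      fun h => hu.2.2.2 (Or.inl h)⟩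
  have l2 : ∀ u ∈ Lf (D ∩ A) (F ∩ A) R₁ B₁, u ∈ Lf D F (R₁ ∪ RQ) (B₁ ∪ BQ) :=
    fun u hu => ⟨hu.1.1, fun h => hu.2.1 ⟨h, hu.1.2⟩,
      fun h => h.elim hu.2.2.1 fun h => h.2.2.1 hu.1.2,
      fun h => h.elim hu.2.2.2 fun h => h.2.2.1 hu.1.2⟩
  have eu : ∀ u u' w, u' ∈ D → π u = π u' → π w ≠ π u → ex u w → ex u' w :=
    fun u u' w hu' e h1 h2 => d.eu u u' w ⟨hu', hA u u' e (exA _ _ h2).1⟩ e h1 h2
  refine ⟨R₁ ∪ RQ, B₁ ∪ BQ, ψ, ex, ?_, ?_, ?_, ?_, ?_, ?_, ?_, d.sy, fun u w h => (d.eD u w h).1,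
    eu, ?_, ?_, ?_, ?_, ?_, ?_⟩
  · rintro u (h | h)
    exacts [⟨(rA u h).1, (rA u h).2.2⟩, ⟨h.1, h.2.1⟩]
  · rintro u (h | h)
    exacts [⟨(bA u h).1, (bA u h).2.2⟩, ⟨h.1, h.2.1⟩]
  · intro u hu
    by_cases h : u ∈ A
    · exact Or.inl (d.tB (Or.inl ⟨hu, h⟩))
    · exact Or.inr ⟨(hT u hu).1, (hT u hu).2, h, u, ⟨hu, h⟩, rfl⟩
  · rintro u (h | h) (h' | h')
    exacts [d.dis u h h', h'.2.2.1 (rA u h).2.1, h.2.2.1 (bA u h').2.1, h.2.2.2.1 h'.2.2.2]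
  · rintro u (h | h)
    · rw [ψA u (rA u h).2.1]
      exact d.lt u h
    · exact (ψQ u h).1
  · intro i K hK hq
    by_cases h1 : ∀ u ∈ K, u ∈ R₁
    · exact d.oc i (fun u hu => ⟨h1 u hu, (ψA u (rA u (h1 u hu)).2.1).symm.trans (hK hu).2⟩) hq
    push Not at h1
    obtain ⟨u, hu, huR⟩ := h1
    have huQ : u ∈ RQ := (hK hu).1.resolve_left huR
    have hall : ∀ w ∈ K, w ∈ RQ := by
      intro w hw
      rcases (hK hw).1 with h | h
      · exfalso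
        have hwu : w ≠ u := fun e => huR (e ▸ h)
        refine (ψQ u huQ).2 ⟨w, ⟨h, cut w (rA w h).1 (rA w h).2.1 u huQ.1 huQ.2.2.1
          (hq.1 hw hu hwu)⟩, ?_⟩
        rw [← ψA w (rA w h).2.1, (hK hw).2, (hK hu).2]
      · exact h
    have hKD : (K : Set U) ⊆ D := fun w hw => (hall w hw).1
    have mix : ∀ w ∈ K, ∀ w' ∈ K, π w ∈ π '' F → π w' ∈ π '' F := by
      intro w hw w' hw' h
      by_contra h'
      refine (p₂ _ h).2 (Or.inr ⟨an (π w'), (han _ ((hall w' hw').2.2.2.2.resolve_left h')).1, ?_⟩)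
      rw [← ψN w' (hall w' hw').2.2.1 h', ← ψF w (hall w hw).2.2.1 h, (hK hw).2, (hK hw').2]
    by_cases h : π u ∈ π '' F
    · refine ctx.one hKD (x := π u) (fun w hw => i₂ (mix u hu w hw h) h ?_) hq
      rw [← ψF w (hall w hw).2.2.1 (mix u hu w hw h), ← ψF u huQ.2.2.1 h, (hK hw).2, (hK hu).2]
    · have hnF : ∀ w ∈ K, π w ∉ π '' F := fun w hw h' => h (mix w hw u hu h')
      have hP : ∀ w ∈ K, Pn (π w) (an (π w)) := fun w hw =>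
        han _ ((hall w hw).2.2.2.2.resolve_left (hnF w hw))
      have hE : ∀ w ∈ K, an (π w) = an (π u) := by
        intro w hw
        refine i₁ (hP w hw).1 (hP u hu).1 ?_
        rw [← ψN w (hall w hw).2.2.1 (hnF w hw), ← ψN u huQ.2.2.1 h, (hK hw).2, (hK hu).2]
      obtain ⟨-, -, -, -, z, hz, -, ez, -⟩ := hP u hu
      refine SimpleGraph.CliqueFreeOn.of_succ J ctx.cf hz (t := K) (fun w hw => ⟨hKD hw, ?_⟩) hq
      obtain ⟨-, h2, w', hw', z', hz', e1, e2, h3⟩ := hP w hw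
      have h4 : J.Adj w z' := ctx.uni w' hw' w (hKD hw) z' hz' e1 (by rw [e1, e2]; exact h2) h3
      exact ctx.uni z' hz' z hz w (hKD hw) (by rw [e2, ez, hE w hw]) (by rw [e2]; exact h2.symm)
        h4.symm
  · rintro u (h | h) w (h' | h') e
    · rw [ψA u (rA u h).2.1, ψA w (rA w h').2.1]
      exact d.fc u h w h' e
    · exact absurd e (neA u w (rA u h).2.1 h'.2.2.1)
    · exact absurd e.symm (neA w u (rA w h').2.1 h.2.2.1)
    · simp only [ψ, if_neg h.2.2.1, if_neg h'.2.2.1, e]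
  · intro K hK hp hq
    by_cases h1 : ∀ u ∈ K, u ∈ A
    · exact d.ec K (fun u hu => ⟨hK hu, h1 u hu⟩) hp hq
    push Not at h1
    obtain ⟨u, hu, huA⟩ := h1
    exact ctx.one hK (x := π u)
      (fun w hw => (hp w hw u hu).resolve_right fun h => huA (exA _ _ h).2) hq
  · intro u hu w hw hadj
    by_cases huA : u ∈ A
    · by_cases hwA : w ∈ A
      · exact d.nF u (l1 u hu huA) w ⟨hw, hwA⟩ hadj
      · exact hu.2.2.2 (Or.inl (d.tB (Or.inr ⟨⟨w, hw, hwA⟩, hu.1, huA, hu.2.1,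
          cut u hu.1 huA w (hF hw) hwA hadj⟩)))
    · obtain ⟨-, h2, h3⟩ := lq u hu huA
      exact h3 ⟨π w, Or.inr ⟨w, hw, rfl⟩, fun e => h2 ⟨w, hw, e⟩, u, hu.1, w, hF hw, rfl, rfl, hadj⟩
  · intro u hu w hw
    by_cases huA : u ∈ A
    · by_cases hwA : w ∈ A
      · refine d.nB u (l1 u hu huA) w ?_
        rcases hw with (h | h) | h
        exacts [Or.inl h, absurd hwA h.2.2.1, Or.inr ⟨h, hwA⟩]
      · exact ⟨neA u w huA hwA, fun h => hwA (exA _ _ h).2⟩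
    · refine ⟨fun e => ?_, fun h => huA (exA _ _ h).1⟩
      obtain ⟨h1, h2, -⟩ := lq u hu huA
      rcases hw with (h | h) | h
      exacts [huA (hA w u e.symm (bA w h).2.1), h1 (e ▸ h.2.2.2), h2 ⟨w, h, e.symm⟩]
  · intro u hu
    by_cases huA : u ∈ A
    · obtain ⟨P, h1, h2, h3, h4⟩ := d.pt u (l1 u hu huA)
      refine ⟨P, h1, fun x hx => l2 x (h2 hx), fun x hx y hy hadj => ?_, h4⟩
      by_cases hyA : y ∈ A
      · exact h3 x hx y (l1 y hy hyA) hadj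
      · exact absurd hadj.symm (lqA y hy hyA x (h2 hx).1.1 (h2 hx).1.2)
    · refine ⟨Lf D F (R₁ ∪ RQ) (B₁ ∪ BQ) \ A, ⟨hu, huA⟩, sdiff_subset,
        fun x hx y hy hadj => ⟨hy, fun hyA => lqA x hx.1 hx.2 y hy.1 hyA hadj⟩,
        le_trans (ncard_le_ncard ?_ (toFinite _)) light⟩
      exact fun x hx => ⟨⟨⟨hx.1.1.1, hx.1.1.2.1⟩, hx.1.2⟩, hx.2⟩
  · intro h0 u hu w hw hwF hwW
    have hwA : w ∈ A := by
      by_contra hwA
      have : 0 < (((D \ F) \ A) ∩ Wt).ncard :=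
        (ncard_pos (toFinite _)).2 ⟨w, ⟨⟨hw, hwF⟩, hwA⟩, hwW⟩
      omega
    by_cases huA : u ∈ A
    · exact d.hv h0 u (l1 u hu huA) w ⟨hw, hwA⟩ (fun h => hwF h.1) hwW
    · exact lqA u hu huA w hw hwA
  · have ty := d.ty
    have m1 : max ((((D ∩ A) \ (F ∩ A)) ∩ Wt).ncard / (τ + 1)) 1 ≤
        max (((D \ F) ∩ Wt).ncard / (τ + 1)) 1 := by
      refine max_le_max (Nat.div_le_div_right (ncard_le_ncard ?_ (toFinite _))) le_rfl
      exact fun x hx => ⟨⟨hx.1.1.1, fun h => hx.1.2 ⟨h, hx.1.1.2⟩⟩, hx.2⟩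
    have m2 := Nat.mul_le_mul_left (kap k) m1
    have sT := img_split π hA T
    have sF := img_split π hA F
    have nbe : ∀ u ∈ B₁, (∀ w ∈ D, w ∉ A → J.Adj u w → w ∈ RQ) →
        Nb J π D (R₁ ∪ RQ) ex u = Nb J π (D ∩ A) R₁ ex u := by
      intro u _ h
      ext w
      constructor
      · rintro ⟨h1, h2, h3, h4⟩
        exact ⟨⟨h1, by_contra fun hw => h2 (Or.inr (h w h1 hw h3))⟩, fun h => h2 (Or.inl h), h3, h4⟩
      · rintro ⟨h1, h2, h3, h4⟩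
        exact ⟨h1.1, fun h => h.elim h2 fun h => h.2.2.1 h1.2, h3, h4⟩
    have uni := nb_uni (R := R₁ ∪ RQ) ctx eu
    have gen : (Nb J π D (R₁ ∪ RQ) ex '' (B₁ ∪ BQ)).ncard ≤
        (Nb J π (D ∩ A) R₁ ex '' B₁).ncard + k + (π '' (T \ A)).ncard := by
      have s1 : Nb J π D (R₁ ∪ RQ) ex '' (B₁ ∪ BQ) ⊆ (Nb J π (D ∩ A) R₁ ex '' B₁ ∪
          Nb J π D (R₁ ∪ RQ) ex '' {u | u ∈ D ∧ π u ∈ C}) ∪ Nb J π D (R₁ ∪ RQ) ex '' BQ := by
        rintro _ ⟨u, hu | hu, rfl⟩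
        · by_cases h : π u ∈ C
          · exact Or.inl (Or.inr ⟨u, ⟨(bA u hu).1, h⟩, rfl⟩)
          · exact Or.inl (Or.inl ⟨u, hu, (nbe u hu fun w hw hwA hadj =>
              absurd (cut u (bA u hu).1 (bA u hu).2.1 w hw hwA hadj) h).symm⟩)
        · exact Or.inr ⟨u, hu, rfl⟩
      have s2 : (Nb J π D (R₁ ∪ RQ) ex '' {u | u ∈ D ∧ π u ∈ C}).ncard ≤ k :=
        (factor_le _ _ π fun u hu w hw => uni u hu.1 w hw.1).trans
          ((img_le π hCf fun u hu => hu.2).trans hC)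
      have s3 : (Nb J π D (R₁ ∪ RQ) ex '' BQ).ncard ≤ (π '' (T \ A)).ncard :=
        (factor_le _ _ π fun u hu w hw => uni u hu.1 w hw.1).trans
          (img_le π (toFinite _) fun u hu => hu.2.2.2)
      refine (ncard_le_ncard s1 (toFinite _)).trans ((ncard_union_le _ _).trans ?_)
      exact add_le_add ((ncard_union_le _ _).trans (add_le_add le_rfl s2)) s3
    have sT' := Nat.mul_le_mul_left (k + 1) sT
    have sF' := Nat.mul_le_mul_left (lam k) sF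
    rw [mul_add] at sT' sF'
    rcases (F \ A).eq_empty_or_nonempty with hFA | hFA
    · have e : (T ∩ A) ∪ {u | (F \ A).Nonempty ∧ u ∈ D ∧ u ∈ A ∧ u ∉ F ∧ π u ∈ C} = T ∩ A := by
        simp [hFA]
      rw [e] at ty
      rcases (T \ A).eq_empty_or_nonempty with hTA | hTA
      · have s1 : Nb J π D (R₁ ∪ RQ) ex '' (B₁ ∪ BQ) ⊆ Nb J π (D ∩ A) R₁ ex '' B₁ := by
          rintro _ ⟨u, hu | hu, rfl⟩
          · refine ⟨u, hu, (nbe u hu fun w hw hwA hadj => ⟨hw, fun h => ?_, hwA, by simp [hTA],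
              Or.inr ⟨π u, Or.inl (cut u (bA u hu).1 (bA u hu).2.1 w hw hwA hadj),
                neA u w (bA u hu).2.1 hwA, w, hw, u, (bA u hu).1, rfl, rfl, hadj.symm⟩⟩).symm⟩
            exact (hFA ▸ (⟨h, hwA⟩ : w ∈ F \ A) : w ∈ (∅ : Set U))
          · exact absurd hu.2.2.2 (by simp [hTA])
        have := ncard_le_ncard s1 (toFinite _)
        omega
      · have h1 : 1 ≤ (π '' (T \ A)).ncard := (ncard_pos (toFinite _)).2 (hTA.image π)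
        have h2 : k + (π '' (T \ A)).ncard ≤ (k + 1) * (π '' (T \ A)).ncard := by nlinarith
        omega
    · have h1 : 1 ≤ (π '' (F \ A)).ncard := (ncard_pos (toFinite _)).2 (hFA.image π)
      have h2 : lam k ≤ lam k * (π '' (F \ A)).ncard := Nat.le_mul_of_pos_right _ h1
      have h3 : (π '' ((T ∩ A) ∪ {u | (F \ A).Nonempty ∧ u ∈ D ∧ u ∈ A ∧ u ∉ F ∧ π u ∈ C})).ncard ≤
          (π '' (T ∩ A)).ncard + k := by
        rw [image_union]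
        exact (ncard_union_le _ _).trans (add_le_add le_rfl
          ((img_le π hCf fun u hu => hu.2.2.2.2).trans hC))
      have h4 := Nat.mul_le_mul_left (k + 1) h3
      have h5 : (k + 1) * k + k = lam k := by
        unfold lam
        ring
      have h6 : (π '' (T \ A)).ncard ≤ (k + 1) * (π '' (T \ A)).ncard :=
        Nat.le_mul_of_pos_left _ (Nat.succ_pos k)
      rw [mul_add] at h4
      omega

end Pool.Agent.MP_da1f04_co.G91
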