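import Pool.Agent.MP_da1f04_co.G91Step

/-!
The solution of the recursion.
-/

set_option autoImplicit false

namespace Pool.Agent.MP_da1f04_co.G91

open Function Set

theorem succ_pow_le (s e : ℕ) : (s + 1) ^ (e + 1) ≤ s ^ (e + 1) + (e + 1) * (s + 1) ^ e := by
  induction e with
  | zero => simp
  | succ e ih =>
    have h1 := Nat.mul_le_mul_right s ih
    have h2 : (e + 1) * (s + 1) ^ e * s ≤ (e + 1) * (s + 1) ^ (e + 1) := by
      rw [mul_assoc, pow_succ]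
      exact Nat.mul_le_mul_left _ (Nat.mul_le_mul_left _ (Nat.le_succ s))
    rw [add_mul, ← pow_succ] at h1
    calc (s + 1) ^ (e + 1 + 1) = (s + 1) ^ (e + 1) * s + (s + 1) ^ (e + 1) := by ring
      _ ≤ s ^ (e + 1 + 1) + (e + 1) * (s + 1) ^ (e + 1) + (s + 1) ^ (e + 1) := by omega
      _ = _ := by ring

theorem two_mul_pow {s : ℕ} (hs : 1 ≤ s) (e : ℕ) : (s + 1) ^ e ≤ 2 ^ e * s ^ e := by
  rw [← mul_pow]
  exact Nat.pow_le_pow_left (by omega) _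

theorem num_size {s : ℕ} (hs : 1 ≤ s) (e K : ℕ) :
    K * 2 ^ 2 ^ (s + 1) ^ (e + 2) ≤
      (2 ^ 2 ^ s ^ (e + 2)) ^ (2 ^ ((e + 2) * 2 ^ (e + 1) * s ^ (e + 1)) + K + 1) := by
  have h1 : (s + 1) ^ (e + 2) ≤ s ^ (e + 2) + (e + 2) * 2 ^ (e + 1) * s ^ (e + 1) := by
    have := Nat.mul_le_mul_left (e + 2) (two_mul_pow hs (e + 1))
    rw [← mul_assoc] at this
    exact (succ_pow_le s (e + 1)).trans (add_le_add le_rfl this)
  have h2 : K ≤ (2 ^ 2 ^ s ^ (e + 2)) ^ (K + 1) :=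
    (Nat.lt_two_pow_self.le.trans (Nat.pow_le_pow_right two_pos (Nat.le_succ K))).trans
      (Nat.pow_le_pow_left (Nat.le_self_pow (by positivity) 2) _)
  rw [add_assoc (2 ^ _) K 1, pow_add _ _ (K + 1), mul_comm K]
  refine Nat.mul_le_mul ?_ h2
  rw [← pow_mul, ← pow_add]
  exact Nat.pow_le_pow_right two_pos (Nat.pow_le_pow_right two_pos h1)

theorem num_col {s : ℕ} (hs : 1 ≤ s) (e K C c₀ D c : ℕ)
    (h1 : (2 ^ D + K) * C * (c₀ + 1) ^ 2 ^ e ≤ c) (h2 : 4 * (c₀ + 1) ^ 2 ^ e ≤ c) :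
    (3 * c ^ s ^ (e + 1) + (2 ^ (D * s ^ (e + 1)) + K) * (C * (c₀ ^ (s + 1) ^ e + 1))) *
      (c₀ ^ (s + 1) ^ e + 1) ≤ c ^ (s + 1) ^ (e + 1) := by
  set c₁ := (c₀ + 1) ^ 2 ^ e with hc₁
  have p1 : 1 ≤ c₁ := Nat.one_le_pow _ _ (Nat.succ_pos _)
  have hy : s ^ e ≠ 0 := by positivity
  have hx : s ^ (e + 1) ≠ 0 := by positivity
  have hyx : s ^ e ≤ s ^ (e + 1) := Nat.pow_le_pow_right hs (Nat.le_succ e)
  have a1 : c₀ ^ (s + 1) ^ e + 1 ≤ c₁ ^ s ^ e := by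
    have := pow_add_pow_le (x := c₀) (y := 1) (Nat.zero_le _) (Nat.zero_le _)
      (show (s + 1) ^ e ≠ 0 by positivity)
    rw [one_pow] at this
    rw [hc₁, ← pow_mul]
    exact this.trans (Nat.pow_le_pow_right (Nat.succ_pos _) (two_mul_pow hs e))
  have a2 : 2 ^ (D * s ^ (e + 1)) + K ≤ (2 ^ D + K) ^ s ^ (e + 1) := by
    rw [pow_mul]
    exact (add_le_add le_rfl (Nat.le_self_pow hx K)).trans
      (pow_add_pow_le (Nat.zero_le _) (Nat.zero_le _) hx)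
  have a3 : (2 ^ (D * s ^ (e + 1)) + K) * (C * (c₀ ^ (s + 1) ^ e + 1)) ≤ c ^ s ^ (e + 1) := by
    refine le_trans ?_ (Nat.pow_le_pow_left h1 _)
    rw [mul_pow, mul_pow, mul_assoc]
    exact Nat.mul_le_mul a2 (Nat.mul_le_mul (Nat.le_self_pow hx C)
      (a1.trans (Nat.pow_le_pow_right p1 hyx)))
  have a4 : 4 * c₁ ^ s ^ e ≤ c ^ s ^ e := by
    refine le_trans ?_ (Nat.pow_le_pow_left h2 _)
    rw [mul_pow]
    exact Nat.mul_le_mul_right _ (Nat.le_self_pow hy 4)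
  have a5 : s ^ (e + 1) + s ^ e ≤ (s + 1) ^ (e + 1) := by
    have : s ^ e * (s + 1) ≤ (s + 1) ^ e * (s + 1) :=
      Nat.mul_le_mul_right _ (Nat.pow_le_pow_left (Nat.le_succ s) e)
    rw [pow_succ, pow_succ]
    linarith [mul_add (s ^ e) s 1]
  calc _ ≤ (4 * c ^ s ^ (e + 1)) * c₁ ^ s ^ e := Nat.mul_le_mul (by omega) a1
    _ = c ^ s ^ (e + 1) * (4 * c₁ ^ s ^ e) := by ring
    _ ≤ c ^ s ^ (e + 1) * c ^ s ^ e := Nat.mul_le_mul_left _ a4
    _ ≤ _ := by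
      rw [← pow_add]
      exact Nat.pow_le_pow_right (by omega) a5

theorem Fm.triv {U : Type} [Finite U] (J : SimpleGraph U) (q n : ℕ) : Fm J q n n := by
  intro D _ hD
  obtain ⟨γ, h1, h2⟩ := inj_avoid (toFinite D) finite_empty (c := n) (by simpa using hD)
  exact ⟨γ, fun u hu => ⟨(h2 u hu).1, fun y hy ha e => ha.ne (h1 hy hu e).symm⟩⟩

theorem level (f : ℕ → ℕ) (K₀ m : ℕ) : ∀ K : ℕ, ∃ c : ℕ, ∀ (U : Type) [Finite U]
    (J : SimpleGraph U), (∀ q, 2 ≤ q → Dec J q (f q) K₀) → ∀ s, 1 ≤ s →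
      Fm J (m + 2) (K * 2 ^ 2 ^ s ^ 2 ^ m) (c ^ s ^ (2 ^ m - 1)) := by
  induction m with
  | zero =>
    refine fun K => ⟨1, fun U _ J _ s _ D cf _ => ⟨fun _ => 0, fun u hu => ⟨by simp,
      fun y hy ha _ => ?_⟩⟩⟩
    exact (J.cliqueFreeOn_two.1 cf) hu hy ha.ne ha
  | succ m ih =>
    intro K
    obtain ⟨c₀, h₀⟩ := ih (K + nn K₀)
    obtain ⟨e, he⟩ : ∃ e, 2 ^ m = e + 1 := ⟨2 ^ m - 1, by have := Nat.one_le_two_pow (n := m); omega⟩
    have e1 : 2 ^ (m + 1) = 2 * e + 2 := by rw [pow_succ, he]; ring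
    rw [he, Nat.add_sub_cancel] at h₀
    rw [e1, show 2 * e + 2 - 1 = 2 * e + 1 from rfl]
    set c := (2 ^ ((2 * e + 2) * 2 ^ (2 * e + 1)) + (K + nn K₀)) * cc (f (m + 2)) K₀ *
      (c₀ + 1) ^ 2 ^ (2 * e) + 4 * (c₀ + 1) ^ 2 ^ (2 * e) + (K + nn K₀) * 4 with hc
    refine ⟨c, fun U _ J hd s hs => Fm.mono (n := (K + nn K₀) * 2 ^ 2 ^ s ^ (2 * e + 2)) ?_
      (Nat.mul_le_mul_right _ (Nat.le_add_right _ _)) le_rfl⟩
    induction s, hs using Nat.le_induction with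
    | base =>
      simp only [one_pow, pow_one]
      exact (Fm.triv J _ _).mono le_rfl (by omega)
    | succ s hs ih2 =>
      have hg := h₀ U J hd ((s + 1) ^ 2) (Nat.one_le_pow _ _ (Nat.succ_pos s))
      rw [← pow_mul, ← pow_mul, mul_add] at hg
      refine (jump (by omega) (hd (m + 2) (by omega)) Nat.one_le_two_pow
        (ih2.mono (Nat.mul_le_mul_right _ (Nat.le_add_left _ _)) le_rfl) hg ?_
        (num_size hs (2 * e) (K + nn K₀))).mono le_rfl (num_col hs _ _ _ _ _ _ (by omega) (by omega))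
      exact Nat.mul_le_mul (Nat.le_add_left _ _) (Nat.pow_le_pow_right two_pos
        (Nat.pow_le_pow_right two_pos (Nat.pow_le_pow_left (Nat.le_succ s) _)))

theorem sublog (C : GClass) (hC : ChiBounded C) (k m : ℕ) : ∃ c : ℕ, ∀ (U W : Type)
    (J : SimpleGraph U) (H : SimpleGraph W), Cl C k W H → Nonempty (J ↪g H) →
      J.CliqueFree (m + 2) → ∀ s : ℕ, 1 ≤ s → Nat.card U ≤ 2 ^ 2 ^ s ^ 2 ^ m →
        J.Colorable (c ^ s ^ (2 ^ m - 1)) := by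
  obtain ⟨f, hf⟩ := hC
  obtain ⟨c, hc⟩ := level (fun q => 6 * k + f q) (k + 1 + kap k) m 1
  refine ⟨c, fun U W J H h ⟨e⟩ cf s hs hn => ?_⟩
  have := h.finite
  have : Finite U := Finite.of_injective e e.injective
  obtain ⟨g, hg⟩ := hc U J (fun q hq => dec hf hq h e) s hs univ cf.cliqueFreeOn
    (by rwa [ncard_univ, one_mul])
  exact ⟨SimpleGraph.Coloring.mk (fun u => ⟨g u, (hg u trivial).1⟩) fun {u w} ha h' =>
    (hg u trivial).2 w trivial ha (congrArg Fin.val h').symm⟩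

end Pool.Agent.MP_da1f04_co.G91
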