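import Mathlib

/-!
The data of the decomposition lemma and its elementary cases.
-/

set_option autoImplicit false

namespace Pool.Agent.MP_da1f04_co.G91

open Function Set

variable {U V : Type}

theorem factor_le [Finite U] {α β : Type} (S : Set U) (f : U → α) (g : U → β)
    (h : ∀ u ∈ S, ∀ w ∈ S, g u = g w → f u = f w) : (f '' S).ncard ≤ (g '' S).ncard := by
  classical
  rcases S.eq_empty_or_nonempty with rfl | ⟨u₀, -⟩
  · simp
  let e : β → α := fun b => if hb : ∃ u ∈ S, g u = b then f hb.choose else f u₀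
  have : f '' S ⊆ e '' (g '' S) := by
    rintro _ ⟨u, hu, rfl⟩
    have hb : ∃ w ∈ S, g w = g u := ⟨u, hu, rfl⟩
    refine ⟨g u, ⟨u, hu, rfl⟩, ?_⟩
    simp only [e, dif_pos hb]
    exact h _ hb.choose_spec.1 _ hu hb.choose_spec.2
  exact (ncard_le_ncard this (toFinite _)).trans (ncard_image_le (toFinite _))

theorem img_split [Finite U] (π : U → V) {A : Set U} (hA : ∀ u w, π u = π w → u ∈ A → w ∈ A)
    (S : Set U) : (π '' (S ∩ A)).ncard + (π '' (S \ A)).ncard ≤ (π '' S).ncard := by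
  rw [← ncard_union_eq _ (toFinite _) (toFinite _)]
  · refine ncard_le_ncard ?_ (toFinite _)
    rw [← image_union, inter_union_sdiff]
  · rw [Set.disjoint_left]
    rintro _ ⟨u, hu, rfl⟩ ⟨w, hw, e⟩
    exact hw.2 (hA _ _ e.symm hu.2)

theorem img_le [Finite U] (π : U → V) {S : Set U} {C : Set V} (hC : C.Finite)
    (h : ∀ u ∈ S, π u ∈ C) : (π '' S).ncard ≤ C.ncard :=
  ncard_le_ncard (by rintro _ ⟨u, hu, rfl⟩; exact h u hu) hC

theorem inj_avoid {α : Type} {S : Set α} (hS : S.Finite) {Φ : Set ℕ} (hΦ : Φ.Finite) {c : ℕ}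
    (h : S.ncard + Φ.ncard ≤ c) : ∃ γ : α → ℕ, InjOn γ S ∧ ∀ x ∈ S, γ x < c ∧ γ x ∉ Φ := by
  have h1 : c ≤ (Iio c \ Φ).ncard + Φ.ncard := by
    have := ncard_le_ncard_sdiff_add_ncard (Iio c) Φ hΦ
    simpa using this
  obtain ⟨γ, h2, h3⟩ := hS.exists_injOn_of_encard_le (t := Iio c \ Φ) (by
    rw [← hS.cast_ncard_eq, ← ((finite_Iio c).sdiff).cast_ncard_eq]
    exact_mod_cast (by omega : S.ncard ≤ (Iio c \ Φ).ncard))
  exact ⟨γ, h3, fun x hx => h2 hx⟩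

theorem cfs {J : SimpleGraph U} {s t : Set U} {n : ℕ} (h : J.CliqueFreeOn s n) (hs : t ⊆ s) :
    J.CliqueFreeOn t n := fun _ hK => h (hK.trans hs)

theorem nonempty_of_clique {J : SimpleGraph U} {q : ℕ} (hq : 0 < q) {K : Finset U}
    (h : J.IsNClique q K) : K.Nonempty := Finset.card_pos.1 (h.2 ▸ hq)

/-- The fibres of `π` on `D` are homogeneous and have small clique number. -/
structure Ctx (J : SimpleGraph U) (q : ℕ) (π : U → V) (D : Set U) : Prop where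
  uni : ∀ u ∈ D, ∀ u' ∈ D, ∀ w ∈ D, π u = π u' → π w ≠ π u → J.Adj u w → J.Adj u' w
  fib : ∀ x, J.CliqueFreeOn {u | u ∈ D ∧ π u = x} q
  cf : J.CliqueFreeOn D (q + 1)
  pos : 0 < q

theorem Ctx.sub {J : SimpleGraph U} {q : ℕ} {π : U → V} {D D' : Set U} (h : Ctx J q π D)
    (hD : D' ⊆ D) : Ctx J q π D' :=
  ⟨fun u hu u' hu' w hw => h.uni u (hD hu) u' (hD hu') w (hD hw),
    fun x => cfs (h.fib x) fun _ hu => ⟨hD hu.1, hu.2⟩, cfs h.cf hD, h.pos⟩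

theorem Ctx.one {J : SimpleGraph U} {q : ℕ} {π : U → V} {D : Set U} (h : Ctx J q π D)
    {K : Finset U} (hK : (K : Set U) ⊆ D) {x : V} (hx : ∀ u ∈ K, π u = x) : ¬ J.IsNClique q K :=
  h.fib x fun u hu => ⟨hK hu, hx u hu⟩

/-- The relevant neighbours of a vertex. -/
def Nb (J : SimpleGraph U) (π : U → V) (D R : Set U) (ex : U → U → Prop) (u : U) : Set U :=
  {w | w ∈ D ∧ w ∉ R ∧ J.Adj u w ∧ π w ≠ π u ∧ ¬ ex u w}

/-- The vertices that are left over. -/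
def Lf (D F R B : Set U) : Set U := {u | u ∈ D ∧ u ∉ F ∧ u ∉ R ∧ u ∉ B}

/-- The cost of a foreign fibre. -/
def lam (k : ℕ) : ℕ := k * (k + 2)

/-- The cost of a branching. -/
def kap (k : ℕ) : ℕ := k + (k + 1) * k + lam k * k

/-- The output of the decomposition. -/
structure Dat (J : SimpleGraph U) (q k c τ : ℕ) (Wt : Set U) (π : U → V) (D F T R B : Set U)
    (ψ : U → ℕ) (ex : U → U → Prop) : Prop where
  rD : ∀ u ∈ R, u ∈ D ∧ u ∉ F
  bD : ∀ u ∈ B, u ∈ D ∧ u ∉ F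
  tB : T ⊆ B
  dis : ∀ u ∈ R, u ∉ B
  lt : ∀ u ∈ R, ψ u < c
  oc : ∀ i, J.CliqueFreeOn {u | u ∈ R ∧ ψ u = i} q
  fc : ∀ u ∈ R, ∀ w ∈ R, π u = π w → ψ u = ψ w
  sy : ∀ u w, ex u w → ex w u
  eD : ∀ u w, ex u w → u ∈ D
  eu : ∀ u u' w, u' ∈ D → π u = π u' → π w ≠ π u → ex u w → ex u' w
  ec : ∀ K : Finset U, (K : Set U) ⊆ D → (∀ u ∈ K, ∀ w ∈ K, π u = π w ∨ ex u w) →
    ¬ J.IsNClique q K
  nF : ∀ u ∈ Lf D F R B, ∀ w ∈ F, ¬ J.Adj u w
  nB : ∀ u ∈ Lf D F R B, ∀ w, w ∈ B ∨ w ∈ F → π u ≠ π w ∧ ¬ ex u w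
  pt : ∀ u ∈ Lf D F R B, ∃ P : Set U, u ∈ P ∧ P ⊆ Lf D F R B ∧
    (∀ x ∈ P, ∀ y ∈ Lf D F R B, J.Adj x y → y ∈ P) ∧ (P ∩ Wt).ncard ≤ τ
  hv : τ = 0 → ∀ u ∈ Lf D F R B, ∀ w ∈ D, w ∉ F → w ∈ Wt → ¬ J.Adj u w
  ty : (Nb J π D R ex '' B).ncard + kap k ≤ (k + 1) * (π '' T).ncard + lam k * (π '' F).ncard +
    kap k * max (((D \ F) ∩ Wt).ncard / (τ + 1)) 1

/-- A decomposition exists. -/
def Out (J : SimpleGraph U) (q k c τ : ℕ) (Wt : Set U) (π : U → V) (D F T : Set U) : Prop :=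
  ∃ R B ψ ex, Dat J q k c τ Wt π D F T R B ψ ex

variable {J : SimpleGraph U} {q k c τ : ℕ} {Wt : Set U}

theorem nb_uni {π : U → V} {D R : Set U} {ex : U → U → Prop} (ctx : Ctx J q π D)
    (eu : ∀ u u' w, u' ∈ D → π u = π u' → π w ≠ π u → ex u w → ex u' w) :
    ∀ u ∈ D, ∀ u' ∈ D, π u = π u' → Nb J π D R ex u = Nb J π D R ex u' := by
  have key : ∀ u ∈ D, ∀ u' ∈ D, π u = π u' → Nb J π D R ex u ⊆ Nb J π D R ex u' := by
    rintro u hu u' hu' e w ⟨h1, h2, h3, h4, h5⟩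
    exact ⟨h1, h2, ctx.uni u hu u' hu' w h1 e h4 h3, e ▸ h4,
      fun h => h5 (eu u' u w hu e.symm (e ▸ h4) h)⟩
  exact fun u hu u' hu' e => (key u hu u' hu' e).antisymm (key u' hu' u hu e.symm)

theorem out_leaf [Finite U] {π : U → V} {D F T : Set U} (ctx : Ctx J q π D)
    (hT : ∀ u ∈ T, u ∈ D ∧ u ∉ F) (col : V → ℕ) (h1 : ∀ u ∈ D, col (π u) < c)
    (h2 : ∀ u ∈ D, ∀ w ∈ D, π u ≠ π w → J.Adj u w → col (π u) ≠ col (π w)) :
    Out J q k c τ Wt π D F T := by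
  have hL : ∀ u, u ∉ Lf D F {u | u ∈ D ∧ u ∉ F ∧ u ∉ T} T := fun u h =>
    h.2.2.1 ⟨h.1, h.2.1, h.2.2.2⟩
  refine ⟨{u | u ∈ D ∧ u ∉ F ∧ u ∉ T}, T, fun u => col (π u), fun _ _ => False,
    fun u h => ⟨h.1, h.2.1⟩, hT, subset_rfl, fun u h => h.2.2, fun u h => h1 u h.1, ?_,
    fun u _ w _ e => by rw [e], fun _ _ => id, fun _ _ h => h.elim, fun _ _ _ _ _ _ => id, ?_,
    fun u h => (hL u h).elim, fun u h => (hL u h).elim, fun u h => (hL u h).elim,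
    fun _ u h => (hL u h).elim, ?_⟩
  · intro i K hK hq
    obtain ⟨u, hu⟩ := nonempty_of_clique ctx.pos hq
    refine ctx.one (fun w hw => (hK hw).1.1) (x := π u) (fun w hw => ?_) hq
    by_contra hne
    have hwu : w ≠ u := fun e => hne (e ▸ rfl)
    exact h2 w (hK hw).1.1 u (hK hu).1.1 hne (hq.1 hw hu hwu) ((hK hw).2.trans (hK hu).2.symm)
  · intro K hK hp hq
    obtain ⟨u, hu⟩ := nonempty_of_clique ctx.pos hq
    exact ctx.one hK (x := π u) (fun w hw => (hp w hw u hu).resolve_right id) hq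
  · have := factor_le T (Nb J π D {u | u ∈ D ∧ u ∉ F ∧ u ∉ T} fun _ _ => False) π
      fun u hu w hw => nb_uni ctx (fun _ _ _ _ _ _ => id) u (hT u hu).1 w (hT w hw).1
    have h3 : kap k * 1 ≤ kap k * max (((D \ F) ∩ Wt).ncard / (τ + 1)) 1 :=
      Nat.mul_le_mul_left _ (le_max_right _ _)
    nlinarith [Nat.zero_le (k * (π '' T).ncard), Nat.zero_le (lam k * (π '' F).ncard)]

theorem out_finer [Finite U] {V' : Type} {π : U → V} {π' : U → V'} {D F T : Set U}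
    (hF : F ⊆ D) (hT : T ⊆ D) (h : ∀ u ∈ D, ∀ w ∈ D, π u = π w → π' u = π' w)
    (ho : Out J q k c τ Wt π' D F T) : Out J q k c τ Wt π D F T := by
  obtain ⟨R, B, ψ, ex, d⟩ := ho
  have e : ∀ u ∈ B, Nb J π D R (fun u w => (u ∈ D ∧ w ∈ D ∧ π' u = π' w) ∨ ex u w) u =
      Nb J π' D R ex u := by
    intro u hu
    have huD := (d.bD u hu).1
    ext w
    constructor
    · rintro ⟨h1, h2, h3, -, h5⟩
      exact ⟨h1, h2, h3, fun e => h5 (Or.inl ⟨huD, h1, e.symm⟩), fun e => h5 (Or.inr e)⟩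
    · rintro ⟨h1, h2, h3, h4, h5⟩
      exact ⟨h1, h2, h3, fun e => h4 (h w h1 u huD e), fun e => e.elim (fun e => h4 e.2.2.symm) h5⟩
  refine ⟨R, B, ψ, fun u w => (u ∈ D ∧ w ∈ D ∧ π' u = π' w) ∨ ex u w, d.rD, d.bD, d.tB, d.dis,
    d.lt, d.oc, fun u hu w hw e => d.fc u hu w hw (h u (d.rD u hu).1 w (d.rD w hw).1 e),
    fun u w e => e.imp (fun e => ⟨e.2.1, e.1, e.2.2.symm⟩) (d.sy u w),
    fun u w e => e.elim (fun e => e.1) (d.eD u w), ?_, ?_, d.nF, ?_, d.pt, d.hv, ?_⟩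
  · rintro u u' w hu' e - (h1 | h1)
    · exact Or.inl ⟨hu', h1.2.1, (h u h1.1 u' hu' e).symm.trans h1.2.2⟩
    · have e' := h u (d.eD _ _ h1) u' hu' e
      by_cases h2 : π' w = π' u
      · exact Or.inl ⟨hu', d.eD _ _ (d.sy _ _ h1), e'.symm.trans h2.symm⟩
      · exact Or.inr (d.eu u u' w hu' e' h2 h1)
  · intro K hK hp
    refine d.ec K hK fun u hu w hw => ?_
    rcases hp u hu w hw with e | e | e
    exacts [Or.inl (h u (hK hu) w (hK hw) e), Or.inl e.2.2, Or.inr e]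
  · intro u hu w hw
    have hwD : w ∈ D := hw.elim (fun hw => (d.bD w hw).1) fun hw => hF hw
    have := d.nB u hu w hw
    exact ⟨fun e => this.1 (h u hu.1 w hwD e), fun e => e.elim (fun e => this.1 e.2.2) this.2⟩
  · rw [image_congr e]
    have h1 := factor_le T π' π fun u hu w hw => h u (hT hu) w (hT hw)
    have h2 := factor_le F π' π fun u hu w hw => h u (hF hu) w (hF hw)
    exact d.ty.trans (add_le_add (add_le_add (Nat.mul_le_mul_left _ h1)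
      (Nat.mul_le_mul_left _ h2)) le_rfl)

end Pool.Agent.MP_da1f04_co.G91
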