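import Pool.Agent.MP_da1f04_co.G91Col

/-!
The step of the recursion: three uses of the decomposition lemma.
-/

set_option autoImplicit false

namespace Pool.Agent.MP_da1f04_co.G91

open Function Set

variable {U : Type}

/-- Sets of size at most `n` have colourings with `a` colours in which `M` given vertices have
colours below `p` that none of their neighbours has. -/
def AA (J : SimpleGraph U) (q n M a p : ℕ) : Prop :=
  ∀ D X : Set U, J.CliqueFreeOn D (q + 1) → D.ncard ≤ n → (D ∩ X).ncard ≤ M →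
    ∃ φ : U → ℕ, Col J q a D φ ∧ ∀ x ∈ D, x ∈ X → φ x < p ∧ Iso J D φ x

variable {J : SimpleGraph U} {q a c K n M N p r t : ℕ}

/-- The exchange of the first and the third block of `p` colours. -/
def swp (p i : ℕ) : ℕ := if i < p then i + 2 * p else if 2 * p ≤ i ∧ i < 3 * p then i - 2 * p else i

theorem swp_inj (p : ℕ) : Injective (swp p) := by
  intro i j h
  unfold swp at h
  split_ifs at h <;> omega

theorem swp_lt (h : 3 * p ≤ a) : ∀ i < a, swp p i < a := by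
  intro i hi
  unfold swp
  split_ifs <;> omega

theorem third [Finite U] (hq : 0 < q) (hd : Dec J q c K) (hA : AA J q n M a p) (hp : 3 * p ≤ a)
    (hr : Fm J q N r) (ht : N / (M + 1) ≤ t) {D X : Set U} (cf : J.CliqueFreeOn D (q + 1))
    (hD : D.ncard ≤ n) (hX : X.ncard ≤ N) :
    ∃ φ : U → ℕ, Col J q (a + (c + K * (t + 1)) * (r + 1)) D φ ∧
      ∀ x ∈ D, x ∈ X → 2 * p ≤ φ x ∧ Iso J D φ x := by
  obtain ⟨R, B, ψ, ν, hR, hB, -, -, h1, h2, h3, -, h4, h5, -⟩ := hd D ∅ X M cf (empty_subset _)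
  have h6 : (ν '' B).ncard + (∅ : Set ℕ).ncard ≤ K * (t + 1) := by
    rw [ncard_empty, add_zero]
    refine h3.trans (Nat.mul_le_mul_left _ ?_)
    have : (D ∩ X).ncard / (M + 1) ≤ N / (M + 1) :=
      Nat.div_le_div_right ((ncard_le_ncard inter_subset_right (toFinite _)).trans hX)
    rw [ncard_empty]
    omega
  obtain ⟨γ, i1, i2⟩ := inj_avoid (toFinite (ν '' B)) finite_empty h6
  have cB : Col J q (K * (t + 1)) B fun u => γ (ν u) := by
    refine ⟨fun u hu => (i2 _ ⟨u, hu, rfl⟩).1, fun i S hS hc => ?_⟩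
    obtain ⟨u, hu, w, hw, h⟩ := h4 S (fun u hu => (hS hu).1) hc
    exact (h u (hS hu).1 u (hS hu).1 rfl (i1 ⟨u, (hS hu).1, rfl⟩ ⟨w, (hS hw).1, rfl⟩
      ((hS hu).2.trans (hS hw).2.symm))).ne rfl
  obtain ⟨χ, cS, -⟩ := stack (⟨h1, h2⟩ : Col J q c R ψ) cB
  obtain ⟨χ', cS', iS⟩ := finer hq cS hX hr
  obtain ⟨φ, cL, iL⟩ := pieces (J := J) (a := a) hq ((D \ R) \ B) X (fun x i => x ∈ X → 2 * p ≤ i)
    (fun u hu => by
      obtain ⟨P, p1, p2, p3, p4⟩ := h5 u hu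
      refine ⟨P, p1, p2, p3, fun Q hQ => ?_⟩
      have hQD : Q ⊆ D := fun x hx => (p2 (hQ hx)).1.1
      obtain ⟨φ, c1, c2⟩ := hA Q X (cfs cf hQD) ((ncard_le_ncard hQD (toFinite _)).trans hD)
        ((ncard_le_ncard (inter_subset_inter_left _ hQ) (toFinite _)).trans p4)
      refine ⟨_, c1.map hq (swp_inj p) (swp_lt hp), fun x hx => ⟨fun h => ?_, fun h y hy ha e =>
        (c2 x hx h).2 y hy ha (swp_inj p e)⟩⟩
      simp only [swp, if_pos (c2 x hx h).1]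
      omega)
  obtain ⟨φ', c1, c2, c3, c4, c5⟩ := stack cL cS'
  have e : (D \ R) \ B ∪ (R ∪ B) = D := by
    ext u
    constructor
    · rintro (h | h | h)
      exacts [h.1.1, hR h, hB h]
    · intro h
      by_cases h' : u ∈ R ∪ B
      · exact Or.inr h'
      · exact Or.inl ⟨⟨h, fun h => h' (Or.inl h)⟩, fun h => h' (Or.inr h)⟩
  rw [e] at c1 c4 c5
  refine ⟨φ', c1, fun x hx hxX => ?_⟩
  by_cases h : x ∈ R ∪ B
  · exact ⟨by have := c2 x h; omega, c4 x h (iS x h hxX)⟩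
  · have hL : x ∈ (D \ R) \ B := ⟨⟨hx, fun h' => h (Or.inl h')⟩, fun h' => h (Or.inr h')⟩
    exact ⟨(c3 x h).symm ▸ (iL x hL).1 hxX, c5 x hL h ((iL x hL).2 hxX)⟩

theorem second [Finite U] (hq : 0 < q) (hd : Dec J q c K) (hA : AA J q n M a p) (hp : 3 * p ≤ a)
    (hr : Fm J q N r) (ht : N / (M + 1) ≤ t) {Q B : Set U} {ν : U → Set U}
    (cf : J.CliqueFreeOn Q (q + 1)) (hQ : Q.ncard ≤ n) (hν : (ν '' B).ncard ≤ N)
    (t1 : ∀ u ∈ B, ∀ u' ∈ B, ν u = ν u' → ∀ w ∈ Q, w ∉ B → J.Adj u w → J.Adj u' w)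
    (t2 : Typ J q B ν) :
    ∃ φ : U → ℕ, Col J q (a + (c + K * (t + 1)) * (r + 1)) Q φ ∧ ∀ x ∈ Q, x ∈ B → 2 * p ≤ φ x := by
  classical
  obtain ⟨ρ, r1, r2⟩ := reps (Q ∩ B) ν
  have hs : (Q \ B) ∪ ρ '' (Q ∩ B) ⊆ Q := by
    rintro u (h | ⟨w, hw, rfl⟩)
    exacts [h.1, (r1 w hw).1.1]
  obtain ⟨φ, c1, c2⟩ := third hq hd hA hp hr ht (X := ρ '' (Q ∩ B)) (cfs cf hs)
    ((ncard_le_ncard hs (toFinite _)).trans hQ)
    (r2.trans ((ncard_le_ncard (image_mono inter_subset_right) (toFinite _)).trans hν))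
  have c3 : ∀ u ∈ Q, u ∈ B → 2 * p ≤ φ (ρ u) ∧ Iso J ((Q \ B) ∪ ρ '' (Q ∩ B)) φ (ρ u) :=
    fun u hu h => c2 _ (Or.inr ⟨u, ⟨hu, h⟩, rfl⟩) ⟨u, ⟨hu, h⟩, rfl⟩
  let φ' : U → ℕ := fun u => if u ∈ B then φ (ρ u) else φ u
  have e1 : ∀ u ∈ B, φ' u = φ (ρ u) := fun u hu => if_pos hu
  have e2 : ∀ u, u ∉ B → φ' u = φ u := fun u hu => if_neg hu
  refine ⟨φ', ⟨fun u hu => ?_, fun i S hS hc => ?_⟩, fun x hx h => (e1 x h).symm ▸ (c3 x hx h).1⟩
  · by_cases h : u ∈ B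
    · rw [e1 u h]
      exact c1.lt _ (Or.inr ⟨u, ⟨hu, h⟩, rfl⟩)
    · rw [e2 u h]
      exact c1.lt _ (Or.inl ⟨hu, h⟩)
  · by_cases h : ∀ u ∈ S, u ∉ B
    · exact c1.oc i (fun u hu => ⟨Or.inl ⟨(hS hu).1, h u hu⟩,
        (e2 u (h u hu)).symm.trans (hS hu).2⟩) hc
    push Not at h
    obtain ⟨u, hu, huB⟩ := h
    have hall : ∀ w ∈ S, w ∈ B := by
      intro w hw
      by_contra hwB
      have ha : J.Adj u w := hc.1 hu hw fun e => hwB (e ▸ huB)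
      have h1 := r1 u ⟨(hS hu).1, huB⟩
      refine (c3 u (hS hu).1 huB).2 w (Or.inl ⟨(hS hw).1, hwB⟩)
        (t1 u huB _ h1.1.2 h1.2.symm w (hS hw).1 hwB ha) ?_
      rw [← e2 w hwB, ← e1 u huB, (hS hw).2, (hS hu).2]
    obtain ⟨x, hx, y, hy, h⟩ := t2 S hall hc
    have h1 := r1 x ⟨(hS hx).1, hall x hx⟩
    have h2 := r1 y ⟨(hS hy).1, hall y hy⟩
    refine (c3 x (hS hx).1 (hall x hx)).2 (ρ y) (Or.inr ⟨y, ⟨(hS hy).1, hall y hy⟩, rfl⟩)
      (h _ h1.1.2 _ h2.1.2 h1.2 h2.2) ?_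
    rw [← e1 y (hall y hy), ← e1 x (hall x hx), (hS hy).2, (hS hx).2]

theorem step [Finite U] (hq : 2 ≤ q) (hd : Dec J q c K) (hA : AA J q n M a p) (hp : 3 * p ≤ a)
    (hr : Fm J q N r) (ht : N / (M + 1) ≤ t) (hP : Fm J (q + 1) N p) (hM : M ≤ N)
    (hN1 : K * (2 * M + 1) ≤ N) (hN2 : K * (2 * (K * (2 * M + 1)) + 1) ≤ N) :
    AA J q (n * M) M (a + (c + K * (t + 1)) * (r + 1) + c + c) p := by
  classical
  intro D X cf hD hX
  have hq0 : 0 < q := by omega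
  obtain ⟨R, B, ψ, ν, hR, hB, hT, dis, h1, h2, h3, t1, t2, t3, -⟩ :=
    hd D (D ∩ X) univ n cf inter_subset_left
  have h4 : (ν '' B).ncard ≤ K * (2 * M + 1) := by
    refine h3.trans (Nat.mul_le_mul_left _ ?_)
    have : (D ∩ univ).ncard / (n + 1) ≤ M := by
      rw [inter_univ]
      exact Nat.div_le_of_le_mul (hD.trans (Nat.mul_le_mul_right _ (Nat.le_succ n)))
    omega
  obtain ⟨ρ, r1, r2⟩ := reps B ν
  set Z := ρ '' B with hZ
  have hZB : Z ⊆ B := by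
    rintro _ ⟨u, hu, rfl⟩
    exact (r1 u hu).1
  set L₁ := (D \ R) \ B with hL₁
  have hs : L₁ ∪ Z ⊆ D := fun u hu => hu.elim (fun h => h.1.1) fun h => hB (hZB h)
  obtain ⟨R', B', ψ', ν', hR', -, hT', dis', g1, g2, g3, s1, s2, -, s4⟩ :=
    hd (L₁ ∪ Z) Z Z 0 (cfs cf hs) subset_union_right
  have g4 : (ν' '' B').ncard ≤ N := by
    refine g3.trans (le_trans (Nat.mul_le_mul_left _ ?_) hN2)
    have : ((L₁ ∪ Z) ∩ Z).ncard ≤ Z.ncard := ncard_le_ncard inter_subset_right (toFinite _)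
    rw [zero_add, Nat.div_one]
    omega
  have hR'L : R' ⊆ L₁ := fun u hu => (hR' hu).resolve_right fun h => dis' u hu (hT' h)
  set a' := a + (c + K * (t + 1)) * (r + 1) with ha'
  obtain ⟨φ, cL, iL⟩ := pieces (J := J) (a := a') hq0 (L₁ \ R') ∅
    (fun x i => x ∈ B' → 2 * p ≤ i) (fun u hu => by
      obtain ⟨P, p1, p2, p3, p4⟩ := t3 u hu.1
      refine ⟨P \ R', ⟨p1, hu.2⟩, fun x hx => ⟨p2 hx.1, hx.2⟩,
        fun x hx y hy ha => ⟨p3 x hx.1 y hy.1 ha, hy.2⟩, fun Q hQ => ?_⟩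
      rw [inter_univ] at p4
      obtain ⟨φ, c1, c2⟩ := second hq0 hd hA hp hr ht (Q := Q)
        (cfs cf fun x hx => (p2 (hQ hx).1).1.1)
        ((ncard_le_ncard (fun x hx => (hQ hx).1) (toFinite _)).trans p4) g4
        (fun u hu u' hu' e w hw hwB => s1 u hu u' hu' e w
          ⟨⟨Or.inl (p2 (hQ hw).1), (hQ hw).2⟩, hwB⟩) s2
      exact ⟨φ, c1, fun x hx => ⟨c2 x hx, fun h => h.elim⟩⟩)
  have far : ∀ u ∈ B, ∀ w ∈ L₁ \ R', J.Adj u w → 2 * p ≤ φ w := by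
    intro u hu w hw ha
    refine (iL w hw).1 (by_contra fun hwB => ?_)
    exact s4 rfl w ⟨⟨Or.inl hw.1, hw.2⟩, hwB⟩ (ρ u) (Or.inr ⟨u, hu, rfl⟩) ⟨u, hu, rfl⟩
      (t1 u hu _ (r1 u hu).1 (r1 u hu).2.symm w hw.1 ha).symm
  obtain ⟨gX, hgX⟩ := hP (D ∩ X) (cfs cf inter_subset_left) (hX.trans hM)
  obtain ⟨gZ, hgZ⟩ := hP Z (cfs cf fun u hu => hB (hZB hu)) (r2.trans (h4.trans hN1))
  let φ₁ : U → ℕ := fun u => if u ∈ D ∩ X then gX u else if u ∈ B then p + gZ (ρ u) else φ u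
  have e1 : ∀ u ∈ D ∩ X, φ₁ u = gX u := fun u hu => if_pos hu
  have e2 : ∀ u ∈ B, u ∉ D ∩ X → φ₁ u = p + gZ (ρ u) := fun u hu h => by
    simp only [φ₁, if_neg h, if_pos hu]
  have e3 : ∀ u ∈ L₁ \ R', φ₁ u = φ u := fun u hu => by
    simp only [φ₁, if_neg (fun h => hu.1.2 (hT h) : u ∉ D ∩ X), if_neg hu.1.2]
  have e4 : ∀ u ∈ B, φ₁ u < 2 * p := by
    intro u hu
    by_cases h : u ∈ D ∩ X
    · have := (hgX u h).1
      rw [e1 u h]
      omega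
    · have := (hgZ _ ⟨u, hu, rfl⟩).1
      rw [e2 u hu h]
      omega
  have iX : ∀ x ∈ D ∩ X, Iso J ((L₁ \ R') ∪ B) φ₁ x := by
    rintro x hx y (hy | hy) ha
    · have := far x (hT hx) y hy ha
      have := e4 x (hT hx)
      rw [e3 y hy]
      omega
    · by_cases h : y ∈ D ∩ X
      · rw [e1 y h, e1 x hx]
        exact (hgX x hx).2 y h ha
      · have := (hgX x hx).1
        rw [e2 y hy h, e1 x hx]
        omega
  have c1 : Col J q a' ((L₁ \ R') ∪ B) φ₁ := by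
    refine ⟨?_, fun i S hS hc => ?_⟩
    · rintro u (hu | hu)
      · rw [e3 u hu]
        exact cL.lt u hu
      · have := e4 u hu
        omega
    · by_cases h : ∀ u ∈ S, u ∉ B
      · have h' : ∀ u ∈ S, u ∈ L₁ \ R' := fun u hu => (hS hu).1.resolve_right (h u hu)
        exact cL.oc i (fun u hu => ⟨h' u hu, (e3 u (h' u hu)).symm.trans (hS hu).2⟩) hc
      push Not at h
      obtain ⟨u, hu, huB⟩ := h
      have hall : ∀ w ∈ S, w ∈ B := by
        intro w hw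
        by_contra hwB
        have hwL := (hS hw).1.resolve_right hwB
        have h5 := far u huB w hwL (hc.1 hu hw fun e => hwB (e ▸ huB))
        have h6 := e4 u huB
        rw [← e3 w hwL, (hS hw).2] at h5
        rw [(hS hu).2] at h6
        omega
      have hnX : ∀ w ∈ S, w ∉ D ∩ X := by
        intro w hw h
        obtain ⟨y, hy, ha⟩ := two_of_clique hq hc hw
        exact iX w h y (hS hy).1 ha ((hS hy).2.trans (hS hw).2.symm)
      obtain ⟨x, hx, y, hy, h⟩ := t2 S hall hc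
      refine (hgZ _ ⟨x, hall x hx, rfl⟩).2 _ ⟨y, hall y hy, rfl⟩
        (h _ (r1 x (hall x hx)).1 _ (r1 y (hall y hy)).1 (r1 x (hall x hx)).2
          (r1 y (hall y hy)).2) ?_
      have h5 := (hS hx).2.trans (hS hy).2.symm
      rw [e2 x (hall x hx) (hnX x hx), e2 y (hall y hy) (hnX y hy)] at h5
      omega
  obtain ⟨φ₂, c2, -, d3, -, d5⟩ := stack c1 (⟨g1, g2⟩ : Col J q c R' ψ')
  obtain ⟨φ₃, c3, -, f3, -, f5⟩ := stack c2 (⟨h1, h2⟩ : Col J q c R ψ)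
  have e : (L₁ \ R') ∪ B ∪ R' ∪ R = D := by
    ext u
    constructor
    · rintro (((h | h) | h) | h)
      exacts [h.1.1.1, hB h, (hR'L h).1.1, hR h]
    · intro h
      by_cases a1 : u ∈ R
      · exact Or.inr a1
      by_cases a2 : u ∈ R'
      · exact Or.inl (Or.inr a2)
      by_cases a3 : u ∈ B
      · exact Or.inl (Or.inl (Or.inr a3))
      · exact Or.inl (Or.inl (Or.inl ⟨⟨⟨h, a1⟩, a3⟩, a2⟩))
  rw [e] at c3 f5
  refine ⟨φ₃, c3, fun x hx hxX => ?_⟩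
  have hxB : x ∈ B := hT ⟨hx, hxX⟩
  have a1 : x ∉ R := fun h => dis x h hxB
  have a2 : x ∉ R' := fun h => (hR'L h).2 hxB
  refine ⟨?_, f5 x (Or.inl (Or.inr hxB)) a1 (d5 x (Or.inr hxB) a2 (iX x ⟨hx, hxX⟩))⟩
  rw [f3 x a1, d3 x a2, e1 x ⟨hx, hxX⟩]
  exact (hgX x ⟨hx, hxX⟩).1

/-- The number of representatives, relative to `M`. -/
def nn (K : ℕ) : ℕ := 2 * (K * (4 * K + 1)) + 3 * K + 1

/-- The number of new colours in a step. -/
def cc (c K : ℕ) : ℕ := 3 * c + K * (nn K + 1)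

theorem iter [Finite U] (hq : 2 ≤ q) (hd : Dec J q c K) (hM : 1 ≤ M)
    (hP : Fm J (q + 1) (nn K * M) p) (hr : Fm J q (nn K * M) r) (j : ℕ) :
    AA J q (M ^ (j + 1)) M (3 * p + j * (cc c K * (r + 1))) p := by
  have h1 : M ≤ nn K * M := Nat.le_mul_of_pos_left _ (by unfold nn; omega)
  induction j with
  | zero =>
    intro D X cf hD _
    obtain ⟨g, hg⟩ := hP D cf (by simpa using (pow_one M ▸ hD : D.ncard ≤ M).trans h1)
    exact ⟨g, Col.of_iso hq fun u hu => ⟨by have := (hg u hu).1; omega, (hg u hu).2⟩,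
      fun x hx _ => hg x hx⟩
  | succ j ih =>
    intro D X cf hD hX
    have h2 : nn K * M / (M + 1) ≤ nn K :=
      Nat.div_le_of_le_mul (by rw [mul_comm]; exact Nat.mul_le_mul_right _ (Nat.le_succ M))
    have h3 : 2 * M + 1 ≤ 3 * M := by omega
    have h4 : K * (2 * M + 1) ≤ nn K * M := by
      have := Nat.mul_le_mul_left K h3
      unfold nn
      nlinarith [Nat.zero_le (K * (4 * K + 1) * M)]
    have h5 : K * (2 * (K * (2 * M + 1)) + 1) ≤ nn K * M := by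
      have h6 : 2 * (K * (2 * M + 1)) + 1 ≤ (4 * K + 1) * (2 * M) := by
        nlinarith [Nat.mul_le_mul_left K hM]
      have := Nat.mul_le_mul_left K h6
      unfold nn
      nlinarith [Nat.zero_le (K * M)]
    obtain ⟨φ, c1, c2⟩ := step hq hd ih (Nat.le_add_right _ _) hr h2 hP h1 h4 h5 D X cf
      (by rwa [← pow_succ]) hX
    refine ⟨φ, c1.mono ?_, c2⟩
    unfold cc
    nlinarith [Nat.zero_le (c * r)]

theorem jump [Finite U] {g : ℕ} (hq : 2 ≤ q) (hd : Dec J q c K) (hM : 1 ≤ M)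
    (hP : Fm J (q + 1) (nn K * M) p) (hg : Fm J q n g) (hn : nn K * M ≤ n) {j : ℕ}
    (hj : n ≤ M ^ (j + 1)) : Fm J (q + 1) n ((3 * p + j * (cc c K * (g + 1))) * (g + 1)) := by
  intro D cf hD
  obtain ⟨φ, c1, -⟩ := iter hq hd hM hP (hg.mono hn le_rfl) j D ∅ cf (hD.trans hj) (by simp)
  obtain ⟨φ', c2, c3⟩ := finer (by omega) c1 hD hg
  exact ⟨φ', fun u hu => ⟨c2.lt u hu, c3 u hu hu⟩⟩

end Pool.Agent.MP_da1f04_co.G91
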