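import Pool.Agent.MP_da1f04_co.G91Col

/-!
Derivations for a vertex set with a partition into fibres that are homogeneous only at the leaves.
-/

set_option autoImplicit false

namespace Pool.Agent.MP_da1f04_co.H91

open Function Set G91

variable {U : Type}

/-- A derivation for the vertex set `D` with the partition given by `π`. -/
inductive Der (J : SimpleGraph U) (q k c : ℕ) : ∀ V : Type, (U → V) → Set U → Prop
  | leaf (V : Type) (π : U → V) (D : Set U) (col : V → ℕ) :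
      (∀ u ∈ D, ∀ u' ∈ D, ∀ w ∈ D, ∀ w' ∈ D, π u = π u' → π w = π w' → π u ≠ π w → J.Adj u w →
        J.Adj u' w') →
      (∀ x, J.CliqueFreeOn {u | u ∈ D ∧ π u = x} q) → (∀ u ∈ D, col (π u) < c) →
      (∀ u ∈ D, ∀ w ∈ D, π u ≠ π w → J.Adj u w → col (π u) ≠ col (π w)) → Der J q k c V π D
  | merge (V V' : Type) (π : U → V) (π' : U → V') (D : Set U) :
      (∀ u ∈ D, ∀ w ∈ D, π u = π w → π' u = π' w) → Der J q k c V' π' D → Der J q k c V π D
  | cut (V : Type) (π : U → V) (D : Set U) (a b : Set V) : (∀ u ∈ D, π u ∉ a → π u ∈ b) →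
      (π '' {u | u ∈ D ∧ π u ∈ a ∧ π u ∈ b}).ncard ≤ k →
      (∀ u ∈ D, π u ∉ b → ∀ w ∈ D, π w ∉ a → ¬ J.Adj u w) →
      Der J q k c V π (D ∩ π ⁻¹' a) → Der J q k c V π (D ∩ π ⁻¹' b) → Der J q k c V π D

variable {J : SimpleGraph U} {q k c : ℕ}

theorem Der.sub [Finite U] {V : Type} {π : U → V} {D : Set U} (h : Der J q k c V π D) :
    ∀ D' ⊆ D, Der J q k c V π D' := by
  induction h with
  | leaf V π D col h1 h2 h3 h4 =>
    exact fun D' hD => .leaf V π D' col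
      (fun u hu u' hu' w hw w' hw' => h1 u (hD hu) u' (hD hu') w (hD hw) w' (hD hw'))
      (fun x => cfs (h2 x) fun _ hu => ⟨hD hu.1, hu.2⟩) (fun u hu => h3 u (hD hu))
      fun u hu w hw => h4 u (hD hu) w (hD hw)
  | merge V V' π π' D h1 _ ih =>
    exact fun D' hD => .merge V V' π π' D' (fun u hu w hw => h1 u (hD hu) w (hD hw)) (ih D' hD)
  | cut V π D a b h1 h2 h3 _ _ ih1 ih2 =>
    refine fun D' hD => .cut V π D' a b (fun u hu => h1 u (hD hu)) (le_trans ?_ h2)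
      (fun u hu h w hw => h3 u (hD hu) h w (hD hw)) (ih1 _ (inter_subset_inter_left _ hD))
      (ih2 _ (inter_subset_inter_left _ hD))
    exact ncard_le_ncard (image_mono fun u hu => ⟨hD hu.1, hu.2⟩) (toFinite _)

theorem side {V : Type} {π : U → V} {D : Set U} {a b : Set V} (h1 : ∀ u ∈ D, π u ∉ a → π u ∈ b)
    (h3 : ∀ u ∈ D, π u ∉ b → ∀ w ∈ D, π w ∉ a → ¬ J.Adj u w) {K : Finset U}
    (hK : (K : Set U) ⊆ D) (hc : J.IsNClique q K) : (∀ u ∈ K, π u ∈ a) ∨ ∀ u ∈ K, π u ∈ b := by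
  by_contra hn
  push Not at hn
  obtain ⟨⟨w, hw, hwa⟩, u, hu, hub⟩ := hn
  exact h3 u (hK hu) hub w (hK hw) hwa (hc.1 hu hw fun e => hub (e ▸ h1 w (hK hw) hwa))

/-- Vertices whose fibre has an edge to a part `Y` of a fibre without being complete to it span
no clique of size `q`. -/
theorem Der.nb {V : Type} {π : U → V} {D : Set U} (h : Der J q k c V π D) (hq : 0 < q) :
    ∀ (Y : Set U) (K : Finset U), Y ⊆ D → (∀ y ∈ Y, ∀ y' ∈ Y, π y = π y') → (K : Set U) ⊆ D →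
      (∀ u ∈ K, ∃ z ∈ D, ∃ z' ∈ D, ∃ y ∈ Y, ∃ y' ∈ Y, π z = π u ∧ π z' = π u ∧
        (z = y ∨ J.Adj z y) ∧ ¬ J.Adj z' y') → ¬ J.IsNClique q K := by
  induction h with
  | leaf V π D col h1 h2 _ _ =>
    intro Y K hY hf hK h hc
    obtain ⟨u₀, hu₀⟩ := nonempty_of_clique hq hc
    obtain ⟨-, -, -, -, y₀, hy₀, -⟩ := h u₀ hu₀
    refine h2 (π y₀) (fun u hu => ⟨hK hu, ?_⟩) hc
    obtain ⟨z, hz, z', hz', y, hy, y', hy', e1, e2, e3, e4⟩ := h u hu
    rw [← e1, hf y₀ hy₀ y hy]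
    by_contra hne
    exact e4 (h1 z hz z' hz' y (hY hy) y' (hY hy') (e1.trans e2.symm) (hf y hy y' hy') hne
      (e3.resolve_left fun e => hne (by rw [e])))
  | merge V V' π π' D h1 _ ih =>
    intro Y K hY hf hK h
    refine ih Y K hY (fun y hy y' hy' => h1 y (hY hy) y' (hY hy') (hf y hy y' hy')) hK
      fun u hu => ?_
    obtain ⟨z, hz, z', hz', y, hy, y', hy', e1, e2, e3⟩ := h u hu
    exact ⟨z, hz, z', hz', y, hy, y', hy', h1 z hz u (hK hu) e1, h1 z' hz' u (hK hu) e2, e3⟩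
  | cut V π D a b h1 _ h3 _ _ ih1 ih2 =>
    intro Y K hY hf hK h hc
    obtain ⟨u₀, hu₀⟩ := nonempty_of_clique hq hc
    obtain ⟨-, -, -, -, y₀, hy₀, -⟩ := h u₀ hu₀
    have key : ∀ s : Set V, π y₀ ∈ s → (∀ u ∈ K, π u ∈ s) → Y ⊆ D ∩ π ⁻¹' s ∧
        (K : Set U) ⊆ D ∩ π ⁻¹' s ∧ ∀ u ∈ K, ∃ z ∈ D ∩ π ⁻¹' s, ∃ z' ∈ D ∩ π ⁻¹' s, ∃ y ∈ Y,
          ∃ y' ∈ Y, π z = π u ∧ π z' = π u ∧ (z = y ∨ J.Adj z y) ∧ ¬ J.Adj z' y' := by
      intro s h4 h5
      refine ⟨fun y hy => ⟨hY hy, (hf y₀ hy₀ y hy ▸ h4 : π y ∈ s)⟩, fun u hu => ⟨hK hu, h5 u hu⟩,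
        fun u hu => ?_⟩
      obtain ⟨z, hz, z', hz', y, hy, y', hy', e1, e2, e3⟩ := h u hu
      exact ⟨z, ⟨hz, (e1.symm ▸ h5 u hu : π z ∈ s)⟩, z', ⟨hz', (e2.symm ▸ h5 u hu : π z' ∈ s)⟩,
        y, hy, y', hy', e1, e2, e3⟩
    have fa : π y₀ ∉ b → ∀ u ∈ K, π u ∈ a := by
      intro h4 u hu
      obtain ⟨z, hz, -, -, y, hy, -, -, e1, -, e3, -⟩ := h u hu
      have h5 : π y ∉ b := hf y₀ hy₀ y hy ▸ h4
      by_contra h6
      rcases e3 with e | e
      · exact h5 (e ▸ h1 z hz (e1.symm ▸ h6))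
      · exact h3 y (hY hy) h5 z hz (e1.symm ▸ h6) e.symm
    have fb : π y₀ ∉ a → ∀ u ∈ K, π u ∈ b := by
      intro h4 u hu
      obtain ⟨z, hz, -, -, y, hy, -, -, e1, -, e3, -⟩ := h u hu
      have h5 : π y ∉ a := hf y₀ hy₀ y hy ▸ h4
      by_contra h6
      rcases e3 with e | e
      · exact h6 (e1 ▸ h1 z hz (e ▸ h5))
      · exact h3 z hz (e1.symm ▸ h6) y (hY hy) h5 e
    have ha : π y₀ ∈ a → (∀ u ∈ K, π u ∈ a) → False := fun h4 h5 =>
      ih1 Y K (key a h4 h5).1 hf (key a h4 h5).2.1 (key a h4 h5).2.2 hc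
    have hb : π y₀ ∈ b → (∀ u ∈ K, π u ∈ b) → False := fun h4 h5 =>
      ih2 Y K (key b h4 h5).1 hf (key b h4 h5).2.1 (key b h4 h5).2.2 hc
    by_cases h4 : π y₀ ∈ a
    · by_cases h5 : π y₀ ∈ b
      · exact (side h1 h3 hK hc).elim (ha h4) (hb h5)
      · exact ha h4 (fa h5)
    · exact hb (h1 y₀ (hY hy₀) h4) (fb h4)

theorem Der.fib {V : Type} {π : U → V} {D : Set U} (h : Der J q k c V π D) (hq : 0 < q) (x : V) :
    J.CliqueFreeOn {u | u ∈ D ∧ π u = x} q := fun K hK =>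
  h.nb hq {u | u ∈ D ∧ π u = x} K (fun _ hu => hu.1) (fun _ h1 _ h2 => h1.2.trans h2.2.symm)
    (fun _ hu => (hK hu).1) fun u hu => ⟨u, (hK hu).1, u, (hK hu).1, u, hK hu, u, hK hu, rfl, rfl,
      Or.inl rfl, J.irrefl⟩

/-- Coarser derivations on the two sides of a cut give a coarser derivation. -/
theorem join [Finite U] {V V₁ V₂ : Type} {π : U → V} {π₁ : U → V₁} {π₂ : U → V₂} {S : Set U}
    {a b : Set V} (h1 : ∀ u ∈ S, π u ∉ a → π u ∈ b)
    (h2 : (π '' {u | u ∈ S ∧ π u ∈ a ∧ π u ∈ b}).ncard ≤ k)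
    (h3 : ∀ u ∈ S, π u ∉ b → ∀ w ∈ S, π w ∉ a → ¬ J.Adj u w)
    (d1 : Der J q k c V₁ π₁ (S ∩ π ⁻¹' a)) (d2 : Der J q k c V₂ π₂ (S ∩ π ⁻¹' b))
    (c1 : ∀ u ∈ S ∩ π ⁻¹' a, ∀ w ∈ S ∩ π ⁻¹' a, π u = π w → π₁ u = π₁ w)
    (c2 : ∀ u ∈ S ∩ π ⁻¹' b, ∀ w ∈ S ∩ π ⁻¹' b, π u = π w → π₂ u = π₂ w) :
    ∃ (V' : Type) (π' : U → V'), (∀ u ∈ S, ∀ w ∈ S, π u = π w → π' u = π' w) ∧
      Der J q k c V' π' S ∧ (π' '' S).ncard ≤ (π₁ '' (S ∩ π ⁻¹' a)).ncard +
        (π₂ '' (S \ π ⁻¹' a)).ncard + (π '' {u | u ∈ S ∧ π u ∈ a ∧ π u ∈ b}).ncard := by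
  classical
  let π' : U → V ⊕ V₁ ⊕ V₂ := fun u =>
    if π u ∈ a then (if π u ∈ b then .inl (π u) else .inr (.inl (π₁ u))) else .inr (.inr (π₂ u))
  have e0 : ∀ u, π u ∈ a → π u ∈ b → π' u = .inl (π u) := fun u h h' => by
    simp only [π', if_pos h, if_pos h']
  have e1 : ∀ u, π u ∈ a → π u ∉ b → π' u = .inr (.inl (π₁ u)) := fun u h h' => by
    simp only [π', if_pos h, if_neg h']
  have e2 : ∀ u, π u ∉ a → π' u = .inr (.inr (π₂ u)) := fun u h => if_neg h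
  let a' : Set (V ⊕ V₁ ⊕ V₂) := {x | ∀ y, x ≠ .inr (.inr y)}
  let b' : Set (V ⊕ V₁ ⊕ V₂) := {x | ∀ y, x ≠ .inr (.inl y)}
  have ma : ∀ u, π' u ∈ a' ↔ π u ∈ a := by
    intro u
    by_cases h : π u ∈ a
    · by_cases h' : π u ∈ b
      · simp [a', e0 u h h', h]
      · simp [a', e1 u h h', h]
    · simp [a', e2 u h, h]
  have mb : ∀ u ∈ S, (π' u ∈ b' ↔ π u ∈ b) := by
    intro u hu
    by_cases h : π u ∈ a
    · by_cases h' : π u ∈ b
      · simp [b', e0 u h h', h']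
      · simp [b', e1 u h h', h']
    · simp [b', e2 u h, h1 u hu h]
  have sa : S ∩ π' ⁻¹' a' = S ∩ π ⁻¹' a := by
    ext u
    exact and_congr_right fun _ => ma u
  have sb : S ∩ π' ⁻¹' b' = S ∩ π ⁻¹' b := by
    ext u
    exact and_congr_right fun hu => mb u hu
  have cnt : (π' '' {u | u ∈ S ∧ π u ∈ a ∧ π u ∈ b}).ncard ≤
      (π '' {u | u ∈ S ∧ π u ∈ a ∧ π u ∈ b}).ncard :=
    factor_le _ _ _ fun u hu w hw e => by rw [e0 u hu.2.1 hu.2.2, e0 w hw.2.1 hw.2.2, e]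
  refine ⟨_, π', fun u hu w hw e => ?_, .cut _ π' S a' b'
    (fun u hu h => (mb u hu).2 (h1 u hu fun h' => h ((ma u).2 h'))) ?_
    (fun u hu h w hw h' => h3 u hu (fun h4 => h ((mb u hu).2 h4)) w hw fun h4 => h' ((ma w).2 h4))
    (sa ▸ .merge _ _ π' π₁ _ ?_ d1) (sb ▸ .merge _ _ π' π₂ _ ?_ d2), ?_⟩
  · by_cases h : π u ∈ a
    · by_cases h' : π u ∈ b
      · rw [e0 u h h', e0 w (e ▸ h) (e ▸ h'), e]
      · rw [e1 u h h', e1 w (e ▸ h) (e ▸ h'), c1 u ⟨hu, h⟩ w ⟨hw, (e ▸ h : π w ∈ a)⟩ e]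
    · rw [e2 u h, e2 w (e ▸ h), c2 u ⟨hu, h1 u hu h⟩ w ⟨hw, (e ▸ h1 u hu h : π w ∈ b)⟩ e]
  · refine le_trans (le_of_eq ?_) (cnt.trans h2)
    congr 2
    ext u
    exact and_congr_right fun hu => and_congr (ma u) (mb u hu)
  · intro u hu w hw e
    by_cases h : π u ∈ b <;> by_cases h' : π w ∈ b
    · rw [e0 u hu.2 h, e0 w hw.2 h'] at e
      exact c1 u hu w hw (Sum.inl.inj e)
    · rw [e0 u hu.2 h, e1 w hw.2 h'] at e
      cases e
    · rw [e1 u hu.2 h, e0 w hw.2 h'] at e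
      cases e
    · rw [e1 u hu.2 h, e1 w hw.2 h'] at e
      exact Sum.inl.inj (Sum.inr.inj e)
  · intro u hu w hw e
    by_cases h : π u ∈ a <;> by_cases h' : π w ∈ a
    · rw [e0 u h hu.2, e0 w h' hw.2] at e
      exact c2 u hu w hw (Sum.inl.inj e)
    · rw [e0 u h hu.2, e2 w h'] at e
      cases e
    · rw [e2 u h, e0 w h' hw.2] at e
      cases e
    · rw [e2 u h, e2 w h'] at e
      exact Sum.inr.inj (Sum.inr.inj e)
  · have s1 : π' '' S ⊆ (π' '' {u | u ∈ S ∧ π u ∈ a ∧ π u ∉ b} ∪ π' '' (S \ π ⁻¹' a)) ∪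
        π' '' {u | u ∈ S ∧ π u ∈ a ∧ π u ∈ b} := by
      rintro _ ⟨u, hu, rfl⟩
      by_cases h : π u ∈ a
      · by_cases h' : π u ∈ b
        exacts [Or.inr ⟨u, ⟨hu, h, h'⟩, rfl⟩, Or.inl (Or.inl ⟨u, ⟨hu, h, h'⟩, rfl⟩)]
      · exact Or.inl (Or.inr ⟨u, ⟨hu, h⟩, rfl⟩)
    have s2 : (π' '' {u | u ∈ S ∧ π u ∈ a ∧ π u ∉ b}).ncard ≤ (π₁ '' (S ∩ π ⁻¹' a)).ncard :=
      (factor_le _ π' π₁ fun u hu w hw e => by
        rw [e1 u hu.2.1 hu.2.2, e1 w hw.2.1 hw.2.2, e]).trans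
        (ncard_le_ncard (image_mono fun u hu => ⟨hu.1, hu.2.1⟩) (toFinite _))
    have s3 : (π' '' (S \ π ⁻¹' a)).ncard ≤ (π₂ '' (S \ π ⁻¹' a)).ncard :=
      factor_le _ π' π₂ fun u hu w hw e => by rw [e2 u hu.2, e2 w hw.2, e]
    exact (ncard_le_ncard s1 (toFinite _)).trans ((ncard_union_le _ _).trans
      (add_le_add ((ncard_union_le _ _).trans (add_le_add s2 s3)) cnt))

/-- Derivations exist over `H`. -/
def Fine (J : SimpleGraph U) (q k c : ℕ) (W : Type) (H : SimpleGraph W) : Prop :=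
  ∀ (π : U → W) (D : Set U), Rep J H π D → (∀ x, J.CliqueFreeOn {u | u ∈ D ∧ π u = x} q) →
    J.CliqueFreeOn D (q + 1) → Der J q k c W π D

theorem Fine.lift {W : Type} {H : SimpleGraph W} {s : Set W} (h : Fine J q k c s (H.induce s))
    (π : U → W) (D : Set U) (hs : ∀ u ∈ D, π u ∈ s) (rep : Rep J H π D)
    (fib : ∀ x, J.CliqueFreeOn {u | u ∈ D ∧ π u = x} q) (cf : J.CliqueFreeOn D (q + 1)) :
    Der J q k c W π D := by
  classical
  rcases D.eq_empty_or_nonempty with rfl | ⟨u₀, hu₀⟩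
  · exact .leaf _ _ _ (fun _ => 0) (fun _ h => h.elim) fib (fun _ h => h.elim) fun _ h => h.elim
  let π' : U → s := fun u => if h : π u ∈ s then ⟨π u, h⟩ else ⟨π u₀, hs u₀ hu₀⟩
  have e : ∀ u ∈ D, (π' u : W) = π u := fun u hu => by simp only [π', dif_pos (hs u hu)]
  have e' : ∀ u ∈ D, ∀ w ∈ D, π u = π w → π' u = π' w := fun u hu w hw h =>
    Subtype.ext (by rw [e u hu, e w hw, h])
  refine .merge _ _ π π' D e' (h π' D ?_ ?_ cf)
  · intro u hu w hw hne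
    rw [rep u hu w hw fun h => hne (e' u hu w hw h), ← e u hu, ← e w hw]
    rfl
  · exact fun x => cfs (fib x) fun u hu => ⟨hu.1, by rw [← e u hu.1, hu.2]⟩

theorem fine [Finite U] {C : GClass} {f : ℕ → ℕ}
    (hf : ∀ (V : Type) (G : SimpleGraph V), Finite V → C V G → ∀ (s : Set V) (m : ℕ),
      (G.induce s).CliqueFree (m + 1) → (G.induce s).Colorable (f m))
    {W : Type} {H : SimpleGraph W} (h : Cl C k W H) : Fine J q k (f q) W H := by
  classical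
  induction h with
  | base V G h1 h2 =>
    intro π D rep fib cf
    have hs : ∀ x : π '' D, ∃ u : D, π u = x := fun x => by
      obtain ⟨u, hu, e⟩ := x.2
      exact ⟨⟨u, hu⟩, e⟩
    choose σ hσ using hs
    have hi : Injective σ := fun x y e => Subtype.ext (by rw [← hσ x, ← hσ y, e])
    have hcf : (G.induce (π '' D)).CliqueFree (q + 1) := by
      refine ((SimpleGraph.cliqueFree_induce_iff J D _).2 cf).comap ⟨⟨⟨σ, ?_⟩, hi⟩⟩
      intro x y hxy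
      have hne : π (σ x) ≠ π (σ y) := by
        rw [hσ, hσ]
        exact G.ne_of_adj hxy
      exact (rep _ (σ x).2 _ (σ y).2 hne).2 (by rw [hσ, hσ]; exact hxy)
    obtain ⟨col⟩ := hf V G h1 h2 _ q hcf
    refine .leaf _ _ _ (fun x => if h : x ∈ π '' D then (col ⟨x, h⟩ : ℕ) else 0) ?_ fib
      (fun u hu => ?_) ?_
    · intro u hu u' hu' w hw w' hw' e e' hne ha
      have h3 := (rep u hu w hw hne).1 ha
      rw [e, e'] at h3 hne
      exact (rep u' hu' w' hw' hne).2 h3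
    · simp only [dif_pos (mem_image_of_mem π hu)]
      exact Fin.is_lt _
    · intro u hu w hw hne ha
      simp only [dif_pos (mem_image_of_mem π hu), dif_pos (mem_image_of_mem π hw)]
      exact fun e => col.valid (v := ⟨π u, mem_image_of_mem π hu⟩)
        (w := ⟨π w, mem_image_of_mem π hw⟩) ((rep u hu w hw hne).1 ha) (Fin.ext e)
  | iso V W G H _ e ih =>
    obtain ⟨e⟩ := e
    intro π D rep fib cf
    refine .merge _ _ π (fun u => e.symm (π u)) D (fun u _ w _ h => by rw [h]) (ih _ D ?_ ?_ cf)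
    · intro u hu w hw hne
      rw [rep u hu w hw fun h => hne (by simp only [h])]
      exact e.symm.map_adj_iff.symm
    · exact fun x => cfs (fib (e x)) fun u hu => ⟨hu.1, by rw [← hu.2]; simp⟩
  | subst V G s v hv hs _ _ ih1 ih2 =>
    intro π D rep fib cf
    by_cases hz : ∃ z ∈ D, π z ∉ s ∧ G.Adj (π z) v
    · obtain ⟨z, hz, hzs, hzv⟩ := hz
      let π' : U → V := fun u => if π u ∈ s then v else π u
      have e1 : ∀ u, π u ∈ s → π' u = v := fun u h => if_pos h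
      have e2 : ∀ u, π u ∉ s → π' u = π u := fun u h => if_neg h
      have e3 : ∀ u w, π u = π w → π' u = π' w := fun u w h => by simp only [π', h]
      have mix : ∀ u ∈ D, ∀ w ∈ D, π u ∉ s → π w ∈ s → (J.Adj u w ↔ G.Adj (π u) v) :=
        fun u hu w hw h1 h2 => (rep u hu w hw fun e => h1 (e ▸ h2)).trans (hs _ h1 _ h2)
      refine .merge _ _ π π' D (fun u _ w _ => e3 u w) (ih1.lift π' D (fun u _ => ?_) ?_ ?_ cf)
      · by_cases h : π u ∈ s
        · exact Or.inl (e1 u h)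
        · exact Or.inr (by rw [e2 u h]; exact h)
      · intro u hu w hw hne
        by_cases h1 : π u ∈ s <;> by_cases h2 : π w ∈ s
        · exact absurd ((e1 u h1).trans (e1 w h2).symm) hne
        · rw [e1 u h1, e2 w h2, J.adj_comm, G.adj_comm]
          exact mix w hw u hu h2 h1
        · rw [e2 u h1, e1 w h2]
          exact mix u hu w hw h1 h2
        · rw [e2 u h1, e2 w h2] at hne ⊢
          exact rep u hu w hw hne
      · intro x
        by_cases hx : x = v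
        · refine cfs (SimpleGraph.CliqueFreeOn.of_succ J cf hz) fun u hu => ⟨hu.1, ?_⟩
          have h1 : π u ∈ s := by
            by_contra h
            exact h (by rw [← e2 u h, hu.2, hx]; exact hv)
          exact (mix z hz u hu.1 hzs h1).2 hzv
        · refine cfs (fib x) fun u hu => ⟨hu.1, ?_⟩
          have h1 : π u ∉ s := fun h => hx (hu.2.symm.trans (e1 u h))
          rw [← e2 u h1, hu.2]
    · refine .cut _ π D s sᶜ (fun u _ h => h) ?_ ?_ ?_ ?_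
      · rw [show {u | u ∈ D ∧ π u ∈ s ∧ π u ∈ sᶜ} = ∅ from
          eq_empty_of_forall_notMem fun u h => h.2.2 h.2.1]
        simp
      · intro u hu h1 w hw h2 ha
        have h3 : π u ∈ s := not_not.1 h1
        exact hz ⟨w, hw, h2, (hs _ h2 _ h3).1 ((rep w hw u hu fun e => h2 (e ▸ h3 : π w ∈ s)).1
          ha.symm)⟩
      · exact ih2.lift π _ (fun u hu => hu.2) (rep.sub inter_subset_left)
          (fun x => cfs (fib x) fun u hu => ⟨hu.1.1, hu.2⟩) (cfs cf inter_subset_left)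
      · exact ih1.lift π _ (fun u hu => Or.inr hu.2) (rep.sub inter_subset_left)
          (fun x => cfs (fib x) fun u hu => ⟨hu.1.1, hu.2⟩) (cfs cf inter_subset_left)
  | glue V G a b hab hk hno c1 c2 ih1 ih2 =>
    intro π D rep fib cf
    have cov : ∀ x, x ∉ a → x ∈ b := fun x h =>
      (show x ∈ a ∪ b from hab ▸ mem_univ x).resolve_left h
    have hfin : (a ∩ b).Finite := (Set.finite_coe_iff.1 c1.finite).inter_of_left b
    refine .cut _ π D a b (fun u _ h => cov _ h) ((img_le π hfin fun u hu => hu.2).trans hk) ?_ ?_ ?_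
    · intro u hu h1 w hw h2 ha
      exact hno _ h1 _ h2 ((rep u hu w hw fun e => h1 (e ▸ cov _ h2 : π u ∈ b)).1 ha)
    · exact ih1.lift π _ (fun u hu => hu.2) (rep.sub inter_subset_left)
        (fun x => cfs (fib x) fun u hu => ⟨hu.1.1, hu.2⟩) (cfs cf inter_subset_left)
    · exact ih2.lift π _ (fun u hu => hu.2) (rep.sub inter_subset_left)
        (fun x => cfs (fib x) fun u hu => ⟨hu.1.1, hu.2⟩) (cfs cf inter_subset_left)

end Pool.Agent.MP_da1f04_co.H91
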