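import Pool.Agent.MP_da1f04_co.H91Der

/-!
The separation lemma: its data, and the case of a cut with a light side.
-/

set_option autoImplicit false

namespace Pool.Agent.MP_da1f04_co.H91

open Function Set G91

variable {U V α : Type}

/-- The threshold for a light side. -/
def thr (k : ℕ) : ℕ := 2 * ((k + 1) * k) * (k + 2) + k

/-- The weight of a state: terminals `X`, marked vertices `K`, and the other vertices. -/
noncomputable def wt (k s : ℕ) (π : U → V) (σ : U → α) (D X K : Set U) : ℕ :=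
  s * ((k + 1) * (π '' X).ncard + (π '' K).ncard) + (σ '' (D \ X)).ncard

/-- The output of the separation lemma. -/
structure Sep (J : SimpleGraph U) (q k c d s : ℕ) (π : U → V) (σ : U → α) (D X K R B : Set U)
    (ψ : U → ℕ) : Prop where
  rD : ∀ u ∈ R, u ∈ D ∧ u ∉ X
  bD : ∀ u ∈ B, u ∈ D ∧ u ∉ X
  dis : ∀ u ∈ R, u ∉ B
  kk : ∀ u ∈ K, u ∈ R ∨ u ∈ B
  col : Col J q d R ψ
  ne : ∀ u ∈ Lf D X R B, ∀ w, w ∈ B ∨ w ∈ X → ¬ J.Adj u w
  pt : ∀ u ∈ Lf D X R B, ∃ P : Set U, u ∈ P ∧ P ⊆ Lf D X R B ∧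
    (∀ x ∈ P, ∀ y ∈ Lf D X R B, J.Adj x y ∨ π x = π y → y ∈ P) ∧ (σ '' P).ncard ≤ s * thr k
  fc : ∀ u ∈ D, u ∉ X → ∀ w ∈ D, w ∉ X → π u = π w → (u ∈ K ↔ w ∈ K) →
    (u ∈ R → w ∈ R ∧ ψ u = ψ w) ∧ (u ∈ B → w ∈ B)
  dr : ∃ (V' : Type) (π' : U → V'), (∀ u ∈ B ∪ X, ∀ w ∈ B ∪ X, π u = π w → π' u = π' w) ∧
    Der J q k c V' π' (B ∪ X) ∧ s * (π' '' (B ∪ X)).ncard + s * thr k ≤
      (k + 1) * wt k s π σ D X K + max (wt k s π σ D X K) (s * thr k)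

variable {J : SimpleGraph U} {q k c d s : ℕ}

theorem arith1 {m m₁ t w w₁ g : ℕ} (h : s * m₁ + g ≤ (k + 1) * w₁ + max w₁ g)
    (h1 : w₁ + s * t ≤ w) (h2 : m ≤ m₁ + (k + 1) * t) : s * m + g ≤ (k + 1) * w + max w g := by
  have h3 := Nat.mul_le_mul_left s h2
  have h4 := Nat.mul_le_mul_left (k + 1) h1
  have h5 : max w₁ g ≤ max w g := max_le_max (by omega) le_rfl
  nlinarith

theorem drop [Finite U] {π : U → V} {σ : U → α} {D X K : Set U} {a b : Set V} (hq : 0 < q)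
    (hs : 1 ≤ s) (hd : 2 * k + (k + thr k) * 2 ≤ d) (der : Der J q k c V π D)
    (cf : J.CliqueFreeOn D (q + 1)) (h1 : ∀ u ∈ D, π u ∉ a → π u ∈ b)
    (h2 : (π '' {u | u ∈ D ∧ π u ∈ a ∧ π u ∈ b}).ncard ≤ k)
    (h3 : ∀ u ∈ D, π u ∉ b → ∀ w ∈ D, π w ∉ a → ¬ J.Adj u w) (hX : X ⊆ D)
    (hK : ∀ u ∈ K, u ∈ D ∧ u ∉ X)
    (light : wt k s π σ (D \ π ⁻¹' a) (X \ π ⁻¹' a) (K \ π ⁻¹' a) ≤ s * thr k)
    (derB : Der J q k c V π (D ∩ π ⁻¹' b))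
    (ih : ∀ K' : Set U, (∀ u ∈ K', u ∈ D ∩ π ⁻¹' a ∧ u ∉ X ∩ π ⁻¹' a) →
      ∃ R B ψ, Sep J q k c d s π σ (D ∩ π ⁻¹' a) (X ∩ π ⁻¹' a) K' R B ψ) :
    ∃ R B ψ, Sep J q k c d s π σ D X K R B ψ := by
  classical
  set A := π ⁻¹' a with hAd
  set O := {u | u ∈ D ∧ π u ∈ a ∧ π u ∈ b} with hO
  set K₁ := (K ∩ A) ∪ {u | (X \ A).Nonempty ∧ u ∈ O ∧ u ∉ X} with hK₁
  have hA : ∀ u w, π u = π w → u ∈ A → w ∈ A := fun u w e h => (e ▸ h : π w ∈ a)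
  have cut : ∀ u ∈ D, u ∈ A → ∀ w ∈ D, w ∉ A → J.Adj u w → u ∈ O := fun u hu huA w hw hwA h =>
    ⟨hu, huA, by_contra fun h' => h3 u hu h' w hw hwA h⟩
  obtain ⟨R₁, B₁, ψ₁, e⟩ := ih K₁ (by
    rintro u (h | h)
    · exact ⟨⟨(hK u h.1).1, h.2⟩, fun h' => (hK u h.1).2 h'.1⟩
    · exact ⟨⟨h.2.1.1, h.2.1.2.1⟩, fun h' => h.2.2 h'.1⟩)
  have rA : ∀ u ∈ R₁, u ∈ D ∧ u ∈ A ∧ u ∉ X := fun u hu =>
    ⟨(e.rD u hu).1.1, (e.rD u hu).1.2, fun h => (e.rD u hu).2 ⟨h, (e.rD u hu).1.2⟩⟩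
  have bA : ∀ u ∈ B₁, u ∈ D ∧ u ∈ A ∧ u ∉ X := fun u hu =>
    ⟨(e.bD u hu).1.1, (e.bD u hu).1.2, fun h => (e.bD u hu).2 ⟨h, (e.bD u hu).1.2⟩⟩
  set Φ := ψ₁ '' (R₁ ∩ O) with hΦd
  have hΦ : Φ.ncard ≤ 2 * k := by
    have f1 : ∀ T ⊆ R₁ ∩ O, (∀ u ∈ T, ∀ w ∈ T, (u ∈ K₁ ↔ w ∈ K₁)) → (ψ₁ '' T).ncard ≤ k :=
      fun T hT h => (factor_le T ψ₁ π fun u hu w hw e' => ((e.fc u (e.rD u (hT hu).1).1
        (e.rD u (hT hu).1).2 w (e.rD w (hT hw).1).1 (e.rD w (hT hw).1).2 e' (h u hu w hw)).1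
        (hT hu).1).2).trans
        ((ncard_le_ncard (image_mono fun u hu => (hT hu).2) (toFinite _)).trans h2)
    have f2 := f1 ((R₁ ∩ O) ∩ K₁) inter_subset_left fun u hu w hw => iff_of_true hu.2 hw.2
    have f3 := f1 ((R₁ ∩ O) \ K₁) sdiff_subset fun u hu w hw => iff_of_false hu.2 hw.2
    rw [hΦd, ← inter_union_sdiff (R₁ ∩ O) K₁, image_union]
    exact (ncard_union_le _ _).trans (by omega)
  have hl : (k + 1) * (π '' (X \ A)).ncard + (π '' (K \ A)).ncard ≤ thr k :=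
    Nat.le_of_mul_le_mul_left (le_trans (Nat.le_add_right _ _) light) hs
  set S := π '' O ∪ (π '' (X \ A) ∪ π '' (K \ A)) with hS
  have hSn : S.ncard ≤ k + thr k := by
    have f1 := ncard_union_le (π '' O) (π '' (X \ A) ∪ π '' (K \ A))
    have f2 := ncard_union_le (π '' (X \ A)) (π '' (K \ A))
    nlinarith [Nat.zero_le (k * (π '' (X \ A)).ncard)]
  obtain ⟨γ, i₁, p₁⟩ := inj_avoid ((toFinite S).prod (toFinite (univ : Set Bool))) (toFinite Φ)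
    (c := d) (by
      rw [ncard_prod, ncard_univ, Nat.card_eq_fintype_card, Fintype.card_bool]
      omega)
  let Pn : V → Prop → V → Prop := fun y p x => (∃ z ∈ D, ∃ w ∈ D, π z = y ∧ π w = x ∧ J.Adj z w) ∧
    (x ∈ π '' O ∨ (¬ p ∧ x ∈ π '' (X \ A) ∪ π '' (K \ A)))
  let an : V → Prop → V := fun y p => if h : ∃ x, Pn y p x then h.choose else y
  have han : ∀ y p, (∃ x, Pn y p x) → Pn y p (an y p) := by
    intro y p h
    simp only [an, dif_pos h]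
    exact h.choose_spec
  let cm : V → V → Prop := fun y x => ∀ z ∈ D, ∀ w ∈ D, π z = y → π w = x → J.Adj z w
  let ky : V → Prop → V × Bool := fun y p => (an y p, decide (cm y (an y p)))
  let RQ : Set U := {u | u ∈ D ∧ u ∉ X ∧ u ∉ A ∧ ∃ x, Pn (π u) (u ∈ K) x}
  let BQ : Set U := {u | u ∈ K ∧ u ∉ A ∧ u ∉ RQ}
  let ψ : U → ℕ := fun u => if u ∈ A then ψ₁ u else γ (ky (π u) (u ∈ K))
  have ψA : ∀ u ∈ A, ψ u = ψ₁ u := fun u hu => if_pos hu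
  have ψN : ∀ u, u ∉ A → ψ u = γ (ky (π u) (u ∈ K)) := fun u hu => if_neg hu
  have kS : ∀ u ∈ RQ, ky (π u) (u ∈ K) ∈ S ×ˢ (univ : Set Bool) := fun u hu =>
    ⟨(han _ _ hu.2.2.2).2.imp id fun h => h.2, trivial⟩
  have toR : ∀ u ∈ D, u ∉ X → u ∉ A → ∀ w ∈ D, w ∈ A → J.Adj u w → u ∈ RQ :=
    fun u hu huX huA w hw hwA h => ⟨hu, huX, huA, π w, ⟨u, hu, w, hw, rfl, rfl, h⟩,
      Or.inl ⟨w, cut w hw hwA u hu huA h.symm, rfl⟩⟩
  have l1 : ∀ u ∈ Lf D X (R₁ ∪ RQ) (B₁ ∪ BQ), u ∈ A → u ∈ Lf (D ∩ A) (X ∩ A) R₁ B₁ :=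
    fun u hu huA => ⟨⟨hu.1, huA⟩, fun h => hu.2.1 h.1, fun h => hu.2.2.1 (Or.inl h),
      fun h => hu.2.2.2 (Or.inl h)⟩
  have l2 : ∀ u ∈ Lf (D ∩ A) (X ∩ A) R₁ B₁, u ∈ Lf D X (R₁ ∪ RQ) (B₁ ∪ BQ) :=
    fun u hu => ⟨hu.1.1, fun h => hu.2.1 ⟨h, hu.1.2⟩,
      fun h => h.elim hu.2.2.1 fun h => h.2.2.1 hu.1.2,
      fun h => h.elim hu.2.2.2 fun h => h.2.1 hu.1.2⟩
  have lA : ∀ u ∈ Lf D X (R₁ ∪ RQ) (B₁ ∪ BQ), u ∉ A → ∀ w ∈ D, w ∈ A → ¬ J.Adj u w :=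
    fun u hu huA w hw hwA h => hu.2.2.1 (Or.inr (toR u hu.1 hu.2.1 huA w hw hwA h))
  refine ⟨R₁ ∪ RQ, B₁ ∪ BQ, ψ, ?_, ?_, ?_, ?_, ⟨?_, ?_⟩, ?_, ?_, ?_, ?_⟩
  · rintro u (h | h)
    exacts [⟨(rA u h).1, (rA u h).2.2⟩, ⟨h.1, h.2.1⟩]
  · rintro u (h | h)
    exacts [⟨(bA u h).1, (bA u h).2.2⟩, hK u h.1]
  · rintro u (h | h) (h' | h')
    exacts [e.dis u h h', h'.2.1 (rA u h).2.1, h.2.2.1 (bA u h').2.1, h'.2.2 h]
  · intro u hu
    by_cases h : u ∈ A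
    · exact (e.kk u (Or.inl ⟨hu, h⟩)).imp Or.inl Or.inl
    · by_cases h' : u ∈ RQ
      exacts [Or.inl (Or.inr h'), Or.inr (Or.inr ⟨hu, h, h'⟩)]
  · rintro u (h | h)
    · rw [ψA u (rA u h).2.1]
      exact e.col.lt u h
    · rw [ψN u h.2.2.1]
      exact (p₁ _ (kS u h)).1
  · intro i T hT hc
    by_cases h4 : ∀ u ∈ T, u ∈ R₁
    · exact e.col.oc i (fun u hu => ⟨h4 u hu, (ψA u (rA u (h4 u hu)).2.1).symm.trans (hT hu).2⟩) hc
    push Not at h4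
    obtain ⟨u, hu, huR⟩ := h4
    have huQ : u ∈ RQ := (hT hu).1.resolve_left huR
    have hall : ∀ w ∈ T, w ∈ RQ := by
      intro w hw
      rcases (hT hw).1 with h | h
      · exfalso
        have hwu : w ≠ u := fun e => huR (e ▸ h)
        refine (p₁ _ (kS u huQ)).2 ⟨w, ⟨h, cut w (rA w h).1 (rA w h).2.1 u huQ.1 huQ.2.2.1
          (hc.1 hw hu hwu)⟩, ?_⟩
        rw [← ψA w (rA w h).2.1, ← ψN u huQ.2.2.1, (hT hw).2, (hT hu).2]
      · exact h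
    have hE : ∀ w ∈ T, ky (π w) (w ∈ K) = ky (π u) (u ∈ K) := by
      intro w hw
      refine i₁ (kS w (hall w hw)) (kS u huQ) ?_
      rw [← ψN w (hall w hw).2.2.1, ← ψN u huQ.2.2.1, (hT hw).2, (hT hu).2]
    have hE1 : ∀ w ∈ T, an (π w) (w ∈ K) = an (π u) (u ∈ K) := fun w hw =>
      congrArg Prod.fst (hE w hw)
    have hE2 : ∀ w ∈ T, (cm (π w) (an (π u) (u ∈ K)) ↔ cm (π u) (an (π u) (u ∈ K))) := by
      intro w hw
      have := congrArg Prod.snd (hE w hw)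
      simp only [ky, hE1 w hw, decide_eq_decide] at this
      exact this
    by_cases hcm : cm (π u) (an (π u) (u ∈ K))
    · obtain ⟨⟨-, -, y, hy, -, ey, -⟩, -⟩ := han _ _ huQ.2.2.2
      exact SimpleGraph.CliqueFreeOn.of_succ J cf hy (t := T) (fun w hw => ⟨(hall w hw).1,
        ((hE2 w hw).2 hcm w (hall w hw).1 y hy rfl ey).symm⟩) hc
    · refine der.nb hq {y | y ∈ D ∧ π y = an (π u) (u ∈ K)} T (fun _ h => h.1)
        (fun _ h _ h' => h.2.trans h'.2.symm) (fun w hw => (hall w hw).1) (fun w hw => ?_) hc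
      obtain ⟨⟨z, hz, y, hy, ez, ey, ha⟩, -⟩ := han _ _ (hall w hw).2.2.2
      have h5 : ¬ cm (π w) (an (π u) (u ∈ K)) := fun h => hcm ((hE2 w hw).1 h)
      simp only [cm] at h5
      push Not at h5
      obtain ⟨z', hz', y', hy', ez', ey', ha'⟩ := h5
      exact ⟨z, hz, z', hz', y, ⟨hy, ey.trans (hE1 w hw)⟩, y', ⟨hy', ey'⟩, ez, ez', Or.inr ha, ha'⟩
  · intro u hu w hw ha
    have hwD : w ∈ D := by
      rcases hw with (h | h) | h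
      exacts [(bA w h).1, (hK w h.1).1, hX h]
    by_cases huA : u ∈ A <;> by_cases hwA : w ∈ A
    · refine e.ne u (l1 u hu huA) w ?_ ha
      rcases hw with (h | h) | h
      exacts [Or.inl h, absurd hwA h.2.1, Or.inr ⟨h, hwA⟩]
    · rcases hw with (h | h) | h
      · exact hwA (bA w h).2.1
      · exact h.2.2 (toR w hwD (hK w h.1).2 hwA u hu.1 huA ha.symm)
      · exact (e.kk u (Or.inr ⟨⟨w, h, hwA⟩, cut u hu.1 huA w hwD hwA ha, hu.2.1⟩)).elim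
          (l1 u hu huA).2.2.1 (l1 u hu huA).2.2.2
    · exact lA u hu huA w hwD hwA ha
    · have huK : u ∉ K := fun h =>
        hu.2.2.2 (Or.inr ⟨h, huA, fun h' => hu.2.2.1 (Or.inr h')⟩)
      refine hu.2.2.1 (Or.inr ⟨hu.1, hu.2.1, huA, π w, ⟨u, hu.1, w, hwD, rfl, rfl, ha⟩,
        Or.inr ⟨huK, ?_⟩⟩)
      rcases hw with (h | h) | h
      exacts [absurd (bA w h).2.1 hwA, Or.inr ⟨w, ⟨h.1, hwA⟩, rfl⟩, Or.inl ⟨w, ⟨h, hwA⟩, rfl⟩]
  · intro u hu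
    by_cases huA : u ∈ A
    · obtain ⟨P, f1, f2, f3, f4⟩ := e.pt u (l1 u hu huA)
      refine ⟨P, f1, fun x hx => l2 x (f2 hx), fun x hx y hy h => f3 x hx y (l1 y hy ?_) h, f4⟩
      rcases h with h | h
      · exact by_contra fun hyA => lA y hy hyA x (f2 hx).1.1 (f2 hx).1.2 h.symm
      · exact hA x y h (f2 hx).1.2
    · refine ⟨Lf D X (R₁ ∪ RQ) (B₁ ∪ BQ) \ A, ⟨hu, huA⟩, sdiff_subset,
        fun x hx y hy h => ⟨hy, fun hyA => ?_⟩,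
        le_trans (le_trans (ncard_le_ncard (image_mono ?_) (toFinite _)) (Nat.le_add_left _ _))
          light⟩
      · exact h.elim (lA x hx.1 hx.2 y hy.1 hyA) fun h => hx.2 (hA y x h.symm hyA)
      · exact fun x hx => ⟨⟨hx.1.1, hx.2⟩, fun h => hx.1.2.1 h.1⟩
  · intro u hu huX w hw hwX e' hk
    by_cases huA : u ∈ A
    · have hwA := hA u w e' huA
      have f1 := e.fc u ⟨hu, huA⟩ (fun h => huX h.1) w ⟨hw, hwA⟩ (fun h => hwX h.1) e' (by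
        refine or_congr (and_congr hk (iff_of_true huA hwA)) (and_congr_right fun _ => ?_)
        exact ⟨fun h => ⟨⟨hw, hwA, e' ▸ h.1.2.2⟩, hwX⟩, fun h => ⟨⟨hu, huA, e' ▸ h.1.2.2⟩, huX⟩⟩)
      refine ⟨?_, ?_⟩
      · rintro (h | h)
        · exact ⟨Or.inl (f1.1 h).1, by rw [ψA u huA, ψA w hwA, (f1.1 h).2]⟩
        · exact absurd huA h.2.2.1
      · rintro (h | h)
        exacts [Or.inl (f1.2 h), absurd huA h.2.1]
    · have hwA : w ∉ A := fun h => huA (hA w u e'.symm h)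
      have f1 : u ∈ RQ ↔ w ∈ RQ := by
        simp only [RQ, mem_ofPred_eq, hu, hw, huX, hwX, huA, hwA, e', propext hk]
      refine ⟨?_, ?_⟩
      · rintro (h | h)
        · exact absurd (rA u h).2.1 huA
        · exact ⟨Or.inr (f1.1 h), by rw [ψN u huA, ψN w hwA, e', propext hk]⟩
      · rintro (h | h)
        exacts [absurd (bA u h).2.1 huA, Or.inr ⟨hk.1 h.1, hwA, fun h' => h.2.2 (f1.2 h')⟩]
  · obtain ⟨V₁, π₁, c₁, d₁, n₁⟩ := e.dr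
    have eS : ((B₁ ∪ BQ) ∪ X) ∩ A = B₁ ∪ X ∩ A := by
      ext u
      constructor
      · rintro ⟨(h | h) | h, hu⟩
        exacts [Or.inl h, absurd hu h.2.1, Or.inr ⟨h, hu⟩]
      · rintro (h | h)
        exacts [⟨Or.inl (Or.inl h), (bA u h).2.1⟩, ⟨Or.inr h.1, h.2⟩]
    have SD : (B₁ ∪ BQ) ∪ X ⊆ D := by
      rintro u ((h | h) | h)
      exacts [(bA u h).1, (hK u h.1).1, hX h]
    have t1 : (π '' (((B₁ ∪ BQ) ∪ X) \ A)).ncard ≤
        (π '' (X \ A)).ncard + (π '' (K \ A)).ncard := by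
      refine le_trans (ncard_le_ncard ?_ (toFinite _)) (ncard_union_le _ _)
      rintro _ ⟨u, ⟨(h | h) | h, hu⟩, rfl⟩
      exacts [absurd (bA u h).2.1 hu, Or.inr ⟨u, ⟨h.1, hu⟩, rfl⟩, Or.inl ⟨u, ⟨h, hu⟩, rfl⟩]
    have sX := img_split π hA X
    have sK := img_split π hA K
    have sZ : (σ '' ((D ∩ A) \ (X ∩ A))).ncard ≤ (σ '' (D \ X)).ncard :=
      ncard_le_ncard (image_mono fun u hu => ⟨hu.1.1, fun h => hu.2 ⟨h, hu.1.2⟩⟩) (toFinite _)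
    rcases (X \ A).eq_empty_or_nonempty with hXA | hXA
    · obtain ⟨V', π', c', d', n'⟩ := join (π₁ := π₁) (π₂ := π) (S := (B₁ ∪ BQ) ∪ X) (a := a)
        (b := aᶜ) (fun u _ h => h) (by simp) (by
          rintro u hu h w ((h' | h') | h') hw ha
          · exact hw (bA w h').2.1
          · exact h'.2.2 (toR w (hK w h'.1).1 (hK w h'.1).2 hw u (SD hu) (not_not.1 h) ha.symm)
          · exact (hXA ▸ (⟨h', hw⟩ : w ∈ X \ A) : w ∈ (∅ : Set U)))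
        (eS ▸ d₁) (derB.sub _ fun u hu => ⟨SD hu.1, h1 u (SD hu.1) hu.2⟩) (eS ▸ c₁)
        fun _ _ _ _ => id
      refine ⟨V', π', c', d', arith1 n₁ (t := (π '' (K \ A)).ncard) ?_ ?_⟩
      · have f1 : K₁ = K ∩ A := by simp [hK₁, hXA]
        have f2 : (k + 1) * (π '' (X ∩ A)).ncard ≤ (k + 1) * (π '' X).ncard :=
          Nat.mul_le_mul_left _ (by omega)
        have f3 := Nat.mul_le_mul_left s (show (k + 1) * (π '' (X ∩ A)).ncard +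
          (π '' (K ∩ A)).ncard + (π '' (K \ A)).ncard ≤
          (k + 1) * (π '' X).ncard + (π '' K).ncard by omega)
        unfold wt
        rw [f1]
        rw [mul_add s _ (π '' (K \ A)).ncard] at f3
        omega
      · rw [← hAd, eS] at n'
        simp only [mem_compl_iff, and_not_self, and_false, ofPred_false, image_empty, ncard_empty,
          hXA] at n' t1
        nlinarith [Nat.zero_le (k * (π '' (K \ A)).ncard)]
    · have f0 : (π '' {u | u ∈ (B₁ ∪ BQ) ∪ X ∧ π u ∈ a ∧ π u ∈ b}).ncard ≤ k :=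
        le_trans (ncard_le_ncard (image_mono fun u hu => (⟨SD hu.1, hu.2⟩ : u ∈ O)) (toFinite _)) h2
      obtain ⟨V', π', c', d', n'⟩ := join (π₁ := π₁) (π₂ := π) (S := (B₁ ∪ BQ) ∪ X) (a := a)
        (b := b) (fun u hu => h1 u (SD hu)) f0
        (fun u hu h w hw => h3 u (SD hu) h w (SD hw)) (eS ▸ d₁)
        (derB.sub _ (inter_subset_inter_left _ SD)) (eS ▸ c₁) fun _ _ _ _ => id
      have x1 : 1 ≤ (π '' (X \ A)).ncard := (ncard_pos (toFinite _)).2 (hXA.image π)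
      have x2 := Nat.mul_le_mul_left k x1
      refine ⟨V', π', c', d',
        arith1 n₁ (t := (π '' (X \ A)).ncard + (π '' (K \ A)).ncard) ?_ ?_⟩
      · have f1 : (π '' K₁).ncard ≤ (π '' (K ∩ A)).ncard + k := by
          rw [hK₁, image_union]
          exact (ncard_union_le _ _).trans (add_le_add le_rfl
            ((ncard_le_ncard (image_mono fun u hu => hu.2.1) (toFinite _)).trans h2))
        have f2 := Nat.mul_le_mul_left (k + 1) sX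
        have f3 := Nat.mul_le_mul_left s (show (k + 1) * (π '' (X ∩ A)).ncard +
          (π '' K₁).ncard + ((π '' (X \ A)).ncard + (π '' (K \ A)).ncard) ≤
          (k + 1) * (π '' X).ncard + (π '' K).ncard by nlinarith)
        unfold wt
        rw [mul_add s _ (_ + (π '' (K \ A)).ncard)] at f3
        omega
      · rw [← hAd, eS] at n'
        nlinarith [Nat.zero_le (k * (π '' (K \ A)).ncard)]

end Pool.Agent.MP_da1f04_co.H91
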