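import Pool.Agent.MP_da1f04_co.H91Sep

/-!
The recursion: squaring the number of fibres costs boundedly many colours.
-/

set_option autoImplicit false

namespace Pool.Agent.MP_da1f04_co.H91

open Function Set G91

variable {U : Type} {J : SimpleGraph U} {q k c d r : ℕ}

theorem parts {V : Type} (π : U → V) (hq : 0 < q) (L : Set U)
    (h : ∀ u ∈ L, ∃ P : Set U, u ∈ P ∧ (∀ x ∈ P, ∀ y ∈ L, J.Adj x y ∨ π x = π y → y ∈ P) ∧
      ∀ Q ⊆ P, ∃ φ : U → ℕ, Col J q r Q φ ∧ ∀ x ∈ Q, ∀ y ∈ Q, π x = π y → φ x = φ y) :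
    ∃ φ : U → ℕ, Col J q r L φ ∧ ∀ x ∈ L, ∀ y ∈ L, π x = π y → φ x = φ y := by
  classical
  let cp : U → Set U := fun u =>
    {w | ∀ P : Set U, (∀ x ∈ P, ∀ y ∈ L, J.Adj x y ∨ π x = π y → y ∈ P) → u ∈ P → w ∈ P}
  have c1 : ∀ u, u ∈ cp u := fun u _ _ h => h
  have c2 : ∀ u ∈ L, ∀ w ∈ L, J.Adj u w ∨ π u = π w → cp u = cp w := by
    intro u hu w hw ha
    ext z
    exact ⟨fun hz P hP h => hz P hP (hP w h u hu (ha.imp (·.symm) (·.symm))),
      fun hz P hP h => hz P hP (hP u h w hw ha)⟩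
  let Φ : Set U → (U → ℕ) → Prop := fun Q φ =>
    Col J q r Q φ ∧ ∀ x ∈ Q, ∀ y ∈ Q, π x = π y → φ x = φ y
  let ch : Set U → U → ℕ := fun Q => if h : ∃ φ, Φ Q φ then h.choose else fun _ => 0
  have c3 : ∀ u ∈ L, Φ (cp u) (ch (cp u)) := by
    intro u hu
    obtain ⟨P, h1, h3, h4⟩ := h u hu
    have h5 : ∃ φ, Φ (cp u) φ := h4 _ fun w hw => hw P h3 h1
    simp only [ch, dif_pos h5]
    exact h5.choose_spec
  refine ⟨fun u => ch (cp u) u, ⟨fun u hu => (c3 u hu).1.lt u (c1 u), fun i K hK hc => ?_⟩,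
    fun x hx y hy e => ?_⟩
  · obtain ⟨u, hu⟩ := nonempty_of_clique hq hc
    refine (c3 u (hK hu).1).1.oc i (fun w hw => ?_) hc
    have e : cp w = cp u := by
      by_cases h : w = u
      · rw [h]
      · exact c2 w (hK hw).1 u (hK hu).1 (Or.inl (hc.1 hw hu h))
    exact ⟨e ▸ c1 w, e ▸ (hK hw).2⟩
  · have e' := c2 x hx y hy (Or.inr e)
    have := (c3 x hx).2 x (c1 x) y (e' ▸ c1 y) e
    simp only [← e']
    exact this

theorem stack' {L S : Set U} {φ χ : U → ℕ} (h1 : Col J q r L φ) (h2 : Col J q d S χ) :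
    ∃ φ' : U → ℕ, Col J q (r + d) (L ∪ S) φ' ∧ (∀ u ∈ S, φ' u = r + χ u) ∧
      ∀ u, u ∉ S → φ' u = φ u := by
  classical
  let φ' : U → ℕ := fun u => if u ∈ S then r + χ u else φ u
  have e1 : ∀ u ∈ S, φ' u = r + χ u := fun u hu => if_pos hu
  have e2 : ∀ u, u ∉ S → φ' u = φ u := fun u hu => if_neg hu
  have e3 : ∀ u ∈ L ∪ S, u ∉ S → φ' u < r := fun u hu h => by
    rw [e2 u h]
    exact h1.lt u (hu.resolve_right h)
  refine ⟨φ', ⟨fun u hu => ?_, fun i K hK hc => ?_⟩, e1, e2⟩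
  · by_cases h : u ∈ S
    · have := h2.lt u h
      rw [e1 u h]
      omega
    · have := e3 u hu h
      omega
  · by_cases hi : i < r
    · have hS : ∀ u ∈ K, u ∉ S := fun u hu h => by
        have := (hK hu).2
        rw [e1 u h] at this
        omega
      exact h1.oc i (fun u hu => ⟨(hK hu).1.resolve_right (hS u hu),
        (e2 u (hS u hu)).symm.trans (hK hu).2⟩) hc
    · have hS : ∀ u ∈ K, u ∈ S := fun u hu => by_contra fun h =>
        hi ((hK hu).2 ▸ e3 u (hK hu).1 h)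
      refine h2.oc (i - r) (fun u hu => ⟨hS u hu, ?_⟩) hc
      have := (hK hu).2
      rw [e1 u (hS u hu)] at this
      omega

/-- States with at most `n` fibres have colourings with `r` colours that are constant on the
fibres and whose classes have no clique of size `q`. -/
def OO (J : SimpleGraph U) (q k c n r : ℕ) : Prop :=
  ∀ (V : Type) (π : U → V) (D : Set U), Der J q k c V π D → J.CliqueFreeOn D (q + 1) →
    (π '' D).ncard ≤ n → ∃ φ : U → ℕ, Col J q r D φ ∧ ∀ x ∈ D, ∀ y ∈ D, π x = π y → φ x = φ y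

theorem OO.base [Finite U] (hq : 0 < q) (n : ℕ) : OO J q k c n n := by
  intro V π D der _ hn
  obtain ⟨γ, h1, h2⟩ := inj_avoid (toFinite (π '' D)) finite_empty (c := n) (by simpa using hn)
  refine ⟨fun u => γ (π u), ⟨fun u hu => (h2 _ ⟨u, hu, rfl⟩).1, fun i T hT hc => ?_⟩,
    fun x _ y _ e => by simp only [e]⟩
  obtain ⟨u, hu⟩ := nonempty_of_clique hq hc
  exact der.fib hq (π u) (fun w hw => ⟨(hT hw).1, h1 ⟨w, (hT hw).1, rfl⟩ ⟨u, (hT hu).1, rfl⟩
    ((hT hw).2.trans (hT hu).2.symm)⟩) hc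

theorem OO.step [Finite U] {s : ℕ} (hq : 0 < q) (hs : 1 ≤ s) (hc : c ≤ d)
    (hd : 2 * k + (k + thr k) * 2 ≤ d) (h : OO J q k c ((k + 2 + thr k) * s) r) :
    OO J q k c (s * s) (r + d) := by
  intro V π D der cf hn
  obtain ⟨R, B, ψ, e⟩ := sep hq hs hc hd π der cf (fun _ _ _ _ => id) ∅ ∅ (empty_subset _)
    fun _ h => h.elim
  obtain ⟨V', π', c', d', n'⟩ := e.dr
  rw [union_empty] at c' d' n'
  have hB : (π' '' B).ncard ≤ (k + 2 + thr k) * s := by
    have h1 : wt k s π π D ∅ ∅ ≤ s * s := by simpa [wt] using hn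
    have h2 : max (wt k s π π D ∅ ∅) (s * thr k) ≤ s * s + s * thr k :=
      max_le (h1.trans (Nat.le_add_right _ _)) (Nat.le_add_left _ _)
    have h3 := Nat.mul_le_mul_left (k + 1) h1
    refine Nat.le_of_mul_le_mul_left (show s * _ ≤ s * _ from ?_) hs
    nlinarith [Nat.zero_le (s * s * thr k)]
  have fc := fun u hu w hw e' => e.fc u hu id w hw id e' Iff.rfl
  obtain ⟨φ, c1, c2⟩ := parts (J := J) (r := r) π hq (D \ R) (fun u hu => by
    by_cases huB : u ∈ B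
    · refine ⟨B, huB, fun x hx y hy ha => ?_, fun Q hQ => ?_⟩
      · rcases ha with ha | ha
        · exact by_contra fun hyB => e.ne y ⟨hy.1, id, hy.2, hyB⟩ x (Or.inl hx) ha.symm
        · exact (fc x (e.bD x hx).1 y hy.1 ha).2 hx
      · obtain ⟨φ, f1, f2⟩ := h V' π' Q (d'.sub Q hQ) (cfs cf fun x hx => (e.bD x (hQ hx)).1)
          ((ncard_le_ncard (image_mono hQ) (toFinite _)).trans hB)
        exact ⟨φ, f1, fun x hx y hy e' => f2 x hx y hy (c' x (hQ hx) y (hQ hy) e')⟩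
    · obtain ⟨P, f1, f2, f3, f4⟩ := e.pt u ⟨hu.1, id, hu.2, huB⟩
      refine ⟨P, f1, fun x hx y hy ha => f3 x hx y ⟨hy.1, id, hy.2, fun hyB => ?_⟩ ha,
        fun Q hQ => h V π Q (der.sub Q fun x hx => (f2 (hQ hx)).1)
          (cfs cf fun x hx => (f2 (hQ hx)).1)
          ((ncard_le_ncard (image_mono hQ) (toFinite _)).trans (f4.trans ?_))⟩
      · rcases ha with ha | ha
        · exact e.ne x (f2 hx) y (Or.inl hyB) ha
        · exact (f2 hx).2.2.2 ((fc y hy.1 x (f2 hx).1 ha.symm).2 hyB)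
      · rw [mul_comm]
        exact Nat.mul_le_mul_right _ (Nat.le_add_left _ _))
  obtain ⟨φ', c3, c4, c5⟩ := stack' c1 e.col
  rw [sdiff_union_of_subset fun u hu => (e.rD u hu).1] at c3
  refine ⟨φ', c3, fun x hx y hy e' => ?_⟩
  by_cases h : x ∈ R
  · rw [c4 x h, c4 y ((fc x hx y hy e').1 h).1, ((fc x hx y hy e').1 h).2]
  · have h' : y ∉ R := fun h' => h ((fc y hy x hx e'.symm).1 h').1
    rw [c5 x h, c5 y h']
    exact c2 x ⟨hx, h⟩ y ⟨hy, h'⟩ e'

theorem OO.iter [Finite U] (hq : 0 < q) (hc : c ≤ d) (hd : 2 * k + (k + thr k) * 2 ≤ d) (s : ℕ) :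
    OO J q k c ((k + 2 + thr k) * ((k + 2 + thr k) * 2 ^ 2 ^ s))
      ((k + 2 + thr k) * ((k + 2 + thr k) * 2) + s * d) := by
  induction s with
  | zero => simpa using OO.base hq _
  | succ s ih =>
    have h := OO.step hq (Nat.mul_pos (by omega) (by positivity)) hc hd ih
    rw [add_mul s, one_mul, ← add_assoc, pow_succ 2 s, pow_mul, sq]
    convert h using 1
    ring

theorem level {C : GClass} {f : ℕ → ℕ}
    (hf : ∀ (V : Type) (G : SimpleGraph V), Finite V → C V G → ∀ (s : Set V) (m : ℕ),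
      (G.induce s).CliqueFree (m + 1) → (G.induce s).Colorable (f m)) (k m : ℕ) :
    ∃ c : ℕ, ∀ (U W : Type) [Finite U] (J : SimpleGraph U) (H : SimpleGraph W), Cl C k W H →
      (J ↪g H) → ∀ s, 1 ≤ s → Fm J (m + 2) (2 ^ 2 ^ s) (c * s ^ m) := by
  induction m with
  | zero =>
    refine ⟨1, fun U W _ J H _ _ s _ D cf _ => ⟨fun _ => 0, fun u hu => ⟨by simp,
      fun y hy ha _ => ?_⟩⟩⟩
    exact (J.cliqueFreeOn_two.1 cf) hu hy ha.ne ha
  | succ m ih =>
    obtain ⟨c, hc⟩ := ih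
    set N := k + 2 + thr k with hN
    set d := f (m + 2) + (2 * k + (k + thr k) * 2) with hd
    refine ⟨(N * (N * 2) + d) * (c + 1), fun U W _ J H h e s hs D cf hD => ?_⟩
    have der : Der J (m + 2) k (f (m + 2)) W e D := fine hf h e D
      (fun u _ w _ _ => e.map_adj_iff.symm) (fun x K hK hc => by
        obtain ⟨u, hu, w, hw, hne⟩ := Finset.one_lt_card.1 (show 1 < K.card by rw [hc.2]; omega)
        exact hne (e.injective ((hK hu).2.trans (hK hw).2.symm))) cf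
    have hN1 : 1 ≤ N := by omega
    obtain ⟨φ, c1, -⟩ := OO.iter (d := d) (by omega) (by omega) (by omega) s W e D der cf
      (((ncard_image_le (toFinite _)).trans hD).trans
        ((Nat.le_mul_of_pos_left _ hN1).trans (Nat.le_mul_of_pos_left _ hN1)))
    obtain ⟨φ', c2, c3⟩ := finer (by omega) c1 hD (hc U W J H h e s hs)
    refine ⟨φ', fun u hu => ⟨(c2.lt u hu).trans_le ?_, c3 u hu hu⟩⟩
    have h1 : N * (N * 2) + s * d ≤ (N * (N * 2) + d) * s := by
      rw [add_mul _ d s, mul_comm s]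
      exact add_le_add (Nat.le_mul_of_pos_right _ hs) le_rfl
    have h2 : c * s ^ m + 1 ≤ (c + 1) * s ^ m := by
      rw [add_mul, one_mul]
      exact add_le_add le_rfl (Nat.one_le_pow _ _ hs)
    refine (Nat.mul_le_mul h1 h2).trans (le_of_eq ?_)
    ring

theorem loglog (C : GClass) (hC : ChiBounded C) (k m : ℕ) : ∃ c : ℕ, ∀ (U W : Type)
    (J : SimpleGraph U) (H : SimpleGraph W), Cl C k W H → Nonempty (J ↪g H) →
      J.CliqueFree (m + 2) → ∀ s : ℕ, 1 ≤ s → Nat.card U ≤ 2 ^ 2 ^ s →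
        J.Colorable (c * s ^ m) := by
  obtain ⟨f, hf⟩ := hC
  obtain ⟨c, hc⟩ := level hf k m
  refine ⟨c, fun U W J H h ⟨e⟩ cf s hs hn => ?_⟩
  have := h.finite
  have : Finite U := Finite.of_injective e e.injective
  obtain ⟨g, hg⟩ := hc U W J H h e s hs univ cf.cliqueFreeOn (by rwa [ncard_univ])
  exact ⟨SimpleGraph.Coloring.mk (fun u => ⟨g u, (hg u trivial).1⟩) fun {u w} ha h' =>
    (hg u trivial).2 w trivial ha (congrArg Fin.val h').symm⟩

end Pool.Agent.MP_da1f04_co.H91
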