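import Pool.Agent.MP_da1f04_co.H91Drop

/-!
The separation lemma: the case of a cut with two heavy sides, and the induction.
-/

set_option autoImplicit false

namespace Pool.Agent.MP_da1f04_co.H91

open Function Set G91

variable {U V α : Type} {J : SimpleGraph U} {q k c d s : ℕ}

theorem arith2 {m m₁ m₂ w w₁ w₂ : ℕ}
    (h1 : s * m₁ + s * thr k ≤ (k + 1) * w₁ + max w₁ (s * thr k))
    (h2 : s * m₂ + s * thr k ≤ (k + 1) * w₂ + max w₂ (s * thr k)) (a1 : s * thr k ≤ w₁)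
    (a2 : s * thr k ≤ w₂) (a3 : w₁ + w₂ ≤ w + 2 * (s * ((k + 1) * k))) (a4 : m ≤ m₁ + m₂ + k) :
    s * m + s * thr k ≤ (k + 1) * w + max w (s * thr k) := by
  rw [max_eq_left a1] at h1
  rw [max_eq_left a2] at h2
  have h3 := Nat.mul_le_mul_left s a4
  have h4 := Nat.mul_le_mul_left (k + 2) a3
  have h5 := le_max_left w (s * thr k)
  have h6 : s * thr k = (k + 2) * (2 * (s * ((k + 1) * k))) + s * k := by
    unfold thr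
    ring
  nlinarith

theorem wside [Finite U] {π : U → V} {σ : U → α} {D X K A Bs O : Set U}
    (hO : ∀ u, u ∈ O ↔ u ∈ D ∧ u ∈ A ∧ u ∈ Bs) (cov : ∀ u ∈ D, u ∉ Bs → u ∈ A) (hX : X ⊆ D)
    (hk : (π '' O).ncard ≤ k) :
    wt k s π σ (D \ Bs) (X \ Bs) (K \ Bs) ≤ wt k s π σ (D ∩ A) (X ∩ A ∪ O) (K \ Bs) ∧
      wt k s π σ (D ∩ A) (X ∩ A ∪ O) (K \ Bs) ≤
        wt k s π σ (D \ Bs) (X \ Bs) (K \ Bs) + s * ((k + 1) * k) := by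
  have e : (D ∩ A) \ (X ∩ A ∪ O) = (D \ Bs) \ (X \ Bs) := by
    ext u
    constructor
    · rintro ⟨h1, h2⟩
      exact ⟨⟨h1.1, fun h => h2 (Or.inr ((hO u).2 ⟨h1.1, h1.2, h⟩))⟩,
        fun h => h2 (Or.inl ⟨h.1, h1.2⟩)⟩
    · rintro ⟨h1, h2⟩
      exact ⟨⟨h1.1, cov u h1.1 h1.2⟩,
        fun h => h.elim (fun h => h2 ⟨h.1, h1.2⟩) fun h => h1.2 ((hO u).1 h).2.2⟩
  have f1 : (π '' (X \ Bs)).ncard ≤ (π '' (X ∩ A ∪ O)).ncard :=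
    ncard_le_ncard (image_mono fun u hu => Or.inl ⟨hu.1, cov u (hX hu.1) hu.2⟩) (toFinite _)
  have f2 : (π '' (X ∩ A ∪ O)).ncard ≤ (π '' (X \ Bs)).ncard + k := by
    refine le_trans (ncard_le_ncard ?_ (toFinite _))
      ((ncard_union_le _ (π '' O)).trans (add_le_add le_rfl hk))
    rintro _ ⟨u, hu | hu, rfl⟩
    · by_cases h : u ∈ Bs
      exacts [Or.inr ⟨u, (hO u).2 ⟨hX hu.1, hu.2, h⟩, rfl⟩, Or.inl ⟨u, ⟨hu.1, h⟩, rfl⟩]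
    · exact Or.inr ⟨u, hu, rfl⟩
  have f3 := Nat.mul_le_mul_left s (Nat.mul_le_mul_left (k + 1) f1)
  have f4 := Nat.mul_le_mul_left s (Nat.mul_le_mul_left (k + 1) f2)
  unfold wt
  rw [e]
  simp only [mul_add s, mul_add (k + 1)] at f3 f4 ⊢
  omega

theorem img_two [Finite U] {β : Type} (f : U → β) {S S₁ S₂ : Set U} (h1 : S₁ ⊆ S) (h2 : S₂ ⊆ S)
    (h : ∀ u ∈ S₁, ∀ w ∈ S₂, f u ≠ f w) : (f '' S₁).ncard + (f '' S₂).ncard ≤ (f '' S).ncard := by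
  rw [← ncard_union_eq _ (toFinite _) (toFinite _), ← image_union]
  · exact ncard_le_ncard (image_mono (union_subset h1 h2)) (toFinite _)
  · rw [Set.disjoint_left]
    rintro _ ⟨u, hu, rfl⟩ ⟨w, hw, e⟩
    exact h u hu w hw e.symm

theorem branch [Finite U] {π : U → V} {σ : U → α} {D X K : Set U} {a b : Set V}
    (hσ : ∀ u ∈ D, ∀ w ∈ D, σ u = σ w → π u = π w) (h1 : ∀ u ∈ D, π u ∉ a → π u ∈ b)
    (h2 : (π '' {u | u ∈ D ∧ π u ∈ a ∧ π u ∈ b}).ncard ≤ k)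
    (h3 : ∀ u ∈ D, π u ∉ b → ∀ w ∈ D, π w ∉ a → ¬ J.Adj u w) (hX : X ⊆ D)
    (hK : ∀ u ∈ K, u ∈ D ∧ u ∉ X)
    (ha : s * thr k ≤ wt k s π σ (D \ π ⁻¹' a) (X \ π ⁻¹' a) (K \ π ⁻¹' a))
    (hb : s * thr k ≤ wt k s π σ (D \ π ⁻¹' b) (X \ π ⁻¹' b) (K \ π ⁻¹' b))
    (ih1 : ∀ X' K' : Set U, X' ⊆ D ∩ π ⁻¹' a → (∀ u ∈ K', u ∈ D ∩ π ⁻¹' a ∧ u ∉ X') →
      ∃ R B ψ, Sep J q k c d s π σ (D ∩ π ⁻¹' a) X' K' R B ψ)
    (ih2 : ∀ X' K' : Set U, X' ⊆ D ∩ π ⁻¹' b → (∀ u ∈ K', u ∈ D ∩ π ⁻¹' b ∧ u ∉ X') →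
      ∃ R B ψ, Sep J q k c d s π σ (D ∩ π ⁻¹' b) X' K' R B ψ) :
    ∃ R B ψ, Sep J q k c d s π σ D X K R B ψ := by
  classical
  set A := π ⁻¹' a with hAd
  set Bs := π ⁻¹' b with hBd
  set O := {u | u ∈ D ∧ π u ∈ a ∧ π u ∈ b} with hO
  have hA : ∀ u w, π u = π w → u ∈ A → w ∈ A := fun u w e h => (e ▸ h : π w ∈ a)
  have hB : ∀ u w, π u = π w → u ∈ Bs → w ∈ Bs := fun u w e h => (e ▸ h : π w ∈ b)
  have cov : ∀ u ∈ D, u ∉ A → u ∈ Bs := h1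
  have cov' : ∀ u ∈ D, u ∉ Bs → u ∈ A := fun u hu h => by_contra fun h' => h (cov u hu h')
  have cut : ∀ u ∈ D, u ∉ Bs → ∀ w ∈ D, w ∉ A → ¬ J.Adj u w := h3
  obtain ⟨R₁, B₁, ψ₁, e⟩ := ih1 (X ∩ A ∪ O) (K \ Bs)
    (fun u hu => hu.elim (fun h => ⟨hX h.1, h.2⟩) fun h => ⟨h.1, h.2.1⟩) fun u hu =>
      ⟨⟨(hK u hu.1).1, cov' u (hK u hu.1).1 hu.2⟩,
        fun h => h.elim (fun h => (hK u hu.1).2 h.1) fun h => hu.2 h.2.2⟩
  obtain ⟨R₂, B₂, ψ₂, f⟩ := ih2 (X ∩ Bs ∪ O) (K \ A)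
    (fun u hu => hu.elim (fun h => ⟨hX h.1, h.2⟩) fun h => ⟨h.1, h.2.2⟩) fun u hu =>
      ⟨⟨(hK u hu.1).1, cov u (hK u hu.1).1 hu.2⟩,
        fun h => h.elim (fun h => (hK u hu.1).2 h.1) fun h => hu.2 h.2.1⟩
  have inA : ∀ u, u ∈ D ∩ A ∧ u ∉ X ∩ A ∪ O ↔ u ∈ D ∧ u ∉ X ∧ u ∉ Bs := fun u =>
    ⟨fun h => ⟨h.1.1, fun h' => h.2 (Or.inl ⟨h', h.1.2⟩), fun h' => h.2 (Or.inr ⟨h.1.1, h.1.2, h'⟩)⟩,
      fun h => ⟨⟨h.1, cov' u h.1 h.2.2⟩,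
        fun h' => h'.elim (fun h' => h.2.1 h'.1) fun h' => h.2.2 h'.2.2⟩⟩
  have inB : ∀ u, u ∈ D ∩ Bs ∧ u ∉ X ∩ Bs ∪ O ↔ u ∈ D ∧ u ∉ X ∧ u ∉ A := fun u =>
    ⟨fun h => ⟨h.1.1, fun h' => h.2 (Or.inl ⟨h', h.1.2⟩), fun h' => h.2 (Or.inr ⟨h.1.1, h', h.1.2⟩)⟩,
      fun h => ⟨⟨h.1, cov u h.1 h.2.2⟩,
        fun h' => h'.elim (fun h' => h.2.1 h'.1) fun h' => h.2.2 h'.2.1⟩⟩
  have r1 := fun u hu => (inA u).1 (e.rD u hu)
  have b1 := fun u hu => (inA u).1 (e.bD u hu)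
  have r2 := fun u hu => (inB u).1 (f.rD u hu)
  have b2 := fun u hu => (inB u).1 (f.bD u hu)
  have no : ∀ u ∈ D, u ∉ Bs → u ∉ A → False := fun u hu h h' => h (cov u hu h')
  let ψ : U → ℕ := fun u => if u ∈ A then ψ₁ u else ψ₂ u
  have ψ1 : ∀ u ∈ R₁, ψ u = ψ₁ u := fun u hu => if_pos (e.rD u hu).1.2
  have ψ2 : ∀ u ∈ R₂, ψ u = ψ₂ u := fun u hu => if_neg (r2 u hu).2.2
  set B := (B₁ ∪ B₂) ∪ (O \ X) with hBB
  have lO : ∀ u ∈ Lf D X (R₁ ∪ R₂) B, u ∈ A → u ∉ Bs := fun u hu h h' =>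
    hu.2.2.2 (Or.inr ⟨⟨hu.1, h, h'⟩, hu.2.1⟩)
  have l1 : ∀ u ∈ Lf D X (R₁ ∪ R₂) B, u ∈ A → u ∈ Lf (D ∩ A) (X ∩ A ∪ O) R₁ B₁ :=
    fun u hu huA => ⟨⟨hu.1, huA⟩, ((inA u).2 ⟨hu.1, hu.2.1, lO u hu huA⟩).2,
      fun h => hu.2.2.1 (Or.inl h), fun h => hu.2.2.2 (Or.inl (Or.inl h))⟩
  have l2 : ∀ u ∈ Lf D X (R₁ ∪ R₂) B, u ∉ A → u ∈ Lf (D ∩ Bs) (X ∩ Bs ∪ O) R₂ B₂ :=
    fun u hu huA => ⟨⟨hu.1, cov u hu.1 huA⟩, ((inB u).2 ⟨hu.1, hu.2.1, huA⟩).2,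
      fun h => hu.2.2.1 (Or.inr h), fun h => hu.2.2.2 (Or.inl (Or.inr h))⟩
  have l1' : ∀ u ∈ Lf (D ∩ A) (X ∩ A ∪ O) R₁ B₁, u ∈ Lf D X (R₁ ∪ R₂) B := fun u hu =>
    ⟨hu.1.1, ((inA u).1 ⟨hu.1, hu.2.1⟩).2.1, fun h => h.elim hu.2.2.1 fun h => (r2 u h).2.2 hu.1.2,
      fun h => h.elim (fun h => h.elim hu.2.2.2 fun h => (b2 u h).2.2 hu.1.2)
        fun h => hu.2.1 (Or.inr h.1)⟩
  have l2' : ∀ u ∈ Lf (D ∩ Bs) (X ∩ Bs ∪ O) R₂ B₂, u ∈ Lf D X (R₁ ∪ R₂) B := fun u hu =>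
    ⟨hu.1.1, ((inB u).1 ⟨hu.1, hu.2.1⟩).2.1,
      fun h => h.elim (fun h => (r1 u h).2.2 hu.1.2) hu.2.2.1,
      fun h => h.elim (fun h => h.elim (fun h => (b1 u h).2.2 hu.1.2) hu.2.2.2)
        fun h => hu.2.1 (Or.inr h.1)⟩
  have SD : B ∪ X ⊆ D := by
    rintro u (((h | h) | h) | h)
    exacts [(b1 u h).1, (b2 u h).1, h.1.1, hX h]
  have eA : (B ∪ X) ∩ A = B₁ ∪ (X ∩ A ∪ O) := by
    ext u
    constructor
    · rintro ⟨((h | h) | h) | h, hu⟩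
      exacts [Or.inl h, absurd hu (b2 u h).2.2, Or.inr (Or.inr h.1), Or.inr (Or.inl ⟨h, hu⟩)]
    · rintro (h | h | h)
      · exact ⟨Or.inl (Or.inl (Or.inl h)), (e.bD u h).1.2⟩
      · exact ⟨Or.inr h.1, h.2⟩
      · exact ⟨(em (u ∈ X)).elim Or.inr fun h' => Or.inl (Or.inr ⟨h, h'⟩), h.2.1⟩
  have eB : (B ∪ X) ∩ Bs = B₂ ∪ (X ∩ Bs ∪ O) := by
    ext u
    constructor
    · rintro ⟨((h | h) | h) | h, hu⟩
      exacts [absurd hu (b1 u h).2.2, Or.inl h, Or.inr (Or.inr h.1), Or.inr (Or.inl ⟨h, hu⟩)]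
    · rintro (h | h | h)
      · exact ⟨Or.inl (Or.inl (Or.inr h)), (f.bD u h).1.2⟩
      · exact ⟨Or.inr h.1, h.2⟩
      · exact ⟨(em (u ∈ X)).elim Or.inr fun h' => Or.inl (Or.inr ⟨h, h'⟩), h.2.2⟩
  refine ⟨R₁ ∪ R₂, B, ψ, ?_, ?_, ?_, ?_, ⟨?_, ?_⟩, ?_, ?_, ?_, ?_⟩
  · rintro u (h | h)
    exacts [⟨(r1 u h).1, (r1 u h).2.1⟩, ⟨(r2 u h).1, (r2 u h).2.1⟩]
  · rintro u ((h | h) | h)
    exacts [⟨(b1 u h).1, (b1 u h).2.1⟩, ⟨(b2 u h).1, (b2 u h).2.1⟩, ⟨h.1.1, h.2⟩]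
  · rintro u (h | h) ((h' | h') | h')
    exacts [e.dis u h h', no u (r1 u h).1 (r1 u h).2.2 (b2 u h').2.2, (r1 u h).2.2 h'.1.2.2,
      no u (r2 u h).1 (b1 u h').2.2 (r2 u h).2.2, f.dis u h h', (r2 u h).2.2 h'.1.2.1]
  · intro u hu
    by_cases h : u ∈ A
    · by_cases h' : u ∈ Bs
      · exact Or.inr (Or.inr ⟨⟨(hK u hu).1, h, h'⟩, (hK u hu).2⟩)
      · exact (e.kk u ⟨hu, h'⟩).imp Or.inl fun h => Or.inl (Or.inl h)
    · exact (f.kk u ⟨hu, h⟩).imp Or.inr fun h => Or.inl (Or.inr h)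
  · rintro u (h | h)
    · rw [ψ1 u h]
      exact e.col.lt u h
    · rw [ψ2 u h]
      exact f.col.lt u h
  · intro i T hT hc
    have hTD : (T : Set U) ⊆ D := fun u hu => (hT hu).1.elim (fun h => (r1 u h).1) fun h => (r2 u h).1
    rcases side h1 h3 hTD hc with h | h
    · have h' : ∀ u ∈ T, u ∈ R₁ := fun u hu =>
        (hT hu).1.resolve_right fun h' => (r2 u h').2.2 (h u hu)
      exact e.col.oc i (fun u hu => ⟨h' u hu, (ψ1 u (h' u hu)).symm.trans (hT hu).2⟩) hc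
    · have h' : ∀ u ∈ T, u ∈ R₂ := fun u hu =>
        (hT hu).1.resolve_left fun h' => (r1 u h').2.2 (h u hu)
      exact f.col.oc i (fun u hu => ⟨h' u hu, (ψ2 u (h' u hu)).symm.trans (hT hu).2⟩) hc
  · intro u hu w hw
    by_cases huA : u ∈ A
    · by_cases hwA : w ∈ A
      · exact e.ne u (l1 u hu huA) w (eA ▸ (⟨hw, hwA⟩ : w ∈ (B ∪ X) ∩ A) : w ∈ B₁ ∪ (X ∩ A ∪ O))
      · exact cut u hu.1 (lO u hu huA) w (SD hw) hwA
    · by_cases hwB : w ∈ Bs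
      · exact f.ne u (l2 u hu huA) w (eB ▸ (⟨hw, hwB⟩ : w ∈ (B ∪ X) ∩ Bs) : w ∈ B₂ ∪ (X ∩ Bs ∪ O))
      · exact fun h => cut w (SD hw) hwB u hu.1 huA h.symm
  · intro u hu
    by_cases huA : u ∈ A
    · obtain ⟨P, f1, f2, f3, f4⟩ := e.pt u (l1 u hu huA)
      refine ⟨P, f1, fun x hx => l1' x (f2 hx), fun x hx y hy h => f3 x hx y (l1 y hy ?_) h, f4⟩
      rcases h with h | h
      · exact by_contra fun hyA =>
          cut x (f2 hx).1.1 (lO x (l1' x (f2 hx)) (f2 hx).1.2) y hy.1 hyA h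
      · exact hA x y h (f2 hx).1.2
    · obtain ⟨P, f1, f2, f3, f4⟩ := f.pt u (l2 u hu huA)
      refine ⟨P, f1, fun x hx => l2' x (f2 hx),
        fun x hx y hy h => f3 x hx y (l2 y hy fun hyA => ?_) h, f4⟩
      have hxA := ((inB x).1 ⟨(f2 hx).1, (f2 hx).2.1⟩).2.2
      rcases h with h | h
      · exact cut y hy.1 (lO y hy hyA) x (f2 hx).1.1 hxA h.symm
      · exact hxA (hA y x h.symm hyA)
  · intro u hu huX w hw hwX e' hk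
    by_cases huA : u ∈ A
    · have hwA := hA u w e' huA
      by_cases huB : u ∈ Bs
      · exact ⟨fun h => (h.elim (fun h => (r1 u h).2.2 huB) fun h => (r2 u h).2.2 huA).elim,
          fun _ => Or.inr ⟨⟨hw, hwA, hB u w e' huB⟩, hwX⟩⟩
      · have hwB : w ∉ Bs := fun h => huB (hB w u e'.symm h)
        have f1 := e.fc u ⟨hu, huA⟩ ((inA u).2 ⟨hu, huX, huB⟩).2 w ⟨hw, hwA⟩
          ((inA w).2 ⟨hw, hwX, hwB⟩).2 e' (and_congr hk (iff_of_true huB hwB))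
        refine ⟨?_, ?_⟩
        · rintro (h | h)
          · exact ⟨Or.inl (f1.1 h).1, by rw [ψ1 u h, ψ1 w (f1.1 h).1, (f1.1 h).2]⟩
          · exact absurd huA (r2 u h).2.2
        · rintro ((h | h) | h)
          exacts [Or.inl (Or.inl (f1.2 h)), absurd huA (b2 u h).2.2, absurd h.1.2.2 huB]
    · have hwA : w ∉ A := fun h => huA (hA w u e'.symm h)
      have f1 := f.fc u ⟨hu, cov u hu huA⟩ ((inB u).2 ⟨hu, huX, huA⟩).2 w ⟨hw, cov w hw hwA⟩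
        ((inB w).2 ⟨hw, hwX, hwA⟩).2 e' (and_congr hk (iff_of_true huA hwA))
      refine ⟨?_, ?_⟩
      · rintro (h | h)
        · exact absurd (e.rD u h).1.2 huA
        · exact ⟨Or.inr (f1.1 h).1, by rw [ψ2 u h, ψ2 w (f1.1 h).1, (f1.1 h).2]⟩
      · rintro ((h | h) | h)
        exacts [absurd (e.bD u h).1.2 huA, Or.inl (Or.inr (f1.2 h)), absurd h.1.2.1 huA]
  · obtain ⟨V₁, π₁, c₁, d₁, n₁⟩ := e.dr
    obtain ⟨V₂, π₂, c₂, d₂, n₂⟩ := f.dr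
    have f0 : (π '' {u | u ∈ B ∪ X ∧ π u ∈ a ∧ π u ∈ b}).ncard ≤ k :=
      le_trans (ncard_le_ncard (image_mono fun u hu => (⟨SD hu.1, hu.2⟩ : u ∈ O)) (toFinite _)) h2
    obtain ⟨V', π', c', d', n'⟩ := join (π₁ := π₁) (π₂ := π₂) (S := B ∪ X) (a := a) (b := b)
      (fun u hu => h1 u (SD hu)) f0 (fun u hu h w hw => h3 u (SD hu) h w (SD hw)) (eA ▸ d₁)
      (eB ▸ d₂) (eA ▸ c₁) (eB ▸ c₂)
    have w1 := wside (s := s) (π := π) (σ := σ) (K := K) (A := A) (Bs := Bs) (O := O)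
      (fun u => Iff.rfl) cov' hX h2
    have w2 := wside (s := s) (π := π) (σ := σ) (K := K) (A := Bs) (Bs := A) (O := O)
      (fun u => and_congr_right fun _ => and_comm) cov hX h2
    have ne : ∀ u ∈ D, u ∉ Bs → ∀ w, w ∉ A → π u ≠ π w := fun u hu h w h' e' =>
      h' (hA u w e' (cov' u hu h))
    have sX := img_two π (S := X) (S₁ := X \ Bs) (S₂ := X \ A) sdiff_subset sdiff_subset
      fun u hu w hw => ne u (hX hu.1) hu.2 w hw.2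
    have sK := img_two π (S := K) (S₁ := K \ Bs) (S₂ := K \ A) sdiff_subset sdiff_subset
      fun u hu w hw => ne u (hK u hu.1).1 hu.2 w hw.2
    have sZ := img_two σ (S := D \ X) (S₁ := (D \ Bs) \ (X \ Bs)) (S₂ := (D \ A) \ (X \ A))
      (fun u hu => ⟨hu.1.1, fun h => hu.2 ⟨h, hu.1.2⟩⟩)
      (fun u hu => ⟨hu.1.1, fun h => hu.2 ⟨h, hu.1.2⟩⟩)
      fun u hu w hw e' => ne u hu.1.1 hu.1.2 w hw.1.2 (hσ u hu.1.1 w hw.1.1 e')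
    have w3 : wt k s π σ (D \ Bs) (X \ Bs) (K \ Bs) + wt k s π σ (D \ A) (X \ A) (K \ A) ≤
        wt k s π σ D X K := by
      have f3 := Nat.mul_le_mul_left s (Nat.mul_le_mul_left (k + 1) sX)
      have f4 := Nat.mul_le_mul_left s sK
      unfold wt
      simp only [mul_add s, mul_add (k + 1)] at f3 f4 ⊢
      omega
    refine ⟨V', π', c', d', arith2 n₁ n₂ (hb.trans w1.1) (ha.trans w2.1) (by omega) ?_⟩
    have f5 : (π₂ '' ((B ∪ X) \ A)).ncard ≤ (π₂ '' (B₂ ∪ (X ∩ Bs ∪ O))).ncard :=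
      ncard_le_ncard (image_mono fun u hu =>
        eB ▸ (⟨hu.1, cov u (SD hu.1) hu.2⟩ : u ∈ (B ∪ X) ∩ Bs)) (toFinite _)
    rw [← hAd, eA] at n'
    omega

theorem sep [Finite U] (hq : 0 < q) (hs : 1 ≤ s) (hc : c ≤ d) (hd : 2 * k + (k + thr k) * 2 ≤ d)
    (σ : U → α) {π : U → V} {D : Set U} (h : Der J q k c V π D) :
    J.CliqueFreeOn D (q + 1) → (∀ u ∈ D, ∀ w ∈ D, σ u = σ w → π u = π w) → ∀ X K : Set U, X ⊆ D →
      (∀ u ∈ K, u ∈ D ∧ u ∉ X) → ∃ R B ψ, Sep J q k c d s π σ D X K R B ψ := by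
  induction h with
  | leaf V π D col h1 h2 h3 h4 =>
    intro _ _ X K hX hK
    have hL : ∀ u, u ∉ Lf D X (D \ X) ∅ := fun u h => h.2.2.1 ⟨h.1, h.2.1⟩
    refine ⟨D \ X, ∅, fun u => col (π u), fun u h => h, fun _ h => h.elim, fun _ _ => id,
      fun u hu => Or.inl (hK u hu), ⟨fun u hu => (h3 u hu.1).trans_le hc, fun i T hT ht => ?_⟩,
      fun u h => (hL u h).elim, fun u h => (hL u h).elim,
      fun u _ _ w hw hw' e _ => ⟨fun _ => ⟨⟨hw, hw'⟩, by rw [e]⟩, id⟩, V, π, fun _ _ _ _ => id,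
      (Der.leaf V π D col h1 h2 h3 h4).sub _ (union_subset (empty_subset _) hX), ?_⟩
    · obtain ⟨u, hu⟩ := nonempty_of_clique hq ht
      refine h2 (π u) (fun w hw => ⟨(hT hw).1.1, by_contra fun hne => ?_⟩) ht
      exact h4 w (hT hw).1.1 u (hT hu).1.1 hne (ht.1 hw hu fun e => hne (by rw [e]))
        ((hT hw).2.trans (hT hu).2.symm)
    · rw [empty_union]
      refine add_le_add ?_ (le_max_right _ _)
      unfold wt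
      refine le_trans ?_ (Nat.le_mul_of_pos_left _ (Nat.succ_pos k))
      refine le_trans (Nat.mul_le_mul_left _ ?_) (Nat.le_add_right _ _)
      exact (Nat.le_mul_of_pos_left _ (Nat.succ_pos k)).trans (Nat.le_add_right _ _)
  | merge V V' π π' D h1 _ ih =>
    intro cf hσ X K hX hK
    obtain ⟨R, B, ψ, e⟩ := ih cf (fun u hu w hw e => h1 u hu w hw (hσ u hu w hw e)) X K hX hK
    refine ⟨R, B, ψ, e.rD, e.bD, e.dis, e.kk, e.col, e.ne, fun u hu => ?_,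
      fun u hu huX w hw hwX e' => e.fc u hu huX w hw hwX (h1 u hu w hw e'), ?_⟩
    · obtain ⟨P, f1, f2, f3, f4⟩ := e.pt u hu
      exact ⟨P, f1, f2, fun x hx y hy h => f3 x hx y hy (h.imp id (h1 x (f2 hx).1 y hy.1)), f4⟩
    · obtain ⟨V₁, π₁, c₁, d₁, n₁⟩ := e.dr
      have SD : B ∪ X ⊆ D := union_subset (fun u hu => (e.bD u hu).1) hX
      refine ⟨V₁, π₁, fun u hu w hw e' => c₁ u hu w hw (h1 u (SD hu) w (SD hw) e'), d₁,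
        arith1 n₁ (t := 0) ?_ (by omega)⟩
      have f1 := factor_le X π' π fun u hu w hw => h1 u (hX hu) w (hX hw)
      have f2 := factor_le K π' π fun u hu w hw => h1 u (hK u hu).1 w (hK w hw).1
      rw [mul_zero, add_zero]
      exact add_le_add (Nat.mul_le_mul_left _ (add_le_add (Nat.mul_le_mul_left _ f1) f2)) le_rfl
  | cut V π D a b h1 h2 h3 d1 d2 ih1 ih2 =>
    intro cf hσ X K hX hK
    have der := Der.cut V π D a b h1 h2 h3 d1 d2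
    have i1 := ih1 (cfs cf inter_subset_left) fun u hu w hw => hσ u hu.1 w hw.1
    have i2 := ih2 (cfs cf inter_subset_left) fun u hu w hw => hσ u hu.1 w hw.1
    by_cases ha : wt k s π σ (D \ π ⁻¹' a) (X \ π ⁻¹' a) (K \ π ⁻¹' a) ≤ s * thr k
    · exact drop hq hs hd der cf h1 h2 h3 hX hK ha d2
        fun K' => i1 _ K' (inter_subset_inter_left _ hX)
    by_cases hb : wt k s π σ (D \ π ⁻¹' b) (X \ π ⁻¹' b) (K \ π ⁻¹' b) ≤ s * thr k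
    · refine drop hq hs hd der cf (fun u hu h => by_contra fun h' => h (h1 u hu h')) ?_
        (fun u hu h w hw h' ha => h3 w hw h' u hu h ha.symm) hX hK hb d1
        fun K' => i2 _ K' (inter_subset_inter_left _ hX)
      simpa only [and_comm (a := π _ ∈ b)] using h2
    · exact branch hσ h1 h2 h3 hX hK (by omega) (by omega) i1 i2

end Pool.Agent.MP_da1f04_co.H91
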