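import Mathlib

/-! Iterated line digraphs: large chromatic number, all small subgraphs bipartite. -/

set_option autoImplicit false

namespace Pool.Agent.MP_da1f04_co

theorem shift (g : ℕ) : ∀ (α : Type) [Finite α], ∃ (V : Type) (_ : Finite V) (r : V → V → Prop)
    (ρ : V → ℕ), (∀ x y, r x y → ρ x < ρ y) ∧ (∀ c : V → α, ∃ x y, r x y ∧ c x = c y) ∧
      ∀ S : Finset V, S.card ≤ g → ∃ c : V → Bool, ∀ x ∈ S, ∀ y ∈ S, r x y → c x ≠ c y := by
  classical
  induction g with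
  | zero =>
    intro α _
    refine ⟨Fin (Nat.card α + 1), inferInstance, (· < ·), Fin.val, fun _ _ h => h, fun c => ?_,
      fun S hS => ⟨fun _ => true, by simp [Finset.card_eq_zero.1 (Nat.le_zero.1 hS)]⟩⟩
    have := Fintype.ofFinite α
    obtain ⟨x, y, h, e⟩ := Fintype.exists_ne_map_eq_of_card_lt c (by simp)
    rcases lt_or_gt_of_ne h with h | h
    exacts [⟨x, y, h, e⟩, ⟨y, x, h, e.symm⟩]
  | succ g ih =>
    intro α _
    obtain ⟨V, _, r, ρ, h1, h2, h3⟩ := ih (Set α)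
    refine ⟨{p : V × V // r p.1 p.2}, inferInstance, fun p q => p.1.2 = q.1.1, fun p => ρ p.1.1,
      fun p q h => (h1 _ _ p.2).trans_eq (congrArg ρ h), fun c => ?_, fun S hS => ?_⟩
    · obtain ⟨x, y, h, e⟩ := h2 fun x => c '' {p | p.1.1 = x}
      obtain ⟨q, hq, e'⟩ : c ⟨(x, y), h⟩ ∈ c '' {p | p.1.1 = y} := e ▸ ⟨_, rfl, rfl⟩
      exact ⟨⟨(x, y), h⟩, q, hq.symm, e'.symm⟩
    · rcases S.eq_empty_or_nonempty with rfl | hne
      · exact ⟨fun _ => true, by simp⟩
      obtain ⟨v, hv, hm⟩ := S.exists_max_image (fun p => ρ p.1.1) hne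
      obtain ⟨c, hc⟩ := h3 ((S.erase v).image fun p => p.1.2)
        (Finset.card_image_le.trans (by rw [Finset.card_erase_of_mem hv]; omega))
      refine ⟨fun p => if p = v then !c v.1.1 else c p.1.2, fun p hp q hq h => ?_⟩
      have lt : ρ p.1.1 < ρ q.1.1 := h ▸ h1 _ _ p.2
      have pv : p ≠ v := by
        rintro rfl
        exact lt.not_ge (hm q hq)
      dsimp only
      rw [if_neg pv]
      split_ifs with e
      · rw [← e, ← h]; simp
      · exact hc _ (Finset.mem_image_of_mem _ (Finset.mem_erase.2 ⟨pv, hp⟩)) _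
          (Finset.mem_image_of_mem _ (Finset.mem_erase.2 ⟨e, hq⟩)) (h ▸ q.2)

theorem odd (g c : ℕ) : ∃ (A : Type) (_ : Finite A) (R : SimpleGraph A), ¬ R.Colorable c ∧
    ∀ n ≤ g, ∀ F : SimpleGraph (Fin n), Nonempty (F →g R) → F.Colorable 2 := by
  classical
  obtain ⟨V, _, r, ρ, h1, h2, h3⟩ := shift g (Fin c)
  refine ⟨V, inferInstance, .fromRel r, fun ⟨col⟩ => ?_, fun n hn F ⟨φ⟩ => ?_⟩
  · obtain ⟨x, y, h, e⟩ := h2 col
    exact col.valid ((SimpleGraph.fromRel_adj ..).2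
      ⟨fun e' => (h1 _ _ h).ne (congrArg ρ e'), .inl h⟩) e
  · obtain ⟨b, hb⟩ := h3 (Finset.univ.image φ) (Finset.card_image_le.trans (by simpa using hn))
    have m : ∀ x, φ x ∈ Finset.univ.image φ := fun x => Finset.mem_image_of_mem _ (Finset.mem_univ x)
    exact (SimpleGraph.Coloring.mk (G := F) (fun x => b (φ x)) fun {x y} h =>
      ((SimpleGraph.fromRel_adj ..).1 (φ.map_adj h)).2.elim (hb _ (m x) _ (m y))
        fun h' => (hb _ (m y) _ (m x) h').symm).colorable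

end Pool.Agent.MP_da1f04_co
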